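import Pool.Agent.H58.BL.Mk

/-!
# The bound for products of spheres of dimensions at most 16
-/

set_option autoImplicit false

open Finset Filter Topology

namespace Pool.Agent.H58.BL

/-- the numerical data for the dimension `d` -/
structure NumG (σ : ℝ) (d L : ℕ) (q : ℕ → ℝ) (C : ℝ) : Prop where
  pos : ∀ k ≤ L, 0 < q k
  sum : ∑ k ∈ range (L + 1), q k = 1
  corr : σ ≤ 2 * ∑ k ∈ range L, √(q k * q (k + 1) * (aN d k * bN d (k + 1)))
  ent : ∑ k ∈ range (L + 1), q k * Real.logb 2 (hd d k / q k) ≤ C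

/-- kissing configurations -/
abbrev NumOK (d L : ℕ) (q : ℕ → ℝ) (C : ℝ) : Prop := NumG (0.500001 : ℝ) d L q C

/-- blocks with test functions -/
structure Item (α : Type) (σ ε τ ρ : ℝ) where
  A : Blk α
  φ : ℤ → ℝ
  w : ℤ → ℝ
  C : ℝ
  hS : ∀ t, t ∉ A.S → φ t = 0
  hφ0 : ∀ t, 0 ≤ φ t
  hφ : ∀ u ∈ A.S, 0 < φ u
  hw0 : ∀ t, 0 ≤ w t
  hw1 : ∀ t, w t ≤ 1
  h1 : ∑ t ∈ A.S, φ t ^ 2 = 1
  hc : σ ≤ 2 * ∑ t ∈ A.S, w t * (φ t * φ (t + 1))
  hrel : ∀ i ∈ A.S, i + 1 ∈ A.S → A.a i * √(A.h i) = w i * √(A.h (i + 1)) ∧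
      A.b (i + 1) * √(A.h (i + 1)) = w i * √(A.h i)
  htail : ((2 : ℝ) ^ (-(C + ε))) ^ τ * ∑ u ∈ A.S, φ u ^ 2 * (A.h u / φ u ^ 2) ^ τ ≤ ρ

/-- the bound -/
theorem bt_items (per : S_PER) {s σ ε τ ρ : ℝ} (hs0 : 0 ≤ s) (hs1 : s ≤ 1) (hσ : s < σ)
    (hτ : 0 ≤ τ) (hρ0 : 0 ≤ ρ) (hρ : ρ < 1) :
    ∃ m0 : ℕ, ∀ (α : Type) (X : Finset α) (m : ℕ) (I : Fin m → Item α σ ε τ ρ)
      (D : Item α σ ε τ ρ) (p : Fin m → ℝ), (∀ j, 0 ≤ p j) → ∑ j, p j = 1 →
      (∀ x ∈ X, ∀ y ∈ X, x ≠ y → ∑ j, p j * (I j).A.u x y ≤ s) →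
      (X.card : ℝ) ≤ 2 / (σ - s) * (2 ^ (D.C + ε)) ^ m0 * 2 ^ (∑ j, ((I j).C + ε)) := by
  -- the number of dummy blocks
  obtain ⟨m0, hm0⟩ : ∃ m0 : ℕ, 8 * √(ρ ^ m0) ≤ σ - s := by
    have h2 : Tendsto (fun k : ℕ => 8 * √(ρ ^ k)) atTop (𝓝 (8 * √0)) :=
      ((Real.continuous_sqrt.tendsto _).comp (tendsto_pow_atTop_nhds_zero_of_lt_one hρ0 hρ)).const_mul 8
    rw [Real.sqrt_zero, mul_zero] at h2
    obtain ⟨m0, h⟩ := (h2.eventually_lt_const (show (0 : ℝ) < σ - s by linarith)).exists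
    exact ⟨m0, h.le⟩
  refine ⟨m0, ?_⟩
  intro α X m I D p hp hp1 hX
  set I' : Fin (m + m0) → Item α σ ε τ ρ := Fin.append I (fun _ => D) with hI'
  set p' : Fin (m + m0) → ℝ := Fin.append p (fun _ => 0) with hp'
  have hIl : ∀ j, I' (Fin.castAdd m0 j) = I j := fun j => by rw [hI', Fin.append_left]
  have hIr : ∀ j, I' (Fin.natAdd m j) = D := fun j => by rw [hI', Fin.append_right]
  have hpl : ∀ j, p' (Fin.castAdd m0 j) = p j := fun j => by rw [hp', Fin.append_left]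
  have hpr : ∀ j, p' (Fin.natAdd m j) = 0 := fun j => by rw [hp', Fin.append_right]
  have hbd := block_bound per (A := fun j => (I' j).A) (X := X) (p := p')
    (by
      intro j
      refine Fin.addCases (fun j => ?_) (fun j => ?_) j
      · rw [hpl]; exact hp j
      · rw [hpr])
    (by
      rw [Fin.sum_univ_add]
      simp only [hpl, hpr, hp1, sum_const_zero, add_zero])
    (s := s) hs0 hs1
    (by
      intro x hx y hy hxy
      unfold UU
      rw [Fin.sum_univ_add]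
      simp only [hpl, hpr, hIl, zero_mul, sum_const_zero, add_zero]
      exact hX x hx y hy hxy)
    (φ := fun j => (I' j).φ) (w := fun j => (I' j).w) (fun j => (I' j).hS) (fun j => (I' j).hφ0)
    (fun j => (I' j).hφ) (fun j => (I' j).hw0) (fun j => (I' j).hw1) (fun j => (I' j).h1)
    (c := σ) (fun j => (I' j).hc) hσ (fun j => (I' j).hrel)
    (β := fun j => (2 : ℝ) ^ (-((I' j).C + ε))) (τ := τ) (fun j => by positivity) hτ
    (by
      have h2 : ∏ j, (((2 : ℝ) ^ (-((I' j).C + ε))) ^ τ * ∑ u ∈ (I' j).A.S,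
          (I' j).φ u ^ 2 * ((I' j).A.h u / (I' j).φ u ^ 2) ^ τ) ≤ ρ ^ m0 := by
        calc ∏ j, (((2 : ℝ) ^ (-((I' j).C + ε))) ^ τ * ∑ u ∈ (I' j).A.S,
            (I' j).φ u ^ 2 * ((I' j).A.h u / (I' j).φ u ^ 2) ^ τ) ≤ ∏ _j : Fin (m + m0), ρ := by
              apply Finset.prod_le_prod
              · intro j _
                apply mul_nonneg (by positivity)
                apply sum_nonneg
                intro u _
                have := ((I' j).A.hh u).le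
                positivity
              · intro j _
                exact (I' j).htail
          _ = ρ ^ (m + m0) := by rw [prod_const, card_univ, Fintype.card_fin]
          _ ≤ ρ ^ m0 := pow_le_pow_of_le_one hρ0 hρ.le (by omega)
      have h3 := Real.sqrt_le_sqrt h2
      linarith)
  have e1 : ∏ j, (1 / (2 : ℝ) ^ (-((I' j).C + ε))) =
      (2 ^ (D.C + ε)) ^ m0 * 2 ^ (∑ j, ((I j).C + ε)) := by
    have e2 : ∀ j, (1 / (2 : ℝ) ^ (-((I' j).C + ε))) = 2 ^ ((I' j).C + ε) := by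
      intro j
      rw [Real.rpow_neg two_pos.le, one_div, inv_inv]
    simp_rw [e2]
    rw [Fin.prod_univ_add]
    simp only [hIl, hIr, prod_const, card_univ, Fintype.card_fin]
    rw [mul_comm, ← Real.rpow_sum_of_pos two_pos]
  rw [e1] at hbd
  have h6 : 0 < σ - s := by linarith
  set T : ℝ := (2 ^ (D.C + ε)) ^ m0 * 2 ^ (∑ j, ((I j).C + ε)) with hT
  have hT0 : 0 ≤ T := by positivity
  rw [mul_assoc, ← hT, div_mul_eq_mul_div, le_div_iff₀ h6]
  nlinarith

/-- the choice of the parameter: one dimension -/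
lemma eventually_tau {σ : ℝ} {d L : ℕ} {q : ℕ → ℝ} {C : ℝ} (hN : NumG σ d L q C) (hh : ∀ k ≤ L, 0 < hd d k)
    {ε : ℝ} (hε : 0 < ε) : ∀ᶠ τ in 𝓝[>] (0 : ℝ),
    ((2 : ℝ) ^ (-(C + ε))) ^ τ * ∑ k ∈ range (L + 1), q k * (hd d k / q k) ^ τ < 1 := by
  set β : ℝ := (2 : ℝ) ^ (-(C + ε)) with hβ
  have hβ0 : 0 < β := by positivity
  set F : ℝ → ℝ := fun t => β ^ t * ∑ k ∈ range (L + 1), q k * (hd d k / q k) ^ t with hF
  have hF0 : F 0 = 1 := by
    simp only [hF, Real.rpow_zero, one_mul, mul_one]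
    exact hN.sum
  have hpos : ∀ k ∈ range (L + 1), 0 < hd d k / q k := by
    intro k hk
    have hk' : k ≤ L := by
      have := mem_range.1 hk
      omega
    exact div_pos (hh k hk') (hN.pos k hk')
  have hder : HasDerivAt F (Real.log β * 1 * β ^ (0 : ℝ) *
      (∑ k ∈ range (L + 1), q k * (hd d k / q k) ^ (0 : ℝ)) +
      β ^ (0 : ℝ) * ∑ k ∈ range (L + 1), q k * (Real.log (hd d k / q k) * 1 *
        (hd d k / q k) ^ (0 : ℝ))) 0 := by
    apply HasDerivAt.mul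
    · exact HasDerivAt.const_rpow hβ0 (hasDerivAt_id 0)
    · apply HasDerivAt.fun_sum
      intro k hk
      apply HasDerivAt.const_mul
      exact HasDerivAt.const_rpow (hpos k hk) (hasDerivAt_id 0)
  have hl2 : 0 < Real.log 2 := Real.log_pos one_lt_two
  have hneg : Real.log β * 1 * β ^ (0 : ℝ) *
      (∑ k ∈ range (L + 1), q k * (hd d k / q k) ^ (0 : ℝ)) +
      β ^ (0 : ℝ) * ∑ k ∈ range (L + 1), q k * (Real.log (hd d k / q k) * 1 *
        (hd d k / q k) ^ (0 : ℝ)) < 0 := by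
    simp only [Real.rpow_zero, mul_one, one_mul, hN.sum]
    have e1 : Real.log β = -(C + ε) * Real.log 2 := by
      rw [hβ, Real.log_rpow two_pos]
    have e2 : ∑ k ∈ range (L + 1), q k * Real.log (hd d k / q k) =
        (∑ k ∈ range (L + 1), q k * Real.logb 2 (hd d k / q k)) * Real.log 2 := by
      rw [sum_mul]
      apply sum_congr rfl
      intro k _
      unfold Real.logb
      field_simp
    rw [e1, e2]
    nlinarith [hN.ent]
  rw [hasDerivAt_iff_tendsto_slope] at hder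
  have h2 := hder.eventually_lt_const hneg
  have h3 : ∀ᶠ t in 𝓝[>] (0 : ℝ), slope F 0 t < 0 :=
    h2.filter_mono (nhdsWithin_mono _ (fun x hx => ne_of_gt hx))
  have h5 : ∀ᶠ t in 𝓝[>] (0 : ℝ), 0 < t := eventually_mem_nhdsWithin
  filter_upwards [h3, h5] with t ht1 ht3
  rw [slope_def_field, sub_zero, hF0] at ht1
  have h6 : F t - 1 < 0 := by
    by_contra h
    push Not at h
    exact absurd ht1 (not_lt.2 (div_nonneg h ht3.le))
  have : F t < 1 := by linarith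
  exact this

end Pool.Agent.H58.BL
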