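import Pool.Agent.H58.BL.Ker
import Pool.Agent.H58.AG.Kernel

/-!
# The basic inequality for products of blocks
-/

set_option autoImplicit false

open Finset

namespace Pool.Agent.H58.BL

open Pool.Agent.H58.AG (ev sum_shift)

variable {α : Type} {m : ℕ}

/-- a block -/
structure Blk (α : Type) where
  u : α → α → ℝ
  P : ℤ → α → α → ℝ
  a : ℤ → ℝ
  b : ℤ → ℝ
  h : ℤ → ℝ
  S : Finset ℤ
  diag : ∀ x, u x x = 1
  ha : ∀ k, 0 ≤ a k
  hb : ∀ k, 0 ≤ b k
  hh : ∀ k, 0 < h k
  recur : ∀ k ∈ S, ∀ x y, u x y * P k x y = a k * P (k + 1) x y + b k * P (k - 1) x y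
  psd : ∀ k, PsdK (P k)
  feat : ∀ k ∈ S, FeatK (P k) (h k)
  diagP : ∀ k ∈ S, ∀ x, P k x x = 1

/-- products -/
noncomputable def PP (A : Fin m → Blk α) (k : Fin m → ℤ) (x y : α) : ℝ := ∏ j, (A j).P (k j) x y

/-- products of the dimensions -/
noncomputable def HH (A : Fin m → Blk α) (k : Fin m → ℤ) : ℝ := ∏ j, (A j).h (k j)

lemma HH_pos (A : Fin m → Blk α) (k : Fin m → ℤ) : 0 < HH A k := prod_pos fun j _ => (A j).hh _

/-- the inner product -/
noncomputable def UU (A : Fin m → Blk α) (p : Fin m → ℝ) (x y : α) : ℝ := ∑ j, p j * (A j).u x y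

/-- the sums -/
noncomputable def TT (A : Fin m → Blk α) (X : Finset α) (k l : Fin m → ℤ) : ℝ :=
  ∑ x ∈ X, ∑ y ∈ X, PP A k x y * PP A l x y

lemma TT_nonneg (A : Fin m → Blk α) (X : Finset α) (k l : Fin m → ℤ) : 0 ≤ TT A X k l :=
  ((psdK_prod (fun j => (A j).psd (k j)) univ).mul (psdK_prod (fun j => (A j).psd (l j)) univ)).sum_nonneg X

lemma TT_diag (A : Fin m → Blk α) (X : Finset α) {k : Fin m → ℤ} (hk : ∀ j, k j ∈ (A j).S) :
    (X.card : ℝ) ^ 2 / HH A k ≤ TT A X k k := by
  rw [div_le_iff₀ (HH_pos A k), mul_comm]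
  exact (featK_prod (fun j => (A j).feat (k j) (hk j)) univ).lower X

lemma PP_shift (A : Fin m → Blk α) (k : Fin m → ℤ) (j : Fin m) (c : ℤ) (x y : α) :
    PP A (k + c • ev j) x y = (A j).P (k j + c) x y * ∏ i ∈ univ.erase j, (A i).P (k i) x y := by
  unfold PP
  rw [← mul_prod_erase univ _ (mem_univ j)]
  congr 1
  · simp [ev]
  · apply prod_congr rfl
    intro i hi
    have : i ≠ j := (mem_erase.1 hi).1
    simp [ev, Pi.single_eq_of_ne this]

lemma UU_mul (A : Fin m → Blk α) (p : Fin m → ℝ) {k : Fin m → ℤ} (hk : ∀ j, k j ∈ (A j).S) (x y : α) :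
    UU A p x y * PP A k x y = ∑ j, p j * ((A j).a (k j) * PP A (k + ev j) x y +
      (A j).b (k j) * PP A (k - ev j) x y) := by
  unfold UU
  rw [sum_mul]
  apply sum_congr rfl
  intro j _
  have h0 := PP_shift A k j 0 x y
  have h1 := PP_shift A k j 1 x y
  have h2 := PP_shift A k j (-1) x y
  simp only [zero_smul, add_zero, one_smul, neg_smul] at h0 h1 h2
  rw [← sub_eq_add_neg] at h2
  rw [h0, h1, h2, ← sub_eq_add_neg]
  have h3 := (A j).recur (k j) (hk j) x y
  linear_combination (p j * ∏ i ∈ univ.erase j, (A i).P (k i) x y) * h3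

/-- the basic inequality -/
theorem basic {A : Fin m → Blk α} {X : Finset α} {p : Fin m → ℝ} (hp : ∀ j, 0 ≤ p j)
    (hp1 : ∑ j, p j = 1) {s lam : ℝ} (hX : ∀ x ∈ X, ∀ y ∈ X, x ≠ y → UU A p x y ≤ s)
    {B : Finset (Fin m → ℤ)} (hBS : ∀ k ∈ B, ∀ j, k j ∈ (A j).S)
    {f : (Fin m → ℤ) → ℝ} (hf : ∀ k, 0 ≤ f k) (hB : ∀ k, k ∉ B → f k = 0)
    (hev : ∀ k ∈ B, lam * f k ≤ ∑ j, p j * ((A j).a (k j - 1) * f (k - ev j) +
      (A j).b (k j + 1) * f (k + ev j))) (hs : s ≤ lam) :
    (lam - s) * (X.card : ℝ) ^ 2 * ∑ k ∈ B, f k ^ 2 / HH A k ≤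
      (1 - s) * X.card * (∑ k ∈ B, f k) ^ 2 := by
  classical
  set F : α → α → ℝ := fun x y => ∑ k ∈ B, f k * PP A k x y with hF
  set S : ℝ := ∑ x ∈ X, ∑ y ∈ X, (UU A p x y - s) * F x y ^ 2 with hS
  have hdiag : ∀ x, F x x = ∑ k ∈ B, f k := by
    intro x
    simp only [hF]
    apply sum_congr rfl
    intro k hk
    have : PP A k x x = 1 := prod_eq_one fun j _ => (A j).diagP _ (hBS k hk j) x
    rw [this, mul_one]
  have hipd : ∀ x, UU A p x x = 1 := by
    intro x
    unfold UU
    simp only [Blk.diag, mul_one, hp1]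
  -- the upper bound
  have hup : S ≤ (1 - s) * X.card * (∑ k ∈ B, f k) ^ 2 := by
    have h1 : S ≤ ∑ x ∈ X, (1 - s) * (∑ k ∈ B, f k) ^ 2 := by
      rw [hS]
      apply sum_le_sum
      intro x hx
      rw [← sum_erase_add _ _ hx, hipd, hdiag]
      have h2 : ∑ y ∈ X.erase x, (UU A p x y - s) * F x y ^ 2 ≤ 0 := by
        apply sum_nonpos
        intro y hy
        rw [mem_erase] at hy
        have h3 := hX x hx y hy.2 (Ne.symm hy.1)
        nlinarith [sq_nonneg (F x y)]
      linarith
    refine h1.trans (le_of_eq ?_)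
    rw [sum_const, nsmul_eq_mul]
    ring
  -- the lower bound
  have hS2 : S = ∑ k ∈ B, f k * ∑ l ∈ B, f l *
      ((∑ j, p j * ((A j).a (l j) * TT A X (l + ev j) k + (A j).b (l j) * TT A X (l - ev j) k)) -
        s * TT A X l k) := by
    have h1 : ∀ x y, (UU A p x y - s) * F x y ^ 2 =
        ∑ k ∈ B, ∑ l ∈ B, f k * f l *
          ((∑ j, p j * ((A j).a (l j) * (PP A (l + ev j) x y * PP A k x y) +
            (A j).b (l j) * (PP A (l - ev j) x y * PP A k x y))) -
            s * (PP A l x y * PP A k x y)) := by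
      intro x y
      simp only [hF]
      rw [sq, sum_mul_sum, mul_sum]
      apply sum_congr rfl
      intro k _
      rw [mul_sum]
      apply sum_congr rfl
      intro l hl
      have h3 := UU_mul A p (hBS l hl) x y
      have h4 : ∑ j, p j * ((A j).a (l j) * (PP A (l + ev j) x y * PP A k x y) +
            (A j).b (l j) * (PP A (l - ev j) x y * PP A k x y)) =
            UU A p x y * PP A l x y * PP A k x y := by
        rw [h3, sum_mul]
        apply sum_congr rfl
        intro j _
        ring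
      rw [h4]
      ring
    rw [hS]
    simp_rw [h1]
    have h3 : ∀ x ∈ X, ∑ y ∈ X, ∑ k ∈ B, ∑ l ∈ B, f k * f l *
          ((∑ j, p j * ((A j).a (l j) * (PP A (l + ev j) x y * PP A k x y) +
            (A j).b (l j) * (PP A (l - ev j) x y * PP A k x y))) -
            s * (PP A l x y * PP A k x y)) =
          ∑ k ∈ B, ∑ l ∈ B, ∑ y ∈ X, f k * f l *
          ((∑ j, p j * ((A j).a (l j) * (PP A (l + ev j) x y * PP A k x y) +
            (A j).b (l j) * (PP A (l - ev j) x y * PP A k x y))) -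
            s * (PP A l x y * PP A k x y)) := by
      intro x _
      rw [sum_comm]
      apply sum_congr rfl
      intro k _
      rw [sum_comm]
    rw [sum_congr rfl h3, sum_comm]
    apply sum_congr rfl
    intro k _
    rw [sum_comm, mul_sum]
    apply sum_congr rfl
    intro l _
    have h5 : ∑ x ∈ X, ∑ y ∈ X, (∑ j, p j * ((A j).a (l j) * (PP A (l + ev j) x y * PP A k x y) +
            (A j).b (l j) * (PP A (l - ev j) x y * PP A k x y))) =
          ∑ j, p j * ((A j).a (l j) * TT A X (l + ev j) k + (A j).b (l j) * TT A X (l - ev j) k) := by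
      rw [sum_congr rfl (fun x _ => sum_comm), sum_comm]
      apply sum_congr rfl
      intro j _
      unfold TT
      simp_rw [mul_sum, ← sum_add_distrib, mul_sum]
    rw [← h5]
    unfold TT
    simp_rw [mul_sub, sum_sub_distrib, mul_sum]
    ring
  have hlow : (lam - s) * (X.card : ℝ) ^ 2 * ∑ k ∈ B, f k ^ 2 / HH A k ≤ S := by
    rw [hS2]
    have h1 : ∀ k ∈ B, (lam - s) * (X.card : ℝ) ^ 2 * (f k / HH A k) ≤ ∑ l ∈ B, f l *
      ((∑ j, p j * ((A j).a (l j) * TT A X (l + ev j) k + (A j).b (l j) * TT A X (l - ev j) k)) -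
        s * TT A X l k) := by
      intro k hk
      have hT : ∀ l, 0 ≤ TT A X l k := fun l => TT_nonneg A X l k
      have h2 : ∀ j, ∑ l ∈ B, ((A j).a (l j - 1) * f (l - ev j) + (A j).b (l j + 1) * f (l + ev j)) *
          TT A X l k ≤
          ∑ l ∈ B, f l * ((A j).a (l j) * TT A X (l + ev j) k + (A j).b (l j) * TT A X (l - ev j) k) := by
        intro j
        have h3 := sum_shift (f := fun l => (A j).a (l j) * f l) (B := B)
          (fun l => mul_nonneg ((A j).ha _) (hf l)) (fun l hl => by simp only [hB l hl, mul_zero])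
          (g := fun l => TT A X l k) hT (ev j)
        have h4 := sum_shift (f := fun l => (A j).b (l j) * f l) (B := B)
          (fun l => mul_nonneg ((A j).hb _) (hf l)) (fun l hl => by simp only [hB l hl, mul_zero])
          (g := fun l => TT A X l k) hT (-ev j)
        simp only [sub_neg_eq_add, ← sub_eq_add_neg] at h4
        have e1 : ∀ l : Fin m → ℤ, (l - ev j) j = l j - 1 := fun l => by simp [ev]
        have e2 : ∀ l : Fin m → ℤ, (l + ev j) j = l j + 1 := fun l => by simp [ev]
        simp only [e1] at h3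
        simp only [e2] at h4
        calc ∑ l ∈ B, ((A j).a (l j - 1) * f (l - ev j) + (A j).b (l j + 1) * f (l + ev j)) * TT A X l k
            = ∑ l ∈ B, (A j).a (l j - 1) * f (l - ev j) * TT A X l k +
              ∑ l ∈ B, (A j).b (l j + 1) * f (l + ev j) * TT A X l k := by
              rw [← sum_add_distrib]
              apply sum_congr rfl
              intro k _
              ring
          _ ≤ ∑ l ∈ B, (A j).a (l j) * f l * TT A X (l + ev j) k +
              ∑ l ∈ B, (A j).b (l j) * f l * TT A X (l - ev j) k := add_le_add h3 h4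
          _ = _ := by
              rw [← sum_add_distrib]
              apply sum_congr rfl
              intro k _
              ring
      have h5 : ∑ l ∈ B, (∑ j, p j * ((A j).a (l j - 1) * f (l - ev j) +
          (A j).b (l j + 1) * f (l + ev j))) * TT A X l k ≤
          ∑ l ∈ B, f l * ∑ j, p j * ((A j).a (l j) * TT A X (l + ev j) k +
            (A j).b (l j) * TT A X (l - ev j) k) := by
        have e1 : ∑ l ∈ B, (∑ j, p j * ((A j).a (l j - 1) * f (l - ev j) +
            (A j).b (l j + 1) * f (l + ev j))) * TT A X l k =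
            ∑ j, p j * ∑ l ∈ B, ((A j).a (l j - 1) * f (l - ev j) +
              (A j).b (l j + 1) * f (l + ev j)) * TT A X l k := by
          simp_rw [sum_mul, mul_sum]
          rw [sum_comm]
          apply sum_congr rfl
          intro j _
          apply sum_congr rfl
          intro k _
          ring
        have e2 : ∑ l ∈ B, f l * ∑ j, p j * ((A j).a (l j) * TT A X (l + ev j) k +
            (A j).b (l j) * TT A X (l - ev j) k) =
            ∑ j, p j * ∑ l ∈ B, f l * ((A j).a (l j) * TT A X (l + ev j) k +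
            (A j).b (l j) * TT A X (l - ev j) k) := by
          simp_rw [mul_sum]
          rw [sum_comm]
          apply sum_congr rfl
          intro j _
          apply sum_congr rfl
          intro k _
          ring
        rw [e1, e2]
        apply sum_le_sum
        intro j _
        exact mul_le_mul_of_nonneg_left (h2 j) (hp j)
      have h6 : ∑ l ∈ B, (lam * f l) * TT A X l k ≤
          ∑ l ∈ B, (∑ j, p j * ((A j).a (l j - 1) * f (l - ev j) +
          (A j).b (l j + 1) * f (l + ev j))) * TT A X l k := by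
        apply sum_le_sum
        intro l hl
        exact mul_le_mul_of_nonneg_right (hev l hl) (hT _)
      have h7 : (lam - s) * (X.card : ℝ) ^ 2 * (f k / HH A k) ≤ ∑ l ∈ B, (lam - s) * f l * TT A X l k := by
        have h8 : (lam - s) * f k * TT A X k k ≤ ∑ l ∈ B, (lam - s) * f l * TT A X l k :=
          single_le_sum (f := fun l => (lam - s) * f l * TT A X l k)
            (fun l _ => mul_nonneg (mul_nonneg (by linarith) (hf l)) (hT _)) hk
        have h9 := TT_diag A X (hBS k hk)
        have h10 : (lam - s) * f k * ((X.card : ℝ) ^ 2 / HH A k) ≤ (lam - s) * f k * TT A X k k :=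
          mul_le_mul_of_nonneg_left h9 (mul_nonneg (by linarith) (hf k))
        calc (lam - s) * (X.card : ℝ) ^ 2 * (f k / HH A k)
            = (lam - s) * f k * ((X.card : ℝ) ^ 2 / HH A k) := by ring
          _ ≤ _ := h10.trans h8
      have h9 : ∑ l ∈ B, f l *
          ((∑ j, p j * ((A j).a (l j) * TT A X (l + ev j) k + (A j).b (l j) * TT A X (l - ev j) k)) -
            s * TT A X l k) =
          ∑ l ∈ B, f l * (∑ j, p j * ((A j).a (l j) * TT A X (l + ev j) k +
            (A j).b (l j) * TT A X (l - ev j) k)) - ∑ l ∈ B, s * f l * TT A X l k := by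
        rw [← sum_sub_distrib]
        apply sum_congr rfl
        intro k _
        ring
      have h10 : ∑ l ∈ B, (lam - s) * f l * TT A X l k =
          ∑ l ∈ B, (lam * f l) * TT A X l k - ∑ l ∈ B, s * f l * TT A X l k := by
        rw [← sum_sub_distrib]
        apply sum_congr rfl
        intro k _
        ring
      rw [h9]
      linarith
    calc (lam - s) * (X.card : ℝ) ^ 2 * ∑ k ∈ B, f k ^ 2 / HH A k
        = ∑ k ∈ B, f k * ((lam - s) * (X.card : ℝ) ^ 2 * (f k / HH A k)) := by
          rw [mul_sum]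
          apply sum_congr rfl
          intro k _
          ring
      _ ≤ _ := by
          apply sum_le_sum
          intro k hk
          exact mul_le_mul_of_nonneg_left (h1 k hk) (hf k)
  exact hlow.trans hup

/-- the bound for the number of points -/
theorem card_le {A : Fin m → Blk α} {X : Finset α} {p : Fin m → ℝ} (hp : ∀ j, 0 ≤ p j)
    (hp1 : ∑ j, p j = 1) {s lam : ℝ} (hX : ∀ x ∈ X, ∀ y ∈ X, x ≠ y → UU A p x y ≤ s)
    {B : Finset (Fin m → ℤ)} (hBS : ∀ k ∈ B, ∀ j, k j ∈ (A j).S)
    {f : (Fin m → ℤ) → ℝ} (hf : ∀ k, 0 ≤ f k) (hB : ∀ k, k ∉ B → f k = 0) (hne : ∃ k, f k ≠ 0)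
    (hev : ∀ k ∈ B, lam * f k ≤ ∑ j, p j * ((A j).a (k j - 1) * f (k - ev j) +
      (A j).b (k j + 1) * f (k + ev j))) (hs : s < lam) (hs1 : s ≤ 1) :
    (lam - s) * X.card ≤ (1 - s) * ∑ k ∈ B, HH A k := by
  rcases X.eq_empty_or_nonempty with rfl | hXn
  · simp only [card_empty, Nat.cast_zero, mul_zero]
    exact mul_nonneg (by linarith) (sum_nonneg fun k _ => (HH_pos A k).le)
  have h1 := basic hp hp1 hX hBS hf hB hev hs.le
  have h2 : (∑ k ∈ B, f k) ^ 2 ≤ (∑ k ∈ B, HH A k) * ∑ k ∈ B, f k ^ 2 / HH A k := by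
    have h3 := sum_mul_sq_le_sq_mul_sq B (fun k => √(HH A k)) (fun k => f k / √(HH A k))
    have e1 : ∑ k ∈ B, √(HH A k) * (f k / √(HH A k)) = ∑ k ∈ B, f k := by
      apply sum_congr rfl
      intro k _
      have := Real.sqrt_pos.2 (HH_pos A k)
      field_simp
    have e2 : ∑ k ∈ B, √(HH A k) ^ 2 = ∑ k ∈ B, HH A k := by
      apply sum_congr rfl
      intro k _
      exact Real.sq_sqrt (HH_pos A k).le
    have e3 : ∑ k ∈ B, (f k / √(HH A k)) ^ 2 = ∑ k ∈ B, f k ^ 2 / HH A k := by
      apply sum_congr rfl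
      intro k _
      rw [div_pow, Real.sq_sqrt (HH_pos A k).le]
    rw [e1, e2, e3] at h3
    exact h3
  have hN : (0 : ℝ) < X.card := by exact_mod_cast hXn.card_pos
  have h3 : 0 < ∑ k ∈ B, f k ^ 2 / HH A k := by
    obtain ⟨k, hk⟩ := hne
    have hkB : k ∈ B := by
      by_contra h
      exact hk (hB k h)
    apply sum_pos' (fun k _ => div_nonneg (sq_nonneg _) (HH_pos A k).le) ⟨k, hkB, ?_⟩
    have := HH_pos A k
    positivity
  have h4 : (lam - s) * (X.card : ℝ) ^ 2 * ∑ k ∈ B, f k ^ 2 / HH A k ≤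
      (1 - s) * X.card * ((∑ k ∈ B, HH A k) * ∑ k ∈ B, f k ^ 2 / HH A k) := by
    refine h1.trans ?_
    apply mul_le_mul_of_nonneg_left h2
    exact mul_nonneg (by linarith) hN.le
  have h5 : ((lam - s) * X.card) * (X.card * ∑ k ∈ B, f k ^ 2 / HH A k) ≤
      ((1 - s) * ∑ k ∈ B, HH A k) * (X.card * ∑ k ∈ B, f k ^ 2 / HH A k) := by
    nlinarith
  exact le_of_mul_le_mul_right h5 (mul_pos hN h3)

end Pool.Agent.H58.BL
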