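import Pool.Agent.H58.BL.Gen

/-!
# Orbits of groups with an exceptional invariant subspace of small dimension
-/

set_option autoImplicit false

open Finset Module Filter Topology

namespace Pool.Agent.H58.BL

/-- decomposition of the orthogonal complement of an invariant subspace -/
lemma dec_exc {n : ℕ} (G : Subgroup (EuclideanSpace ℝ (Fin n) ≃ₗᵢ[ℝ] EuclideanSpace ℝ (Fin n)))
    {U : Submodule ℝ (EuclideanSpace ℝ (Fin n))} (hU : AG.Inv G U) :
    ∃ (m : ℕ) (W : Fin m → Submodule ℝ (EuclideanSpace ℝ (Fin n))), (∀ j, AG.IsMin G (W j)) ∧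
      (∀ j, W j ≤ Uᗮ) ∧ ∑ j, finrank ℝ (W j) ≤ n ∧
      (∀ x, ‖U.starProjection x‖ ^ 2 + ∑ j, ‖(W j).starProjection x‖ ^ 2 = ‖x‖ ^ 2) ∧
      ∀ x y, inner ℝ (U.starProjection x) (U.starProjection y) +
        ∑ j, inner ℝ ((W j).starProjection x) ((W j).starProjection y) = (inner ℝ x y : ℝ) := by
  obtain ⟨m, W, h1, h2, h3, h4⟩ := Pool.Agent.H695.BL.exists_dec G (finrank ℝ (Uᗮ : Submodule ℝ _))
    Uᗮ (AG.inv_orthogonal hU) rfl
  have hle : ∑ j, finrank ℝ (W j) ≤ n := by
    rw [h3]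
    refine (Submodule.finrank_le _).trans ?_
    rw [finrank_euclideanSpace, Fintype.card_fin]
  have h5 : ∀ x, ‖U.starProjection x‖ ^ 2 + ∑ j, ‖(W j).starProjection x‖ ^ 2 = ‖x‖ ^ 2 := by
    intro x
    have hsub : x - U.starProjection x ∈ Uᗮ := Submodule.sub_starProjection_mem_orthogonal x
    have h6 : ∀ j, (W j).starProjection (x - U.starProjection x) = (W j).starProjection x := by
      intro j
      rw [map_sub]
      have h7 : (W j).starProjection (U.starProjection x) = 0 := by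
        rw [Submodule.starProjection_apply, Submodule.coe_eq_zero]
        apply Submodule.orthogonalProjectionOnto_apply_of_mem_orthogonal
        rw [Submodule.mem_orthogonal]
        intro y hy
        exact Submodule.inner_left_of_mem_orthogonal (Submodule.starProjection_apply_mem U x)
          (h2 j hy)
      rw [h7, sub_zero]
    have h8 : ∑ j, ‖(W j).starProjection (x - U.starProjection x)‖ ^ 2 =
        ‖x - U.starProjection x‖ ^ 2 := h4 _ hsub
    simp only [h6] at h8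
    rw [h8]
    have h9 : inner ℝ (U.starProjection x) (x - U.starProjection x) = (0 : ℝ) :=
      Submodule.inner_right_of_mem_orthogonal (Submodule.starProjection_apply_mem U x) hsub
    have h10 := norm_add_sq_real (U.starProjection x) (x - U.starProjection x)
    rw [h9, add_sub_cancel] at h10
    linarith
  refine ⟨m, W, h1, h2, hle, h5, ?_⟩
  intro x y
  have e0 : ∀ V : Submodule ℝ (EuclideanSpace ℝ (Fin n)),
      inner ℝ (V.starProjection x) (V.starProjection y) =
      (‖V.starProjection (x + y)‖ ^ 2 - ‖V.starProjection x‖ ^ 2 -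
        ‖V.starProjection y‖ ^ 2) / 2 := by
    intro V
    rw [map_add, norm_add_sq_real]
    ring
  simp_rw [e0]
  rw [← sum_div, sum_sub_distrib, sum_sub_distrib]
  have a1 := h5 (x + y)
  have a2 := h5 x
  have a3 := h5 y
  have a4 := norm_add_sq_real x y
  linarith

/-- **the bound for one orbit, with an exceptional subspace** -/
theorem orbit_bound_exc (per : S_PER) {s σ e : ℝ} (hs0 : 0 ≤ s) (hs1 : s + e ^ 2 / 2 ≤ 1)
    (hσ : s + e ^ 2 / 2 < σ) {D : ℕ}
    (hD : 1 ≤ D) {C : ℕ → ℝ} (data : ∀ d : ℕ, 1 ≤ d → d ≤ D →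
      ∃ (L : ℕ) (q : ℕ → ℝ), KernOK d L ∧ NumG σ d L q (C d)) {c : ℝ} (hc : 0 ≤ c) {ε : ℝ}
    (hε : 0 < ε) :
    ∃ K0 : ℝ, 0 < K0 ∧ ∀ (n : ℕ)
      (G : Subgroup (EuclideanSpace ℝ (Fin n) ≃ₗᵢ[ℝ] EuclideanSpace ℝ (Fin n)))
      (U : Submodule ℝ (EuclideanSpace ℝ (Fin n))), AG.Inv G U →
      (∀ V, AG.IsMin G V → V ≤ Uᗮ → ∀ x0, ∃ N δ : ℕ, 1 ≤ δ ∧ δ ≤ D ∧
        Real.logb 2 N + C δ ≤ c * finrank ℝ V ∧ Loc G V x0 N δ) →
      ∀ (M : ℕ) (κ : EuclideanSpace ℝ (Fin n) → Fin M),
      (∀ x ∈ U, ∀ y ∈ U, ‖x‖ ≤ 1 → ‖y‖ ≤ 1 → κ x = κ y → ‖x - y‖ ≤ e) →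
      ∀ (X : Finset (EuclideanSpace ℝ (Fin n))) (x0 : EuclideanSpace ℝ (Fin n)),
      (∀ x ∈ X, ∃ g ∈ G, x = g x0) → (∀ x ∈ X, ‖x‖ = 1) →
      (∀ x ∈ X, ∀ y ∈ X, x ≠ y → inner ℝ x y ≤ s) →
      (X.card : ℝ) ≤ M * (K0 * 2 ^ ((c + ε) * n)) := by
  classical
  obtain ⟨K0, hK0, hbt⟩ := bt_gen per (s := s + e ^ 2 / 2) (by positivity) hs1 hσ hD data hε
  refine ⟨K0 * 2 ^ (C 1 + ε), by positivity, ?_⟩
  intro n G U hU hloc M κ hκ X x0 hX hX1 hX2
  rcases X.eq_empty_or_nonempty with rfl | ⟨xx, hxx⟩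
  · simp only [card_empty, Nat.cast_zero]
    positivity
  have hx0 : ‖x0‖ = 1 := by
    obtain ⟨g, _, hg⟩ := hX xx hxx
    rw [← hX1 xx hxx, hg, LinearIsometryEquiv.norm_map]
  obtain ⟨m, W, hW, hWU, hn, hsq, hin⟩ := dec_exc G hU
  choose N δ h1 h16 hcost l v hlv using fun j => hloc (W j) (hW j) (hWU j) x0
  have hNpos : ∀ j, 0 < N j := fun j => Fin.pos (l j x0)
  have hPU : ∀ g ∈ G, ‖U.starProjection (g x0)‖ = ‖U.starProjection x0‖ := by
    intro g hg
    have : U.starProjection (g x0) = g (U.starProjection x0) := by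
      rw [Submodule.starProjection_apply, Submodule.starProjection_apply]
      exact Pool.Agent.H695.BL.proj_comm hU g hg x0
    rw [this, LinearIsometryEquiv.norm_map]
  -- the classes
  have hcl : ∀ (k : Fin M) (lam : ∀ j, Fin (N j)),
      (((univ : Finset {x // x ∈ X}).filter (fun x => κ (U.starProjection x.1) = k ∧
        ∀ j, l j x.1 = lam j)).card : ℝ) ≤
        K0 * 2 ^ ((C 1 + ε) + ∑ j, (C (δ j) + ε)) := by
    intro k lam
    have hb := hbt {x // x ∈ X} ((univ : Finset {x // x ∈ X}).filter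
      (fun x => κ (U.starProjection x.1) = k ∧ ∀ j, l j x.1 = lam j)) (m + 1)
      (Fin.cons 1 δ) (fun j => Fin.cases ⟨le_rfl, hD⟩ (fun j => ⟨h1 j, h16 j⟩) j)
      (fun j => Fin.cases (motive := fun j => {x // x ∈ X} → Fin ((Fin.cons 1 δ : Fin (m + 1) → ℕ) j) → ℝ)
        (fun _ _ => 1) (fun j x => v j x.1) j) ?_
      (fun j => Fin.cases (‖U.starProjection x0‖ ^ 2) (fun j => ‖(W j).starProjection x0‖ ^ 2) j)
      ?_ ?_ ?_
    · rw [Fin.sum_univ_succ] at hb
      exact hb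
    · intro j x
      refine Fin.cases ?_ (fun j => ?_) j
      · change dt (fun _ : Fin 1 => (1 : ℝ)) (fun _ => 1) = 1
        simp [dt]
      · change dt (v j x.1) (v j x.1) = 1
        obtain ⟨g, hg, hgx⟩ := hX x x.2
        rw [hgx]
        exact (hlv j g hg g hg).1
    · intro j
      refine Fin.cases ?_ (fun j => ?_) j
      · exact sq_nonneg _
      · exact sq_nonneg _
    · rw [Fin.sum_univ_succ]
      change ‖U.starProjection x0‖ ^ 2 + ∑ j, ‖(W j).starProjection x0‖ ^ 2 = 1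
      rw [hsq, hx0, one_pow]
    · intro x hx y hy hxy
      rw [mem_filter] at hx hy
      obtain ⟨g, hg, hgx⟩ := hX x x.2
      obtain ⟨h, hh, hhy⟩ := hX y y.2
      rw [Fin.sum_univ_succ]
      change ‖U.starProjection x0‖ ^ 2 * dt (fun _ : Fin 1 => (1 : ℝ)) (fun _ => 1) +
        ∑ j, ‖(W j).starProjection x0‖ ^ 2 * dt (v j x.1) (v j y.1) ≤ s + e ^ 2 / 2
      have e0 : dt (fun _ : Fin 1 => (1 : ℝ)) (fun _ => 1) = 1 := by simp [dt]
      have e1 : ∀ j, ‖(W j).starProjection x0‖ ^ 2 * dt (v j x.1) (v j y.1) =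
          inner ℝ ((W j).starProjection x.1) ((W j).starProjection y.1) := by
        intro j
        have h2 : l j (g x0) = l j (h x0) := by
          rw [← hgx, ← hhy, hx.2.2 j, hy.2.2 j]
        rw [hgx, hhy]
        exact ((hlv j g hg h hh).2 h2).symm
      rw [sum_congr rfl (fun j _ => e1 j), e0, mul_one]
      have e2 := hin x.1 y.1
      have e3 := hX2 x.1 x.2 y.1 y.2 (fun h => hxy (Subtype.ext h))
      have nx : ‖U.starProjection x.1‖ = ‖U.starProjection x0‖ := by rw [hgx, hPU g hg]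
      have ny : ‖U.starProjection y.1‖ = ‖U.starProjection x0‖ := by rw [hhy, hPU h hh]
      have n1 : ‖U.starProjection x0‖ ≤ 1 := by
        have h3 := hsq x0
        rw [hx0] at h3
        have h4 : 0 ≤ ∑ j, ‖(W j).starProjection x0‖ ^ 2 := sum_nonneg fun j _ => sq_nonneg _
        nlinarith [norm_nonneg (U.starProjection x0)]
      have e4 := hκ _ (Submodule.starProjection_apply_mem U x.1) _
        (Submodule.starProjection_apply_mem U y.1) (by rw [nx]; exact n1) (by rw [ny]; exact n1)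
        (by rw [hx.2.1, hy.2.1])
      have e5 := norm_sub_sq_real (U.starProjection x.1) (U.starProjection y.1)
      have e6 : ‖U.starProjection x.1 - U.starProjection y.1‖ ^ 2 ≤ e ^ 2 :=
        pow_le_pow_left₀ (norm_nonneg _) e4 2
      rw [nx, ny] at e5
      linarith
  have hcard : (X.card : ℝ) ≤ (M * ∏ j, (N j : ℝ)) *
      (K0 * 2 ^ ((C 1 + ε) + ∑ j, (C (δ j) + ε))) := by
    have e1 : X.card = ∑ kl : Fin M × (∀ j, Fin (N j)),
        ((univ : Finset {x // x ∈ X}).filter (fun x => κ (U.starProjection x.1) = kl.1 ∧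
          ∀ j, l j x.1 = kl.2 j)).card := by
      have e2 := Finset.card_eq_sum_card_fiberwise
        (f := fun x : {x // x ∈ X} => (κ (U.starProjection x.1), (fun j => l j x.1)))
        (s := (univ : Finset {x // x ∈ X})) (t := (univ : Finset (Fin M × (∀ j, Fin (N j)))))
        (fun _ _ => mem_univ _)
      rw [card_univ, Fintype.card_coe] at e2
      rw [e2]
      apply sum_congr rfl
      intro kl _
      congr 1
      ext x
      simp only [mem_filter, mem_univ, true_and, Prod.ext_iff, funext_iff]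
    rw [e1]
    push_cast
    calc ∑ kl : Fin M × (∀ j, Fin (N j)),
        (((univ : Finset {x // x ∈ X}).filter (fun x => κ (U.starProjection x.1) = kl.1 ∧
          ∀ j, l j x.1 = kl.2 j)).card : ℝ) ≤
        ∑ _kl : Fin M × (∀ j, Fin (N j)), K0 * 2 ^ ((C 1 + ε) + ∑ j, (C (δ j) + ε)) :=
          sum_le_sum fun kl _ => hcl kl.1 kl.2
      _ = (M * ∏ j, (N j : ℝ)) * (K0 * 2 ^ ((C 1 + ε) + ∑ j, (C (δ j) + ε))) := by
        rw [sum_const, card_univ, Fintype.card_prod, Fintype.card_pi, nsmul_eq_mul]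
        simp only [Fintype.card_fin]
        push_cast
        rfl
  refine hcard.trans ?_
  have e3 : ∏ j, (N j : ℝ) = 2 ^ (∑ j, Real.logb 2 (N j)) := by
    rw [Real.rpow_sum_of_pos two_pos]
    apply prod_congr rfl
    intro j _
    rw [Real.rpow_logb two_pos (by norm_num) (by exact_mod_cast hNpos j)]
  have e4 : ∑ j, Real.logb 2 (N j) + ∑ j, (C (δ j) + ε) ≤ (c + ε) * n := by
    rw [← sum_add_distrib]
    calc ∑ j, (Real.logb 2 (N j) + (C (δ j) + ε)) ≤ ∑ j, (c + ε) * (finrank ℝ (W j) : ℝ) := by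
          apply sum_le_sum
          intro j _
          have h2 : (1 : ℝ) ≤ finrank ℝ (W j) := by exact_mod_cast IsMin.pos (hW j)
          have h3 := hcost j
          nlinarith
      _ = (c + ε) * (∑ j, finrank ℝ (W j) : ℕ) := by
          rw [← mul_sum]
          push_cast
          rfl
      _ ≤ (c + ε) * n := by
          apply mul_le_mul_of_nonneg_left _ (by linarith)
          exact_mod_cast hn
  rw [e3, mul_assoc]
  apply mul_le_mul_of_nonneg_left _ (Nat.cast_nonneg M)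
  calc (2 : ℝ) ^ (∑ j, Real.logb 2 (N j)) * (K0 * 2 ^ ((C 1 + ε) + ∑ j, (C (δ j) + ε))) =
      K0 * 2 ^ (C 1 + ε) * 2 ^ (∑ j, Real.logb 2 (N j) + ∑ j, (C (δ j) + ε)) := by
        rw [Real.rpow_add two_pos (C 1 + ε), Real.rpow_add two_pos (∑ j, Real.logb 2 (N j))]
        ring
    _ ≤ K0 * 2 ^ (C 1 + ε) * 2 ^ ((c + ε) * n) := by
        apply mul_le_mul_of_nonneg_left _ (by positivity)
        exact Real.rpow_le_rpow_of_exponent_le one_le_two e4

end Pool.Agent.H58.BL
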