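import Mathlib

/-!
# Project BL, fifth part: nets
-/

set_option autoImplicit false

open Module

namespace Pool.Agent.H58.BL

/-- NET. Labels of the points of the unit ball of a subspace `U` with at most `A ^ dim U` values, `A`
depending only on `δ`, such that points with the same label have distance at most `δ`. Proof: a
maximal set `N` of points of the unit ball of `U` with mutual distances `≥ δ / 2` has at most
`A ^ dim U` points by the volume argument (`A = 1 + 4 / δ`; or, from
`Besicovitch.card_le_of_separated` (at most `5 ^ dim` points of norm `≤ 2` with mutual distances `≥ 1`),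
by iteration: the unit ball is covered by `5 ^ k` balls of radius `1 / 2`, so by `5 ^ (k t)` balls of
radius `2 ^ (-t)`, `A = 5 ^ t`). Label: a point of `N` at distance less than `δ / 2`. -/
def S_NET : Prop := ∀ δ : ℝ, 0 < δ → ∃ A : ℝ, 1 ≤ A ∧ ∀ (n : ℕ)
  (U : Submodule ℝ (EuclideanSpace ℝ (Fin n))),
  ∃ (M : ℕ) (κ : EuclideanSpace ℝ (Fin n) → Fin M), (M : ℝ) ≤ A ^ finrank ℝ U ∧
    ∀ x ∈ U, ∀ y ∈ U, ‖x‖ ≤ 1 → ‖y‖ ≤ 1 → κ x = κ y → ‖x - y‖ ≤ δ

end Pool.Agent.H58.BL
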