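import Pool.Agent.H58.BL.Exc
import Pool.Agent.H58.BL.Stm5

/-!
# Orbits of groups with an exceptional invariant subspace of small dimension: asymptotic form
-/

set_option autoImplicit false

open Finset Module Filter Topology

namespace Pool.Agent.H58.BL

/-- the bound in one orbit, asymptotic form, with an exceptional subspace -/
theorem orbit_asym_exc (net : S_NET) {s σ : ℝ} (hs0 : 0 ≤ s) (hs1 : s < 1) (hσ : s < σ) {D : ℕ}
    (hD : 1 ≤ D) {C : ℕ → ℝ} (data : ∀ d : ℕ, 1 ≤ d → d ≤ D →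
      ∃ (L : ℕ) (q : ℕ → ℝ), KernOK d L ∧ NumG σ d L q (C d))
    {c : ℝ} (hc0 : 0 ≤ c) {c' : ℝ} (hc : c < c') : ∃ η : ℝ, 0 < η ∧ ∀ᶠ n : ℕ in atTop,
    ∀ (G : Subgroup (EuclideanSpace ℝ (Fin n) ≃ₗᵢ[ℝ] EuclideanSpace ℝ (Fin n)))
      (U : Submodule ℝ (EuclideanSpace ℝ (Fin n))), AG.Inv G U → (finrank ℝ U : ℝ) ≤ η * n →
      (∀ V, AG.IsMin G V → V ≤ Uᗮ → ∀ x0, ∃ N δ : ℕ, 1 ≤ δ ∧ δ ≤ D ∧
        Real.logb 2 N + C δ ≤ c * finrank ℝ V ∧ Loc G V x0 N δ) →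
      ∀ (X : Finset (EuclideanSpace ℝ (Fin n))) (x0 : EuclideanSpace ℝ (Fin n)),
      (∀ x ∈ X, ∃ g ∈ G, x = g x0) → (∀ x ∈ X, ‖x‖ = 1) →
      (∀ x ∈ X, ∀ y ∈ X, x ≠ y → inner ℝ x y ≤ s) →
      (X.card : ℝ) ≤ 2 ^ (c' * n) := by
  set t : ℝ := min σ 1 with ht
  have hst : s < t := lt_min hσ hs1
  have ht1 : t ≤ 1 := min_le_right _ _
  have htσ : t ≤ σ := min_le_left _ _
  have he2 : √(t - s) ^ 2 = t - s := Real.sq_sqrt (by linarith)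
  have he : 0 < √(t - s) := Real.sqrt_pos.2 (by linarith)
  obtain ⟨A, hA1, hnet⟩ := net (√(t - s)) he
  set ε : ℝ := (c' - c) / 4 with hε
  have hε0 : 0 < ε := by rw [hε]; linarith
  obtain ⟨K0, hK0, hb⟩ := orbit_bound_exc Pool.Agent.H25.BL.t_per (s := s) (σ := σ)
    (e := √(t - s)) hs0 (by rw [he2]; linarith) (by rw [he2]; linarith) hD data hc0 hε0
  have hlog : 0 ≤ Real.logb 2 A := Real.logb_nonneg one_lt_two hA1
  refine ⟨ε / (Real.logb 2 A + 1), by positivity, ?_⟩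
  filter_upwards [absorb hK0 (show c + 2 * ε < c' by rw [hε]; linarith)] with n hn
  intro G U hU hUd hloc X x0 h2 h3 h4
  obtain ⟨M, κ, hM, hκ⟩ := hnet n U
  have h5 := hb n G U hU hloc M κ hκ X x0 h2 h3 h4
  have h6 : (M : ℝ) ≤ 2 ^ (ε * n) := by
    refine hM.trans ?_
    rw [← Real.logb_le_iff_le_rpow one_lt_two (by positivity), Real.logb_pow]
    calc (finrank ℝ U : ℝ) * Real.logb 2 A ≤ (ε / (Real.logb 2 A + 1) * n) * Real.logb 2 A :=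
          mul_le_mul_of_nonneg_right hUd hlog
      _ = (ε * n) * (Real.logb 2 A / (Real.logb 2 A + 1)) := by ring
      _ ≤ (ε * n) * 1 := by
          apply mul_le_mul_of_nonneg_left _ (by positivity)
          rw [div_le_one (by linarith)]
          linarith
      _ = ε * n := mul_one _
  calc (X.card : ℝ) ≤ M * (K0 * 2 ^ ((c + ε) * n)) := h5
    _ ≤ 2 ^ (ε * n) * (K0 * 2 ^ ((c + ε) * n)) := mul_le_mul_of_nonneg_right h6 (by positivity)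
    _ = K0 * 2 ^ ((c + 2 * ε) * n) := by
        rw [mul_left_comm, ← Real.rpow_add two_pos]
        congr 2
        ring
    _ ≤ _ := hn

/-- each constituent orthogonal to `U` has dimension at most `D` or a small number of cosets of the
centre -/
def TameE (D : ℕ) (C : ℝ) {n : ℕ}
    (G : Subgroup (EuclideanSpace ℝ (Fin n) ≃ₗᵢ[ℝ] EuclideanSpace ℝ (Fin n)))
    (U : Submodule ℝ (EuclideanSpace ℝ (Fin n))) : Prop :=
  ∀ V, AG.IsMin G V → V ≤ Uᗮ → finrank ℝ V ≤ D ∨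
    ∃ S : Finset (EuclideanSpace ℝ (Fin n) ≃ₗᵢ[ℝ] EuclideanSpace ℝ (Fin n)),
      (S.card : ℝ) ≤ 2 ^ (C * ((finrank ℝ V : ℝ) - 2)) ∧ ∀ g ∈ G, ∃ t ∈ S, t⁻¹ * g ∈ NV G V

/-- **the general bound in one orbit, with an exceptional subspace** -/
theorem gen_exc (net : S_NET) {s : ℝ} (hs0 : 0 ≤ s) (hs1 : s < 1) {D : ℕ} (hD : 2 ≤ D) {C : ℝ}
    (hC : 0 ≤ C) (hA : ∀ d : ℕ, 1 ≤ d → d ≤ D → Adm s d C) {c' : ℝ} (hc : C < c') :
    ∃ η : ℝ, 0 < η ∧ ∀ᶠ n : ℕ in atTop,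
    ∀ (G : Subgroup (EuclideanSpace ℝ (Fin n) ≃ₗᵢ[ℝ] EuclideanSpace ℝ (Fin n)))
      (U : Submodule ℝ (EuclideanSpace ℝ (Fin n))), AG.Inv G U → (finrank ℝ U : ℝ) ≤ η * n →
      TameE D C G U →
      ∀ (X : Finset (EuclideanSpace ℝ (Fin n))) (x0 : EuclideanSpace ℝ (Fin n)),
      (∀ x ∈ X, ∃ g ∈ G, x = g x0) → (∀ x ∈ X, ‖x‖ = 1) →
      (∀ x ∈ X, ∀ y ∈ X, x ≠ y → inner ℝ x y ≤ s) →
      (X.card : ℝ) ≤ 2 ^ (c' * n) := by
  obtain ⟨σ, hσ, hdata⟩ := Adm.data hs0 (show 1 ≤ D by omega) hA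
  obtain ⟨η, hη, h⟩ := orbit_asym_exc net hs0 hs1 hσ (show 1 ≤ D by omega) (C := fun d => C * d)
    hdata hC hc
  refine ⟨η, hη, ?_⟩
  filter_upwards [h] with n hn G U hU hUd hG
  apply hn G U hU hUd
  intro V hV hVU x0
  rcases hG V hV hVU with h | ⟨S, hS, hrep⟩
  · exact ⟨1, finrank ℝ V, IsMin.pos hV, h, by simp, Pool.Agent.H277.BL.t_locd n G V hV x0⟩
  · have hB : 0 < S.card := by
      obtain ⟨t, ht, -⟩ := hrep 1 G.one_mem
      exact Finset.card_pos.2 ⟨t, ht⟩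
    have hlog : Real.logb 2 (S.card : ℝ) ≤ C * ((finrank ℝ V : ℝ) - 2) := by
      rw [Real.logb_le_iff_le_rpow one_lt_two (by exact_mod_cast hB)]
      exact hS
    rcases Pool.Agent.H686.BL.t_str n G V hV with hR | ⟨J, hJ⟩
    · refine ⟨S.card, 1, le_rfl, by omega, ?_, loc_real hV hR le_rfl hrep x0⟩
      push_cast
      nlinarith
    · refine ⟨S.card, 2, by norm_num, hD, ?_, loc_complex hV hJ hB le_rfl hrep x0⟩
      push_cast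
      nlinarith

/-- kissing configurations in one orbit, small constituents -/
theorem small_exc (net : S_NET) {D : ℕ} {c c' : ℝ} (hD : D ≤ 20) (hc0 : 0 ≤ c)
    (hc : ∀ d : ℕ, 1 ≤ d → d ≤ D → Cd d ≤ c * d) (hcc : c < c') :
    ∃ η : ℝ, 0 < η ∧ ∀ᶠ n : ℕ in atTop,
    ∀ (G : Subgroup (EuclideanSpace ℝ (Fin n) ≃ₗᵢ[ℝ] EuclideanSpace ℝ (Fin n)))
      (U : Submodule ℝ (EuclideanSpace ℝ (Fin n))), AG.Inv G U → (finrank ℝ U : ℝ) ≤ η * n →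
      (∀ V, AG.IsMin G V → V ≤ Uᗮ → finrank ℝ V ≤ D) →
      ∀ (X : Finset (EuclideanSpace ℝ (Fin n))) (x0 : EuclideanSpace ℝ (Fin n)),
      (∀ x ∈ X, ∃ g ∈ G, x = g x0) → (∀ x ∈ X, ‖x‖ = 1) →
      (∀ x ∈ X, ∀ y ∈ X, x ≠ y → inner ℝ x y ≤ (1 / 2 : ℝ)) →
      (X.card : ℝ) ≤ 2 ^ (c' * n) := by
  obtain ⟨η, hη, h⟩ := orbit_asym_exc net (s := 1 / 2) (σ := 0.500001) (by norm_num) (by norm_num)
    (by norm_num) (D := 20) (by norm_num) (data Pool.Agent.H630.BL.t_geg) hc0 hcc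
  refine ⟨η, hη, ?_⟩
  filter_upwards [h] with n hn G U hU hUd hG
  apply hn G U hU hUd
  intro V hV hVU x0
  exact loc_small hV ((hG V hV hVU).trans hD) (hc _ (IsMin.pos hV) (hG V hV hVU)) x0

end Pool.Agent.H58.BL
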