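import Pool.Agent.H58.BL.Orb
import Pool.Agent.H25.BL.PER
import Pool.Agent.H630.BL.Geg
import Pool.Agent.H79.BL.Pow
import Pool.Agent.H871.BL.Besr
import Pool.Agent.H686.BL.Str
import Pool.Agent.H588.BL.Bes
import Pool.Agent.H277.BL.Locd
import Pool.Agent.H864.BL.Locr
import Pool.Agent.H548.BL.Locc
import Pool.Agent.H930.BL.Bits

/-!
# Kissing configurations in the orbits of groups with small constituents, and of nilpotent groups of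
class at most 2
-/

set_option autoImplicit false

open Finset Module Filter

namespace Pool.Agent.H58.BL

lemma absorb {K0 a b : ℝ} (hK0 : 0 < K0) (hab : a < b) :
    ∀ᶠ n : ℕ in atTop, K0 * 2 ^ (a * (n : ℝ)) ≤ (2 : ℝ) ^ (b * (n : ℝ)) := by
  have h1 : Tendsto (fun n : ℕ => (b - a) * (n : ℝ)) atTop atTop :=
    tendsto_natCast_atTop_atTop.const_mul_atTop (sub_pos.2 hab)
  filter_upwards [h1.eventually_ge_atTop (Real.logb 2 K0)] with n hn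
  have h2 : K0 ≤ 2 ^ ((b - a) * (n : ℝ)) := by
    rw [← Real.logb_le_iff_le_rpow one_lt_two hK0]
    exact hn
  calc K0 * 2 ^ (a * (n : ℝ)) ≤ 2 ^ ((b - a) * (n : ℝ)) * 2 ^ (a * (n : ℝ)) := by gcongr
    _ = 2 ^ (b * (n : ℝ)) := by
      rw [← Real.rpow_add two_pos]
      congr 1
      ring

/-- the bound in one orbit, asymptotic form -/
theorem orbit_asym_gen {s σ : ℝ} (hs0 : 0 ≤ s) (hs1 : s ≤ 1) (hσ : s < σ) {D : ℕ}
    (hD : 1 ≤ D) {C : ℕ → ℝ} (data : ∀ d : ℕ, 1 ≤ d → d ≤ D →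
      ∃ (L : ℕ) (q : ℕ → ℝ), KernOK d L ∧ NumG σ d L q (C d))
    (c : ℝ) {c' : ℝ} (hc : c < c') : ∀ᶠ n : ℕ in atTop,
    ∀ G : Subgroup (EuclideanSpace ℝ (Fin n) ≃ₗᵢ[ℝ] EuclideanSpace ℝ (Fin n)),
      (∀ V, AG.IsMin G V → ∀ x0, ∃ N δ : ℕ, 1 ≤ δ ∧ δ ≤ D ∧
        Real.logb 2 N + C δ ≤ c * finrank ℝ V ∧ Loc G V x0 N δ) →
      ∀ (X : Finset (EuclideanSpace ℝ (Fin n))) (x0 : EuclideanSpace ℝ (Fin n)),
      (∀ x ∈ X, ∃ g ∈ G, x = g x0) → (∀ x ∈ X, ‖x‖ = 1) →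
      (∀ x ∈ X, ∀ y ∈ X, x ≠ y → inner ℝ x y ≤ s) →
      (X.card : ℝ) ≤ 2 ^ (c' * n) := by
  obtain ⟨K0, hK0, h⟩ := orbit_bound Pool.Agent.H25.BL.t_per hs0 hs1 hσ hD data c
    (ε := (c' - c) / 2) (by linarith)
  filter_upwards [absorb hK0 (show c + (c' - c) / 2 < c' by linarith)] with n hn
  intro G h1 X x0 h2 h3 h4
  exact (h n G h1 X x0 h2 h3 h4).trans hn

/-- kissing configurations in one orbit -/
theorem orbit_asym (c : ℝ) {c' : ℝ} (hc : c < c') : ∀ᶠ n : ℕ in atTop,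
    ∀ G : Subgroup (EuclideanSpace ℝ (Fin n) ≃ₗᵢ[ℝ] EuclideanSpace ℝ (Fin n)),
      (∀ V, AG.IsMin G V → ∀ x0, ∃ N δ : ℕ, 1 ≤ δ ∧ δ ≤ 20 ∧
        Real.logb 2 N + Cd δ ≤ c * finrank ℝ V ∧ Loc G V x0 N δ) →
      ∀ (X : Finset (EuclideanSpace ℝ (Fin n))) (x0 : EuclideanSpace ℝ (Fin n)),
      (∀ x ∈ X, ∃ g ∈ G, x = g x0) → (∀ x ∈ X, ‖x‖ = 1) →
      (∀ x ∈ X, ∀ y ∈ X, x ≠ y → inner ℝ x y ≤ (1 / 2 : ℝ)) →
      (X.card : ℝ) ≤ 2 ^ (c' * n) :=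
  orbit_asym_gen (s := 1 / 2) (σ := 0.500001) (by norm_num) (by norm_num) (by norm_num) (D := 20)
    (by norm_num) (data Pool.Agent.H630.BL.t_geg) c hc

/-- small constituents -/
lemma loc_small {n : ℕ} {G : Subgroup (EuclideanSpace ℝ (Fin n) ≃ₗᵢ[ℝ] EuclideanSpace ℝ (Fin n))}
    {V : Submodule ℝ (EuclideanSpace ℝ (Fin n))} (hV : AG.IsMin G V) {c : ℝ}
    (h16 : finrank ℝ V ≤ 20) (hc : Cd (finrank ℝ V) ≤ c * finrank ℝ V)
    (x0 : EuclideanSpace ℝ (Fin n)) : ∃ N δ : ℕ, 1 ≤ δ ∧ δ ≤ 20 ∧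
        Real.logb 2 N + Cd δ ≤ c * finrank ℝ V ∧ Loc G V x0 N δ :=
  ⟨1, finrank ℝ V, IsMin.pos hV, h16, by simpa using hc, Pool.Agent.H277.BL.t_locd n G V hV x0⟩

/-- nilpotent groups of class at most 2 -/
lemma loc_class2 {n : ℕ} {G : Subgroup (EuclideanSpace ℝ (Fin n) ≃ₗᵢ[ℝ] EuclideanSpace ℝ (Fin n))}
    (hG : Class2 G) {V : Submodule ℝ (EuclideanSpace ℝ (Fin n))} (hV : AG.IsMin G V)
    (x0 : EuclideanSpace ℝ (Fin n)) : ∃ N δ : ℕ, 1 ≤ δ ∧ δ ≤ 20 ∧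
        Real.logb 2 N + Cd δ ≤ 0.39478 * finrank ℝ V ∧ Loc G V x0 N δ := by
  by_cases h16 : finrank ℝ V ≤ 16
  · apply loc_small hV (h16.trans (by norm_num))
    generalize finrank ℝ V = d at h16
    interval_cases d <;> norm_num [Cd]
  push Not at h16
  rcases Pool.Agent.H686.BL.t_str n G V hV with hR | ⟨J, hJ⟩
  · obtain ⟨r, hr⟩ := Pool.Agent.H79.BL.t_pow Pool.Agent.H871.BL.t_besr n G V hV hG hR
    have hr5 : 5 ≤ r := by
      by_contra h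
      have h2 : r ≤ 4 := by omega
      have := Nat.pow_le_pow_right (show 0 < 2 by norm_num) h2
      omega
    refine ⟨finrank ℝ V ^ 2, 1, le_rfl, by norm_num, ?_,
      Pool.Agent.H864.BL.t_locr Pool.Agent.H871.BL.t_besr n G V hV hG hR x0⟩
    rw [hr]
    have h3 := Pool.Agent.H930.BL.t_bits.1 r hr5
    have h4 : Cd 1 = 0.36518 := by norm_num [Cd]
    rw [h4]
    exact h3
  · obtain ⟨e, he, hl⟩ := Pool.Agent.H548.BL.t_locc Pool.Agent.H588.BL.t_besc n G V J hV hG hJ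
    refine ⟨e ^ 2, 2, by norm_num, by norm_num, ?_, hl x0⟩
    rw [he]
    have h3 := Pool.Agent.H930.BL.t_bits.2 e (by omega)
    have h4 : Cd 2 = 0.73036 := by norm_num [Cd]
    rw [h4]
    exact h3

end Pool.Agent.H58.BL
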