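import Pool.Agent.H58.BL.Fin

/-!
# The general bound: all angles, groups with small constituents or small central quotients
-/

set_option autoImplicit false

open Finset Module Filter

namespace Pool.Agent.H58.BL

/-- classes modulo the centre, real case (proof of helper864) -/
lemma loc_real {n : ℕ} {G : Subgroup (EuclideanSpace ℝ (Fin n) ≃ₗᵢ[ℝ] EuclideanSpace ℝ (Fin n))}
    {V : Submodule ℝ (EuclideanSpace ℝ (Fin n))} (hmin : AG.IsMin G V) (hreal : RealCase G V)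
    {B : ℕ} {S : Finset (EuclideanSpace ℝ (Fin n) ≃ₗᵢ[ℝ] EuclideanSpace ℝ (Fin n))}
    (hS : S.card ≤ B) (hrep : ∀ g ∈ G, ∃ s ∈ S, s⁻¹ * g ∈ NV G V)
    (x0 : EuclideanSpace ℝ (Fin n)) : Loc G V x0 B 1 := by
  classical
  have hP : ∀ g ∈ G, V.starProjection (g x0) = g (V.starProjection x0) := by
    intro g hg
    rw [Submodule.starProjection_apply, Submodule.starProjection_apply]
    exact Pool.Agent.H695.BL.proj_comm hmin.1 g hg x0
  have hwV : V.starProjection x0 ∈ V := by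
    rw [Submodule.starProjection_apply]
    exact (V.orthogonalProjectionOnto x0).2
  set w := V.starProjection x0 with hw
  have H : ∀ g ∈ G, ∃ s : S, ∃ σ : ℝ, σ * σ = 1 ∧
      V.starProjection (g x0) = σ • (s : _ ≃ₗᵢ[ℝ] _) w := by
    intro g hg
    obtain ⟨s, hs, hsg⟩ := hrep g hg
    rw [hP g hg]
    rcases hreal _ hsg with h | h
    · refine ⟨⟨s, hs⟩, 1, by norm_num, ?_⟩
      have e : s⁻¹ (g w) = w := h w hwV
      show g w = (1 : ℝ) • s w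
      rw [one_smul, ← Pool.Agent.H864.BL.app_inv s (g w), e]
    · refine ⟨⟨s, hs⟩, -1, by norm_num, ?_⟩
      have e : s⁻¹ (g w) = -w := h w hwV
      show g w = (-1 : ℝ) • s w
      rw [neg_smul, one_smul, ← map_neg, ← e, Pool.Agent.H864.BL.app_inv]
  obtain ⟨s1, -⟩ := H 1 G.one_mem
  have H' : ∀ x : EuclideanSpace ℝ (Fin n), ∃ p : S × ℝ, (∃ g ∈ G, g x0 = x) →
      p.2 * p.2 = 1 ∧ V.starProjection x = p.2 • (p.1 : _ ≃ₗᵢ[ℝ] _) w := by
    intro x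
    by_cases hx : ∃ g ∈ G, g x0 = x
    · obtain ⟨g, hg, rfl⟩ := hx
      obtain ⟨s, σ, h1, h2⟩ := H g hg
      exact ⟨(s, σ), fun _ => ⟨h1, h2⟩⟩
    · exact ⟨(s1, 0), fun h => absurd h hx⟩
  choose p hp using H'
  obtain ⟨ι⟩ : Nonempty (S ↪ Fin B) := by
    refine Function.Embedding.nonempty_of_card_le ?_
    rw [Fintype.card_coe, Fintype.card_fin]
    exact hS
  refine ⟨fun x => ι (p x).1, fun x _ => (p x).2, fun g hg h hh => ?_⟩
  obtain ⟨a1, a2⟩ := hp (g x0) ⟨g, hg, rfl⟩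
  obtain ⟨b1, b2⟩ := hp (h x0) ⟨h, hh, rfl⟩
  refine ⟨?_, fun hl => ?_⟩
  · unfold dt
    rw [Fin.sum_univ_one]
    exact a1
  · have hl' : (p (g x0)).1 = (p (h x0)).1 := ι.injective hl
    rw [a2, b2, hl', inner_smul_left, inner_smul_right, real_inner_self_eq_norm_sq,
      LinearIsometryEquiv.norm_map]
    unfold dt
    rw [Fin.sum_univ_one]
    simp only [conj_trivial]
    ring

/-- classes modulo the centre, complex case (proof of helper548) -/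
lemma loc_complex {n : ℕ} {G : Subgroup (EuclideanSpace ℝ (Fin n) ≃ₗᵢ[ℝ] EuclideanSpace ℝ (Fin n))}
    {V : Submodule ℝ (EuclideanSpace ℝ (Fin n))}
    {J : EuclideanSpace ℝ (Fin n) →ₗ[ℝ] EuclideanSpace ℝ (Fin n)} (hmin : AG.IsMin G V)
    (hJ : ComplexCase G V J)
    {B : ℕ} {S : Finset (EuclideanSpace ℝ (Fin n) ≃ₗᵢ[ℝ] EuclideanSpace ℝ (Fin n))}
    (he0 : 0 < B) (hcard : S.card ≤ B) (hrep : ∀ g ∈ G, ∃ s ∈ S, s⁻¹ * g ∈ NV G V)
    (x0 : EuclideanSpace ℝ (Fin n)) : Loc G V x0 B 2 := by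
  classical
  obtain ⟨hJ1, hJ2, hJ3, hJ4, hJ5⟩ := hJ
  have hV := hmin.1
  set w := V.starProjection x0 with hw
  have hwV : w ∈ V := Submodule.starProjection_apply_mem V x0
  have hproj : ∀ g ∈ G, ∀ x, V.starProjection (g x) = g (V.starProjection x) := by
    intro g hg x
    rw [Submodule.starProjection_apply, Submodule.starProjection_apply]
    exact Pool.Agent.H695.BL.proj_comm hV g hg x
  have hnorm : ∀ a b a' b' : ℝ, inner ℝ (a • w + b • J w) (a' • w + b' • J w)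
      = ‖w‖ ^ 2 * (a * a' + b * b') := by
    intro a b a' b'
    have h1 : inner ℝ (J w) w = - inner ℝ w (J w) := hJ3 w hwV w hwV
    have h2 : inner ℝ (J w) w = inner ℝ w (J w) := real_inner_comm _ _
    have h3 : inner ℝ w (J w) = (0 : ℝ) := by linarith
    have h4 : inner ℝ (J w) (J w) = (‖w‖ ^ 2 : ℝ) := by
      rw [hJ3 w hwV (J w) (hJ1 w hwV), hJ2 w hwV, inner_neg_right, neg_neg,
        real_inner_self_eq_norm_sq]
    have h5 : inner ℝ w w = (‖w‖ ^ 2 : ℝ) := real_inner_self_eq_norm_sq w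
    rw [inner_add_left, inner_add_right, inner_add_right, real_inner_smul_left,
      real_inner_smul_left, real_inner_smul_left, real_inner_smul_left, real_inner_smul_right,
      real_inner_smul_right, real_inner_smul_right, real_inner_smul_right, h2, h3, h4, h5]
    ring
  have hpt : ∀ x, (∃ g ∈ G, g x0 = x) → ∃ s ∈ S, ∃ a b : ℝ, a ^ 2 + b ^ 2 = 1 ∧
      V.starProjection x = s (a • w + b • J w) := by
    rintro x ⟨g, hg, rfl⟩
    obtain ⟨s, hs, hsN⟩ := hrep g hg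
    obtain ⟨a, b, hab, hv⟩ := hJ5 _ hsN
    refine ⟨s, hs, a, b, hab, ?_⟩
    rw [hproj g hg x0, ← hv w hwV]
    have h6 : s ((s⁻¹ * g) w) = (s * (s⁻¹ * g)) w := rfl
    rw [h6, mul_inv_cancel_left]
  let f : (EuclideanSpace ℝ (Fin n) ≃ₗᵢ[ℝ] EuclideanSpace ℝ (Fin n)) → Fin B := fun s =>
    if h : s ∈ S then Fin.castLE hcard (S.equivFin ⟨s, h⟩) else ⟨0, he0⟩
  have hf : ∀ s ∈ S, ∀ t ∈ S, f s = f t → s = t := by
    intro s hs t ht hst
    simp only [f, dif_pos hs, dif_pos ht] at hst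
    have h1 := Fin.castLE_injective hcard hst
    have h2 := S.equivFin.injective h1
    exact congrArg Subtype.val h2
  have hch : ∀ x, ∃ (s : EuclideanSpace ℝ (Fin n) ≃ₗᵢ[ℝ] EuclideanSpace ℝ (Fin n)) (a b : ℝ),
      (∃ g ∈ G, g x0 = x) → s ∈ S ∧ a ^ 2 + b ^ 2 = 1 ∧
        V.starProjection x = s (a • w + b • J w) := by
    intro x
    by_cases hx : ∃ g ∈ G, g x0 = x
    · obtain ⟨s, hs, a, b, hab, hP⟩ := hpt x hx
      exact ⟨s, a, b, fun _ => ⟨hs, hab, hP⟩⟩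
    · exact ⟨1, 0, 0, fun h => absurd h hx⟩
  choose s a b hsab using hch
  refine ⟨fun x => f (s x), fun x => ![a x, b x], ?_⟩
  intro g hg h hh
  obtain ⟨hs1, hab1, hP1⟩ := hsab (g x0) ⟨g, hg, rfl⟩
  obtain ⟨hs2, hab2, hP2⟩ := hsab (h x0) ⟨h, hh, rfl⟩
  refine ⟨?_, ?_⟩
  · simp only [dt, Fin.sum_univ_two, Matrix.cons_val_zero, Matrix.cons_val_one]
    rw [← hab1]
    ring
  · intro hl
    have h1 : s (g x0) = s (h x0) := hf _ hs1 _ hs2 hl
    rw [hP1, hP2, h1, (s (h x0)).inner_map_map, hnorm]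
    simp only [dt, Fin.sum_univ_two, Matrix.cons_val_zero, Matrix.cons_val_one]
    rw [hw]

/-- an admissible exponent (per dimension) for the spheres of `ℝ^d` -/
def Adm (s : ℝ) (d : ℕ) (C : ℝ) : Prop := ∃ (L : ℕ) (q : ℕ → ℝ), (d = 1 → L ≤ 1) ∧
  (∀ k ≤ L, 0 < q k) ∧ ∑ k ∈ range (L + 1), q k = 1 ∧
  s < 2 * ∑ k ∈ range L, √(q k * q (k + 1) * (aN d k * bN d (k + 1))) ∧
  ∑ k ∈ range (L + 1), q k * Real.logb 2 (hd d k / q k) ≤ C * d

lemma Adm.data {s : ℝ} (hs0 : 0 ≤ s) {D : ℕ} (hD : 1 ≤ D) {C : ℝ}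
    (h : ∀ d : ℕ, 1 ≤ d → d ≤ D → Adm s d C) : ∃ σ : ℝ, s < σ ∧ ∀ d : ℕ, 1 ≤ d → d ≤ D →
      ∃ (L : ℕ) (q : ℕ → ℝ), KernOK d L ∧ NumG σ d L q (C * d) := by
  choose L q h1 h2 h3 h4 h5 using h
  set F : ℕ → ℝ := fun d => if h : 1 ≤ d ∧ d ≤ D then
    2 * ∑ k ∈ range (L d h.1 h.2), √(q d h.1 h.2 k * q d h.1 h.2 (k + 1) *
      (aN d k * bN d (k + 1))) else 0 with hF
  have hFd : ∀ (d : ℕ) (g1 : 1 ≤ d) (g2 : d ≤ D), F d = 2 * ∑ k ∈ range (L d g1 g2),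
      √(q d g1 g2 k * q d g1 g2 (k + 1) * (aN d k * bN d (k + 1))) := by
    intro d g1 g2
    simp only [hF]
    rw [dif_pos ⟨g1, g2⟩]
  obtain ⟨d0, hd0, hmin⟩ := Finset.exists_min_image (Icc 1 D) F ⟨1, by rw [mem_Icc]; exact ⟨le_rfl, hD⟩⟩
  rw [mem_Icc] at hd0
  refine ⟨F d0, ?_, ?_⟩
  · rw [hFd d0 hd0.1 hd0.2]
    exact h4 d0 hd0.1 hd0.2
  · intro d g1 g2
    refine ⟨L d g1 g2, q d g1 g2, ?_, h2 d g1 g2, h3 d g1 g2, ?_, h5 d g1 g2⟩
    · by_cases hd1 : d = 1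
      · subst hd1
        have g3 := h1 1 g1 g2 rfl
        have g4 := h4 1 g1 g2
        have g5 : L 1 g1 g2 ≠ 0 := by
          intro g6
          rw [g6, range_zero, sum_empty, mul_zero] at g4
          linarith
        have g6 : L 1 g1 g2 = 1 := by omega
        rw [g6]
        exact kern_dim_one
      · exact kern_of_geg Pool.Agent.H630.BL.t_geg (by omega) _
    · rw [← hFd d g1 g2]
      exact hmin d (by rw [mem_Icc]; exact ⟨g1, g2⟩)

/-- each constituent has dimension at most `D` or a small number of cosets of the centre -/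
def Tame (D : ℕ) (C : ℝ) {n : ℕ}
    (G : Subgroup (EuclideanSpace ℝ (Fin n) ≃ₗᵢ[ℝ] EuclideanSpace ℝ (Fin n))) : Prop :=
  ∀ V, AG.IsMin G V → finrank ℝ V ≤ D ∨
    ∃ S : Finset (EuclideanSpace ℝ (Fin n) ≃ₗᵢ[ℝ] EuclideanSpace ℝ (Fin n)),
      (S.card : ℝ) ≤ 2 ^ (C * ((finrank ℝ V : ℝ) - 2)) ∧ ∀ g ∈ G, ∃ t ∈ S, t⁻¹ * g ∈ NV G V

/-- **the general bound in one orbit** -/
theorem gen_bound {s : ℝ} (hs0 : 0 ≤ s) (hs1 : s < 1) {D : ℕ} (hD : 2 ≤ D) {C : ℝ} (hC : 0 ≤ C)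
    (hA : ∀ d : ℕ, 1 ≤ d → d ≤ D → Adm s d C) {c' : ℝ} (hc : C < c') : ∀ᶠ n : ℕ in atTop,
    ∀ G : Subgroup (EuclideanSpace ℝ (Fin n) ≃ₗᵢ[ℝ] EuclideanSpace ℝ (Fin n)), Tame D C G →
      ∀ (X : Finset (EuclideanSpace ℝ (Fin n))) (x0 : EuclideanSpace ℝ (Fin n)),
      (∀ x ∈ X, ∃ g ∈ G, x = g x0) → (∀ x ∈ X, ‖x‖ = 1) →
      (∀ x ∈ X, ∀ y ∈ X, x ≠ y → inner ℝ x y ≤ s) →
      (X.card : ℝ) ≤ 2 ^ (c' * n) := by
  obtain ⟨σ, hσ, hdata⟩ := Adm.data hs0 (show 1 ≤ D by omega) hA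
  filter_upwards [orbit_asym_gen hs0 hs1.le hσ (show 1 ≤ D by omega) (C := fun d => C * d)
    hdata C hc] with n hn G hG
  apply hn G
  intro V hV x0
  rcases hG V hV with h | ⟨S, hS, hrep⟩
  · exact ⟨1, finrank ℝ V, IsMin.pos hV, h, by simp, Pool.Agent.H277.BL.t_locd n G V hV x0⟩
  · have hB : 0 < S.card := by
      obtain ⟨t, ht, -⟩ := hrep 1 G.one_mem
      exact Finset.card_pos.2 ⟨t, ht⟩
    have hlog : Real.logb 2 (S.card : ℝ) ≤ C * ((finrank ℝ V : ℝ) - 2) := by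
      rw [Real.logb_le_iff_le_rpow one_lt_two (by exact_mod_cast hB)]
      exact hS
    rcases Pool.Agent.H686.BL.t_str n G V hV with hR | ⟨J, hJ⟩
    · refine ⟨S.card, 1, le_rfl, by omega, ?_, loc_real hV hR le_rfl hrep x0⟩
      push_cast
      nlinarith
    · refine ⟨S.card, 2, by norm_num, hD, ?_, loc_complex hV hJ hB le_rfl hrep x0⟩
      push_cast
      nlinarith

/-- nilpotent groups of class at most 2 -/
lemma tame_class2 {n D : ℕ} {C : ℝ}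
    {G : Subgroup (EuclideanSpace ℝ (Fin n) ≃ₗᵢ[ℝ] EuclideanSpace ℝ (Fin n))} (hG : Class2 G)
    (h : ∀ d : ℕ, D < d → 2 * Real.logb 2 d ≤ C * ((d : ℝ) - 2)) : Tame D C G := by
  intro V hV
  by_cases hd : finrank ℝ V ≤ D
  · exact Or.inl hd
  right
  push Not at hd
  have hB : ∀ S : Finset (EuclideanSpace ℝ (Fin n) ≃ₗᵢ[ℝ] EuclideanSpace ℝ (Fin n)),
      (∀ g ∈ S, g ∈ G) → (∀ g ∈ S, ∀ h ∈ S, g ≠ h → g⁻¹ * h ∉ NV G V) →
      S.card ≤ finrank ℝ V ^ 2 := by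
    intro S h1 h2
    rcases Pool.Agent.H686.BL.t_str n G V hV with hR | ⟨J, hJ⟩
    · exact Pool.Agent.H871.BL.t_besr n G V hV hG hR S h1 h2
    · have := Pool.Agent.H588.BL.t_besc n G V J hV hG hJ S h1 h2
      omega
  obtain ⟨S, hS, hrep⟩ := Pool.Agent.H864.BL.exists_system hV.1 hB
  refine ⟨S, ?_, hrep⟩
  have hpos : (0 : ℝ) < finrank ℝ V := by
    have := IsMin.pos hV
    exact_mod_cast this
  have h1 := h _ hd
  have h2 : ((finrank ℝ V : ℝ)) ^ 2 ≤ 2 ^ (C * ((finrank ℝ V : ℝ) - 2)) := by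
    rw [← Real.logb_le_iff_le_rpow one_lt_two (by positivity), Real.logb_pow]
    push_cast
    exact h1
  refine le_trans ?_ h2
  exact_mod_cast hS

/-- the angle `0.52`, dimensions `1` and `2` -/
lemma adm_near (d : ℕ) (h1 : 1 ≤ d) (h2 : d ≤ 2) : Adm 0.52 d 0.38908 := by
  interval_cases d
  · refine ⟨1, qn1, fun _ => le_rfl, numn1.pos, numn1.sum, ?_, ?_⟩
    · exact lt_of_lt_of_le (by norm_num) numn1.corr
    · exact_mod_cast numn1.ent
  · refine ⟨2, qn2, fun h => absurd h (by norm_num), numn2.pos, numn2.sum, ?_, ?_⟩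
    · exact lt_of_lt_of_le (by norm_num) numn2.corr
    · exact_mod_cast numn2.ent

end Pool.Agent.H58.BL
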