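import Pool.Agent.H58.BL.Asym

/-!
# The items
-/

set_option autoImplicit false

open Finset Filter Topology

namespace Pool.Agent.H58.BL

/-- the test function -/
noncomputable def phiOf (L : ℕ) (q : ℕ → ℝ) (t : ℤ) : ℝ := if 0 ≤ t ∧ t ≤ L then √(q t.toNat) else 0

/-- the weights -/
noncomputable def wOf (d : ℕ) (t : ℤ) : ℝ :=
  if 0 ≤ t then √(aN d t.toNat * bN d (t.toNat + 1)) else 0

lemma phiOf_nat {L : ℕ} {q : ℕ → ℝ} {i : ℕ} (hi : i ≤ L) : phiOf L q i = √(q i) := by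
  unfold phiOf
  rw [if_pos ⟨by omega, by omega⟩, Int.toNat_natCast]

/-- the item -/
noncomputable def mkItem {α : Type} {d L : ℕ} {q : ℕ → ℝ} {σ C ε τ ρ : ℝ} (hd1 : 1 ≤ d)
    (hK : KernOK d L) (hN : NumG σ d L q C) (v : α → Fin d → ℝ) (hv : ∀ x, dt (v x) (v x) = 1)
    (ht : ((2 : ℝ) ^ (-(C + ε))) ^ τ * ∑ k ∈ range (L + 1), q k * (hd d k / q k) ^ τ ≤ ρ) :
    Item α σ ε τ ρ where
  A := mkBlk hd1 hK v hv
  φ := phiOf L q
  w := wOf d
  C := C
  hS t h := by
    unfold phiOf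
    rw [if_neg]
    intro h2
    apply h
    change t ∈ lev L
    rw [mem_lev]
    exact ⟨t.toNat, by omega, by omega⟩
  hφ0 t := by
    unfold phiOf
    split_ifs
    · exact Real.sqrt_nonneg _
    · exact le_rfl
  hφ u hu := by
    obtain ⟨i, hi, rfl⟩ := mem_lev.1 hu
    rw [phiOf_nat hi]
    exact Real.sqrt_pos.2 (hN.pos i hi)
  hw0 t := by
    unfold wOf
    split_ifs
    · exact Real.sqrt_nonneg _
    · exact le_rfl
  hw1 t := by
    unfold wOf
    split_ifs
    · refine (Real.sqrt_le_sqrt (mul_le_one₀ (aN_le hd1 _) (bN_nonneg hd1 _) (bN_le hd1 _))).trans ?_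
      simp
    · exact zero_le_one
  h1 := by
    change ∑ t ∈ lev L, phiOf L q t ^ 2 = 1
    rw [sum_lev, ← hN.sum]
    apply sum_congr rfl
    intro i hi
    have hi' : i ≤ L := by
      have := mem_range.1 hi
      omega
    rw [phiOf_nat hi', Real.sq_sqrt (hN.pos i hi').le]
  hc := by
    change _ ≤ 2 * ∑ t ∈ lev L, wOf d t * (phiOf L q t * phiOf L q (t + 1))
    rw [sum_lev, sum_range_succ]
    have e0 : phiOf L q ((L : ℤ) + 1) = 0 := by
      unfold phiOf
      rw [if_neg]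
      omega
    rw [e0, mul_zero, mul_zero, add_zero]
    refine hN.corr.trans (le_of_eq ?_)
    congr 1
    apply sum_congr rfl
    intro i hi
    have hi' : i < L := mem_range.1 hi
    have e1 : ((i : ℤ) + 1) = ((i + 1 : ℕ) : ℤ) := by push_cast; ring
    rw [e1, phiOf_nat hi'.le, phiOf_nat (show i + 1 ≤ L by omega)]
    have e2 : wOf d (i : ℤ) = √(aN d i * bN d (i + 1)) := by
      unfold wOf
      rw [if_pos (by omega), Int.toNat_natCast]
    have h1 := (hN.pos i hi'.le).le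
    have h2 := (hN.pos (i + 1) (by omega)).le
    rw [e2, Real.sqrt_mul (mul_nonneg h1 h2), Real.sqrt_mul h1]
    ring
  hrel i hi hi1 := by
    obtain ⟨k, hk, rfl⟩ := mem_lev.1 hi
    obtain ⟨k', hk', hkk⟩ := mem_lev.1 hi1
    have hkL : k < L := by omega
    have e1 : ((k : ℤ) + 1) = ((k + 1 : ℕ) : ℤ) := by push_cast; ring
    have hb := hK.2.2.2.1 k hkL
    have hp0 : 0 < hd d k := by
      rcases hK.2.2.1 k with h | h
      · exact h
      · omega
    have hp1 : 0 < hd d (k + 1) := by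
      rcases hK.2.2.1 (k + 1) with h | h
      · exact h
      · omega
    have ha := aN_nonneg hd1 k
    have hb0 := bN_nonneg hd1 (k + 1)
    have e2 : wOf d (k : ℤ) = √(aN d k * bN d (k + 1)) := by
      unfold wOf
      rw [if_pos (by omega), Int.toNat_natCast]
    have eA : (mkBlk hd1 hK v hv).a (k : ℤ) = aN d k := by
      change (if (0 : ℤ) ≤ k then aN d (k : ℤ).toNat else 0) = _
      rw [if_pos (by omega), Int.toNat_natCast]
    have eB : (mkBlk hd1 hK v hv).b ((k + 1 : ℕ) : ℤ) = bN d (k + 1) := by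
      change (if (0 : ℤ) ≤ ((k + 1 : ℕ) : ℤ) then bN d ((k + 1 : ℕ) : ℤ).toNat else 0) = _
      rw [if_pos (by omega), Int.toNat_natCast]
    have eH : (mkBlk hd1 hK v hv).h (k : ℤ) = hd d k := by
      change (if (0 : ℤ) ≤ k ∧ (k : ℤ) ≤ L then hd d (k : ℤ).toNat else 1) = _
      rw [if_pos ⟨by omega, by omega⟩, Int.toNat_natCast]
    have eH1 : (mkBlk hd1 hK v hv).h ((k + 1 : ℕ) : ℤ) = hd d (k + 1) := by
      change (if (0 : ℤ) ≤ ((k + 1 : ℕ) : ℤ) ∧ ((k + 1 : ℕ) : ℤ) ≤ L then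
        hd d ((k + 1 : ℕ) : ℤ).toNat else 1) = _
      rw [if_pos ⟨by omega, by omega⟩, Int.toNat_natCast]
    rw [e1, eA, eB, eH, eH1, e2]
    constructor
    · rw [← Real.sqrt_mul (mul_nonneg ha hb0)]
      rw [show aN d k * bN d (k + 1) * hd d (k + 1) = aN d k ^ 2 * hd d k by
        rw [mul_assoc, ← hb]; ring]
      rw [Real.sqrt_mul (sq_nonneg _), Real.sqrt_sq ha]
    · rw [← Real.sqrt_mul (mul_nonneg ha hb0)]
      rw [show aN d k * bN d (k + 1) * hd d k = bN d (k + 1) ^ 2 * hd d (k + 1) by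
        rw [mul_right_comm, hb]; ring]
      rw [Real.sqrt_mul (sq_nonneg _), Real.sqrt_sq hb0]
  htail := by
    refine le_trans (le_of_eq ?_) ht
    change ((2 : ℝ) ^ (-(C + ε))) ^ τ * ∑ u ∈ lev L, phiOf L q u ^ 2 *
      ((mkBlk hd1 hK v hv).h u / phiOf L q u ^ 2) ^ τ = _
    rw [sum_lev]
    congr 1
    apply sum_congr rfl
    intro i hi
    have hi' : i ≤ L := by
      have := mem_range.1 hi
      omega
    have eH : (mkBlk hd1 hK v hv).h (i : ℤ) = hd d i := by
      change (if (0 : ℤ) ≤ i ∧ (i : ℤ) ≤ L then hd d (i : ℤ).toNat else 1) = _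
      rw [if_pos ⟨by omega, by omega⟩, Int.toNat_natCast]
    rw [phiOf_nat hi', Real.sq_sqrt (hN.pos i hi').le, eH]

end Pool.Agent.H58.BL
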