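import Pool.Agent.H58.BL.Stm

/-!
# Kernels given by features
-/

set_option autoImplicit false

open Finset

namespace Pool.Agent.H58.BL

variable {α : Type}

/-- kernels given by features -/
def PsdK (K : α → α → ℝ) : Prop :=
  ∃ (ι : Type) (_ : Fintype ι) (Ψ : α → ι → ℝ), ∀ x y, K x y = ∑ i, Ψ x i * Ψ y i

/-- ... in a space of dimension at most `r` -/
def FeatK (K : α → α → ℝ) (r : ℝ) : Prop :=
  ∃ (ι : Type) (_ : Fintype ι) (Ψ : α → ι → ℝ) (Q : ι → ι → ℝ),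
    (∀ x y, K x y = ∑ i, Ψ x i * Ψ y i) ∧ (∀ x, ∑ i, ∑ j, Q i j * (Ψ x i * Ψ x j) = 1) ∧
    ∑ i, ∑ j, Q i j ^ 2 ≤ r

lemma FeatK.psd {K : α → α → ℝ} {r : ℝ} (h : FeatK K r) : PsdK K := by
  obtain ⟨ι, hι, Ψ, Q, h1, -, -⟩ := h
  exact ⟨ι, hι, Ψ, h1⟩

lemma FeatK.nonneg {K : α → α → ℝ} {r : ℝ} (h : FeatK K r) : 0 ≤ r := by
  obtain ⟨ι, hι, Ψ, Q, -, -, h3⟩ := h
  exact (sum_nonneg fun i _ => sum_nonneg fun j _ => sq_nonneg _).trans h3

lemma psdK_one : PsdK (fun _ _ : α => (1 : ℝ)) :=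
  ⟨Unit, inferInstance, fun _ _ => 1, fun _ _ => by simp⟩

lemma psdK_zero : PsdK (fun _ _ : α => (0 : ℝ)) :=
  ⟨Unit, inferInstance, fun _ _ => 0, fun _ _ => by simp⟩

lemma featK_one : FeatK (fun _ _ : α => (1 : ℝ)) 1 :=
  ⟨Unit, inferInstance, fun _ _ => 1, fun _ _ => 1, fun _ _ => by simp, fun _ => by simp, by simp⟩

lemma PsdK.mul {K L : α → α → ℝ} (hK : PsdK K) (hL : PsdK L) : PsdK (fun x y => K x y * L x y) := by
  obtain ⟨ι, hι, Ψ, h1⟩ := hK
  obtain ⟨κ, hκ, Φ, h2⟩ := hL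
  refine ⟨ι × κ, inferInstance, fun x q => Ψ x q.1 * Φ x q.2, fun x y => ?_⟩
  simp only
  rw [h1, h2, sum_mul_sum, Fintype.sum_prod_type]
  apply sum_congr rfl
  intro i _
  apply sum_congr rfl
  intro j _
  ring

lemma FeatK.mul {K L : α → α → ℝ} {r s : ℝ} (hK : FeatK K r) (hL : FeatK L s) :
    FeatK (fun x y => K x y * L x y) (r * s) := by
  have hs0 := hL.nonneg
  obtain ⟨ι, hι, Ψ, Q, h1, h1', h1''⟩ := hK
  obtain ⟨κ, hκ, Φ, R, h2, h2', h2''⟩ := hL
  refine ⟨ι × κ, inferInstance, fun x q => Ψ x q.1 * Φ x q.2, fun q q' => Q q.1 q'.1 * R q.2 q'.2,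
    fun x y => ?_, fun x => ?_, ?_⟩
  · simp only
    rw [h1, h2, sum_mul_sum, Fintype.sum_prod_type]
    apply sum_congr rfl
    intro i _
    apply sum_congr rfl
    intro j _
    ring
  · have e : (1 : ℝ) = (∑ i, ∑ j, Q i j * (Ψ x i * Ψ x j)) * (∑ i, ∑ j, R i j * (Φ x i * Φ x j)) := by
      rw [h1', h2', one_mul]
    rw [e, sum_mul_sum, Fintype.sum_prod_type]
    apply sum_congr rfl
    intro i _
    apply sum_congr rfl
    intro k _
    rw [sum_mul_sum, Fintype.sum_prod_type]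
    apply sum_congr rfl
    intro j _
    apply sum_congr rfl
    intro l _
    ring
  · have e : ∑ q : ι × κ, ∑ q' : ι × κ, (Q q.1 q'.1 * R q.2 q'.2) ^ 2 =
        (∑ i, ∑ j, Q i j ^ 2) * (∑ i, ∑ j, R i j ^ 2) := by
      rw [sum_mul_sum, Fintype.sum_prod_type]
      apply sum_congr rfl
      intro i _
      apply sum_congr rfl
      intro k _
      rw [sum_mul_sum, Fintype.sum_prod_type]
      apply sum_congr rfl
      intro j _
      apply sum_congr rfl
      intro l _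
      ring
    rw [e]
    exact mul_le_mul h1'' h2'' (sum_nonneg fun i _ => sum_nonneg fun j _ => sq_nonneg _)
      ((sum_nonneg fun i _ => sum_nonneg fun j _ => sq_nonneg _).trans h1'')

lemma psdK_prod {m : ℕ} {K : Fin m → α → α → ℝ} (h : ∀ j, PsdK (K j)) (s : Finset (Fin m)) :
    PsdK (fun x y => ∏ j ∈ s, K j x y) := by
  classical
  induction s using Finset.induction_on with
  | empty => simpa using psdK_one
  | insert a s ha ih =>
    have e : (fun x y => ∏ j ∈ insert a s, K j x y) = fun x y => K a x y * ∏ j ∈ s, K j x y := by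
      ext x y
      rw [prod_insert ha]
    rw [e]
    exact (h a).mul ih

lemma featK_prod {m : ℕ} {K : Fin m → α → α → ℝ} {r : Fin m → ℝ} (h : ∀ j, FeatK (K j) (r j))
    (s : Finset (Fin m)) : FeatK (fun x y => ∏ j ∈ s, K j x y) (∏ j ∈ s, r j) := by
  classical
  induction s using Finset.induction_on with
  | empty => simpa using featK_one
  | insert a s ha ih =>
    have e : (fun x y => ∏ j ∈ insert a s, K j x y) = fun x y => K a x y * ∏ j ∈ s, K j x y := by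
      ext x y
      rw [prod_insert ha]
    rw [e, prod_insert ha]
    exact (h a).mul ih

lemma PsdK.sum_nonneg {K : α → α → ℝ} (h : PsdK K) (X : Finset α) :
    0 ≤ ∑ x ∈ X, ∑ y ∈ X, K x y := by
  obtain ⟨ι, hι, Ψ, h1⟩ := h
  have e : ∑ x ∈ X, ∑ y ∈ X, K x y = ∑ i, (∑ x ∈ X, Ψ x i) ^ 2 := by
    simp_rw [h1]
    rw [sum_congr rfl (fun x _ => sum_comm), sum_comm]
    apply sum_congr rfl
    intro i _
    rw [sq, sum_mul_sum]
  rw [e]
  positivity

/-- the rank bound -/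
lemma FeatK.lower {K : α → α → ℝ} {r : ℝ} (h : FeatK K r) (X : Finset α) :
    (X.card : ℝ) ^ 2 ≤ r * ∑ x ∈ X, ∑ y ∈ X, K x y * K x y := by
  obtain ⟨ι, hι, Ψ, Q, h1, h2, h3⟩ := h
  set A : ι → ι → ℝ := fun i j => ∑ x ∈ X, Ψ x i * Ψ x j with hA
  have e1 : (X.card : ℝ) = ∑ i, ∑ j, Q i j * A i j := by
    have e0 : (X.card : ℝ) = ∑ x ∈ X, ∑ i, ∑ j, Q i j * (Ψ x i * Ψ x j) := by
      rw [sum_congr rfl (fun x _ => h2 x)]
      simp
    rw [e0, sum_comm]
    apply sum_congr rfl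
    intro i _
    rw [sum_comm]
    apply sum_congr rfl
    intro j _
    rw [hA, mul_sum]
  have e2 : ∑ x ∈ X, ∑ y ∈ X, K x y * K x y = ∑ i, ∑ j, A i j ^ 2 := by
    have e0 : ∀ x y, K x y * K x y = ∑ i, ∑ j, (Ψ x i * Ψ x j) * (Ψ y i * Ψ y j) := by
      intro x y
      rw [h1, sum_mul_sum]
      apply sum_congr rfl
      intro i _
      apply sum_congr rfl
      intro j _
      ring
    simp_rw [e0]
    rw [sum_congr rfl (fun x _ => sum_comm), sum_comm]
    apply sum_congr rfl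
    intro i _
    rw [sum_congr rfl (fun x _ => sum_comm), sum_comm]
    apply sum_congr rfl
    intro j _
    simp only [hA]
    rw [sq, sum_mul_sum]
  have e3 : (∑ i, ∑ j, Q i j * A i j) ^ 2 ≤ (∑ i, ∑ j, Q i j ^ 2) * ∑ i, ∑ j, A i j ^ 2 := by
    have := sum_mul_sq_le_sq_mul_sq (univ : Finset (ι × ι)) (fun q => Q q.1 q.2) (fun q => A q.1 q.2)
    simpa only [Fintype.sum_prod_type] using this
  rw [e1, e2]
  refine e3.trans (mul_le_mul_of_nonneg_right h3 (by positivity))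

end Pool.Agent.H58.BL
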