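import Pool.Agent.H58.BL.Test

/-!
# The blocks given by unit vectors of dimension `d`
-/

set_option autoImplicit false

open Finset

namespace Pool.Agent.H58.BL

/-- the coefficients of the recurrence -/
noncomputable def aN (d : ℕ) : ℕ → ℝ
  | 0 => 1
  | k + 1 => (k + d - 1) / (2 * k + d)

noncomputable def bN (d : ℕ) : ℕ → ℝ
  | 0 => 0
  | k + 1 => (k + 1) / (2 * k + d)

lemma aN_nonneg {d : ℕ} (hd : 1 ≤ d) (k : ℕ) : 0 ≤ aN d k := by
  have h : (1 : ℝ) ≤ d := by exact_mod_cast hd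
  cases k with
  | zero => simp [aN]
  | succ k =>
    have : (0 : ℝ) ≤ k := Nat.cast_nonneg k
    exact div_nonneg (by linarith) (by linarith)

lemma bN_nonneg {d : ℕ} (hd : 1 ≤ d) (k : ℕ) : 0 ≤ bN d k := by
  have h : (1 : ℝ) ≤ d := by exact_mod_cast hd
  cases k with
  | zero => simp [bN]
  | succ k =>
    have : (0 : ℝ) ≤ k := Nat.cast_nonneg k
    exact div_nonneg (by linarith) (by linarith)

lemma aN_le {d : ℕ} (hd : 1 ≤ d) (k : ℕ) : aN d k ≤ 1 := by
  have h : (1 : ℝ) ≤ d := by exact_mod_cast hd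
  cases k with
  | zero => simp [aN]
  | succ k =>
    have : (0 : ℝ) ≤ k := Nat.cast_nonneg k
    simp only [aN]
    rw [div_le_one (by linarith)]
    linarith

lemma bN_le {d : ℕ} (hd : 1 ≤ d) (k : ℕ) : bN d k ≤ 1 := by
  have h : (1 : ℝ) ≤ d := by exact_mod_cast hd
  cases k with
  | zero => simp [bN]
  | succ k =>
    have : (0 : ℝ) ≤ k := Nat.cast_nonneg k
    simp only [bN]
    rw [div_le_one (by linarith)]
    linarith

lemma hd_pos {d : ℕ} (h2 : 2 ≤ d) (k : ℕ) : 0 < hd d k := by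
  have h : (2 : ℝ) ≤ d := by exact_mod_cast h2
  induction k using Nat.twoStepInduction with
  | zero => simp [hd]
  | one => simp only [hd]; linarith
  | more k _ ih =>
    simp only [hd]
    have : (0 : ℝ) ≤ k := Nat.cast_nonneg k
    apply mul_pos ih
    apply div_pos <;> apply mul_pos <;> linarith

/-- detailed balance -/
lemma balance {d : ℕ} (h2 : 2 ≤ d) (k : ℕ) : aN d k * hd d k = bN d (k + 1) * hd d (k + 1) := by
  have h : (2 : ℝ) ≤ d := by exact_mod_cast h2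
  cases k with
  | zero =>
    simp only [aN, bN, hd]
    have : (d : ℝ) ≠ 0 := by linarith
    simp
    field_simp
  | succ k =>
    simp only [aN, bN, hd]
    have : (0 : ℝ) ≤ k := Nat.cast_nonneg k
    have h3 : (2 * (k : ℝ) + d) ≠ 0 := by linarith
    have h4 : (2 * ((k + 1 : ℕ) : ℝ) + d) ≠ 0 := by push_cast; linarith
    have h5 : ((k : ℝ) + 2) ≠ 0 := by linarith
    push_cast at h4 ⊢
    field_simp
    ring

/-- the levels -/
def lev (L : ℕ) : Finset ℤ := (range (L + 1)).map Nat.castEmbedding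

lemma mem_lev {L : ℕ} {k : ℤ} : k ∈ lev L ↔ ∃ i : ℕ, i ≤ L ∧ k = i := by
  unfold lev
  simp only [mem_map, mem_range, Nat.castEmbedding_apply]
  constructor
  · rintro ⟨i, hi, rfl⟩
    exact ⟨i, by omega, rfl⟩
  · rintro ⟨i, hi, rfl⟩
    exact ⟨i, by omega, rfl⟩

lemma sum_lev {L : ℕ} (F : ℤ → ℝ) : ∑ k ∈ lev L, F k = ∑ i ∈ range (L + 1), F i := by
  unfold lev
  rw [sum_map]
  rfl

/-- what is needed for the kernels -/
def KernOK (d L : ℕ) : Prop :=
  (∀ k ≤ L, Feat d (geg d k) (hd d k)) ∧ Psd d (geg d (L + 1)) ∧ (∀ k, 0 < hd d k ∨ L < k) ∧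
  (∀ k < L, aN d k * hd d k = bN d (k + 1) * hd d (k + 1)) ∧
  (∀ k ≤ L, geg d k 1 = 1) ∧
  ∀ k ≤ L, ∀ v w : Fin d → ℝ, dt v v = 1 → dt w w = 1 →
    dt v w * geg d k (dt v w) = aN d k * geg d (k + 1) (dt v w) + bN d k * geg d (k - 1) (dt v w)

lemma geg_rec {d : ℕ} (h2 : 2 ≤ d) (k : ℕ) (t : ℝ) :
    t * geg d k t = aN d k * geg d (k + 1) t + bN d k * geg d (k - 1) t := by
  have h : (2 : ℝ) ≤ d := by exact_mod_cast h2
  cases k with
  | zero => simp [geg, aN, bN]
  | succ k =>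
    simp only [geg, aN, bN, Nat.add_sub_cancel]
    have : (0 : ℝ) ≤ k := Nat.cast_nonneg k
    have h3 : (2 * (k : ℝ) + d) ≠ 0 := by linarith
    have h4 : ((k : ℝ) + d - 1) ≠ 0 := by linarith
    field_simp
    ring

lemma geg_one_val {d : ℕ} (h2 : 2 ≤ d) (k : ℕ) : geg d k 1 = 1 := by
  have h : (2 : ℝ) ≤ d := by exact_mod_cast h2
  induction k using Nat.twoStepInduction with
  | zero => simp [geg]
  | one => simp [geg]
  | more k ih1 ih2 =>
    simp only [geg, ih1, ih2]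
    have : (0 : ℝ) ≤ k := Nat.cast_nonneg k
    have h4 : ((k : ℝ) + d - 1) ≠ 0 := by linarith
    field_simp
    ring

lemma feat_zero (d : ℕ) : Feat d (geg d 0) (hd d 0) :=
  ⟨Unit, inferInstance, fun _ _ => 1, fun _ _ => 1, fun _ _ _ _ => by simp [geg], fun _ _ => by simp,
    by simp [hd]⟩

lemma feat_one (d : ℕ) : Feat d (geg d 1) (hd d 1) :=
  ⟨Fin d, inferInstance, fun v i => v i, fun i j => if i = j then 1 else 0,
    fun v w _ _ => by simp [geg, dt], fun v hv => by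
      have e : ∑ i, ∑ j, (if i = j then (1 : ℝ) else 0) * (v i * v j) = dt v v := by
        unfold dt
        simp
      rw [e, hv], by simp [hd]⟩

lemma Feat.psd {d : ℕ} {K : ℝ → ℝ} {r : ℝ} (h : Feat d K r) : Psd d K := by
  obtain ⟨ι, hι, Ψ, Q, h1, -, -⟩ := h
  exact ⟨ι, hι, Ψ, h1⟩

/-- all levels, from the addition theorem -/
lemma kern_of_geg (h : S_GEG) {d : ℕ} (h2 : 2 ≤ d) (L : ℕ) : KernOK d L :=
  ⟨fun k _ => h d h2 k, (h d h2 (L + 1)).psd, fun k => Or.inl (hd_pos h2 k), fun k _ => balance h2 k,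
    fun k _ => geg_one_val h2 k, fun k _ _ _ _ _ => geg_rec h2 k _⟩

/-- the levels up to `2` -/
lemma kern_two (f2 : S_F2) (f3 : S_F3) {d : ℕ} (h2 : 2 ≤ d) : KernOK d 2 := by
  have h : (2 : ℝ) ≤ d := by exact_mod_cast h2
  have e2 : geg d 2 = fun t : ℝ => ((d : ℝ) * t ^ 2 - 1) / (d - 1) := by
    ext t
    simp only [geg]
    norm_num
    ring
  have e3 : geg d 3 = fun t : ℝ => (((d : ℝ) + 2) * t ^ 3 - 3 * t) / (d - 1) := by
    ext t
    simp only [geg]
    push_cast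
    have h3 : (d : ℝ) - 1 ≠ 0 := by linarith
    have h4 : (1 + (d : ℝ) - 1) ≠ 0 := by linarith
    have h5 : (0 + (d : ℝ) - 1) ≠ 0 := by linarith
    field_simp
    ring
  have e4 : hd d 2 = ((d : ℝ) + 2) * (d - 1) / 2 := by
    simp only [hd]
    have h3 : (d : ℝ) ≠ 0 := by linarith
    push_cast
    field_simp
    ring
  refine ⟨?_, ?_, fun k => Or.inl (hd_pos h2 k), fun k _ => balance h2 k,
    fun k _ => geg_one_val h2 k, fun k _ _ _ _ _ => geg_rec h2 k _⟩
  · intro k hk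
    interval_cases k
    · exact feat_zero d
    · exact feat_one d
    · rw [e2, e4]
      exact f2 d h2
  · rw [e3]
    exact f3 d h2

/-- dimension one -/
lemma kern_dim_one : KernOK 1 1 := by
  refine ⟨?_, ?_, ?_, ?_, ?_, ?_⟩
  · intro k hk
    interval_cases k
    · exact feat_zero 1
    · exact feat_one 1
  · refine ⟨Unit, inferInstance, fun _ _ => 0, fun v w _ _ => ?_⟩
    simp [geg]
  · intro k
    rcases k with _ | _ | k
    · left; simp [hd]
    · left; simp [hd]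
    · right; omega
  · intro k hk
    have : k = 0 := by omega
    subst this
    simp [aN, bN, hd]
  · intro k hk
    interval_cases k <;> simp [geg]
  · intro k hk v w hv hw
    interval_cases k
    · simp [geg, aN, bN]
    · simp only [dt, univ_unique, Fin.default_eq_zero, Fin.isValue, sum_singleton] at hv hw ⊢
      simp [geg, aN, bN]
      nlinarith

/-- the block -/
noncomputable def mkBlk {α : Type} {d L : ℕ} (hd1 : 1 ≤ d) (hK : KernOK d L) (v : α → Fin d → ℝ)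
    (hv : ∀ x, dt (v x) (v x) = 1) : Blk α where
  u x y := dt (v x) (v y)
  P k x y := if 0 ≤ k ∧ k ≤ L + 1 then geg d k.toNat (dt (v x) (v y)) else 0
  a k := if 0 ≤ k then aN d k.toNat else 0
  b k := if 0 ≤ k then bN d k.toNat else 0
  h k := if 0 ≤ k ∧ k ≤ L then hd d k.toNat else 1
  S := lev L
  diag := hv
  ha k := by
    split_ifs
    · exact aN_nonneg hd1 _
    · exact le_rfl
  hb k := by
    split_ifs
    · exact bN_nonneg hd1 _
    · exact le_rfl
  hh k := by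
    split_ifs with h
    · rcases hK.2.2.1 k.toNat with h1 | h1
      · exact h1
      · omega
    · exact one_pos
  recur k hk x y := by
    obtain ⟨i, hi, rfl⟩ := mem_lev.1 hk
    have h1 := hK.2.2.2.2.2 i hi (v x) (v y) (hv x) (hv y)
    have c1 : (0 : ℤ) ≤ (i : ℤ) ∧ (i : ℤ) ≤ L + 1 := ⟨by omega, by omega⟩
    have c2 : (0 : ℤ) ≤ (i : ℤ) := by omega
    have c3 : (0 : ℤ) ≤ (i : ℤ) + 1 ∧ (i : ℤ) + 1 ≤ L + 1 := ⟨by omega, by omega⟩
    have e1 : ((i : ℤ)).toNat = i := Int.toNat_natCast i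
    have e2 : ((i : ℤ) + 1).toNat = i + 1 := by omega
    rw [if_pos c1, if_pos c2, if_pos c2, if_pos c3, e1, e2, h1]
    rcases i with _ | i
    · simp [bN]
    · have c4 : (0 : ℤ) ≤ ((i + 1 : ℕ) : ℤ) - 1 ∧ ((i + 1 : ℕ) : ℤ) - 1 ≤ L + 1 :=
        ⟨by omega, by omega⟩
      have e3 : (((i + 1 : ℕ) : ℤ) - 1).toNat = i + 1 - 1 := by omega
      rw [if_pos c4, e3]
  psd k := by
    by_cases hk : 0 ≤ k ∧ k ≤ L + 1
    · simp only [hk, and_self, if_true]
      have h1 : Psd d (geg d k.toNat) := by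
        rcases Nat.lt_or_ge L k.toNat with h2 | h2
        · have h3 : k.toNat = L + 1 := by omega
          rw [h3]
          exact hK.2.1
        · exact (hK.1 _ h2).psd
      obtain ⟨ι, hι, Ψ, h1⟩ := h1
      exact ⟨ι, hι, fun x => Ψ (v x), fun x y => h1 _ _ (hv x) (hv y)⟩
    · simp only [hk, if_false]
      exact psdK_zero
  feat k hk := by
    obtain ⟨i, hi, rfl⟩ := mem_lev.1 hk
    have h0 : (0 : ℤ) ≤ (i : ℤ) ∧ (i : ℤ) ≤ L + 1 := ⟨by omega, by omega⟩
    have h0' : (0 : ℤ) ≤ (i : ℤ) ∧ (i : ℤ) ≤ L := ⟨by omega, by omega⟩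
    simp only [h0, h0', and_self, if_true, Int.toNat_natCast]
    obtain ⟨ι, hι, Ψ, Q, h1, h2, h3⟩ := hK.1 i hi
    exact ⟨ι, hι, fun x => Ψ (v x), Q, fun x y => h1 _ _ (hv x) (hv y), fun x => h2 _ (hv x), h3⟩
  diagP k hk x := by
    obtain ⟨i, hi, rfl⟩ := mem_lev.1 hk
    have c1 : (0 : ℤ) ≤ (i : ℤ) ∧ (i : ℤ) ≤ L + 1 := ⟨by omega, by omega⟩
    rw [if_pos c1, Int.toNat_natCast, hv]
    exact hK.2.2.2.2.1 i hi

end Pool.Agent.H58.BL
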