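import Pool.Agent.H58.BL.Asym

/-!
# The numerical data for the dimensions 1, ..., 16 (generated by a script)
-/

set_option autoImplicit false
set_option exponentiation.threshold 4000

open Finset

namespace Pool.Agent.H58.BL

lemma logb_le_of {x : ℝ} (c a b : ℕ) (hx : 0 < x) (hb : 0 < b) (h : x ^ b ≤ ((2 : ℝ) ^ c) ^ a) :
    Real.logb 2 x ≤ (c * a : ℝ) / b := by
  have h1 : Real.logb 2 (x ^ b) ≤ Real.logb 2 (((2 : ℝ) ^ c) ^ a) :=
    Real.logb_le_logb_of_le one_lt_two (by positivity) h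
  rw [← pow_mul, Real.logb_pow, Real.logb_pow, Real.logb_self_eq_one one_lt_two] at h1
  push_cast at h1
  rw [le_div_iff₀ (by exact_mod_cast hb)]
  linarith

/-- dimension 1 -/
noncomputable def q1 : ℕ → ℝ
  | 0 => 93301 / 100000
  | 1 => 6699 / 100000
  | _ => 0

theorem num1 : NumOK 1 1 q1 (0.36518 * 1) := by
  have A0 : aN 1 0 * bN 1 1 = 1 := by norm_num [aN, bN]
  have H0 : hd 1 0 = 1 := by norm_num [hd]
  have H1 : hd 1 1 = 1 := by norm_num [hd]
  have e0 : (25000467 / 100000000 : ℝ) ≤ √(q1 0 * q1 1 * (aN 1 0 * bN 1 1)) := by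
    rw [A0, Real.le_sqrt' (by norm_num)]
    norm_num [q1]
  have f0 : q1 0 * Real.logb 2 (hd 1 0 / q1 0) ≤ 279903 / 2900000 := by
    have x0 : hd 1 0 / q1 0 = 100000 / 93301 := by rw [H0]; norm_num [q1]
    have y0 := logb_le_of (x := 100000 / 93301) 1 3 29 (by norm_num) (by norm_num) (by norm_num)
    rw [x0]
    have z0 : q1 0 = 93301 / 100000 := by norm_num [q1]
    rw [z0]
    refine (mul_le_mul_of_nonneg_left y0 (by norm_num)).trans (by norm_num)
  have f1 : q1 1 * Real.logb 2 (hd 1 1 / q1 1) ≤ 261261 / 1000000 := by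
    have x1 : hd 1 1 / q1 1 = 100000 / 6699 := by rw [H1]; norm_num [q1]
    have y1 := logb_le_of (x := 100000 / 6699) 1 39 10 (by norm_num) (by norm_num) (by norm_num)
    rw [x1]
    have z1 : q1 1 = 6699 / 100000 := by norm_num [q1]
    rw [z1]
    refine (mul_le_mul_of_nonneg_left y1 (by norm_num)).trans (by norm_num)
  refine ⟨?_, ?_, ?_, ?_⟩
  · intro k hk
    interval_cases k <;> norm_num [q1]
  · norm_num [sum_range_succ, q1]
  · have s : ∑ k ∈ range 1, √(q1 k * q1 (k + 1) * (aN 1 k * bN 1 (k + 1))) =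
        √(q1 0 * q1 1 * (aN 1 0 * bN 1 1)) := by
      rw [sum_range_succ, sum_range_zero, zero_add]
    rw [s]
    linarith
  · have s : ∑ k ∈ range (1 + 1), q1 k * Real.logb 2 (hd 1 k / q1 k) =
        q1 0 * Real.logb 2 (hd 1 0 / q1 0) + q1 1 * Real.logb 2 (hd 1 1 / q1 1) := by
      rw [sum_range_succ, sum_range_succ, sum_range_zero, zero_add]
    rw [s]
    linarith

/-- dimension 2 -/
noncomputable def q2 : ℕ → ℝ
  | 0 => 86191 / 100000
  | 1 => 13643 / 100000
  | 2 => 166 / 100000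
  | _ => 0

theorem num2 : NumOK 2 2 q2 (0.36518 * 2) := by
  have A0 : aN 2 0 * bN 2 1 = 1 / 2 := by norm_num [aN, bN]
  have A1 : aN 2 1 * bN 2 2 = 1 / 4 := by norm_num [aN, bN]
  have H0 : hd 2 0 = 1 := by norm_num [hd]
  have H1 : hd 2 1 = 2 := by norm_num [hd]
  have H2 : hd 2 2 = 2 := by norm_num [hd]
  have e0 : (24247719 / 100000000 : ℝ) ≤ √(q2 0 * q2 1 * (aN 2 0 * bN 2 1)) := by
    rw [A0, Real.le_sqrt' (by norm_num)]
    norm_num [q2]
  have e1 : (188113 / 25000000 : ℝ) ≤ √(q2 1 * q2 2 * (aN 2 1 * bN 2 2)) := by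
    rw [A1, Real.le_sqrt' (by norm_num)]
    norm_num [q2]
  have f0 : q2 0 * Real.logb 2 (hd 2 0 / q2 0) ≤ 10256729 / 55500000 := by
    have x0 : hd 2 0 / q2 0 = 100000 / 86191 := by rw [H0]; norm_num [q2]
    have y0 := logb_le_of (x := 100000 / 86191) 1 119 555 (by norm_num) (by norm_num) (by norm_num)
    rw [x0]
    have z0 : q2 0 = 86191 / 100000 := by norm_num [q2]
    rw [z0]
    refine (mul_le_mul_of_nonneg_left y0 (by norm_num)).trans (by norm_num)
  have f1 : q2 1 * Real.logb 2 (hd 2 1 / q2 1) ≤ 5443557 / 10300000 := by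
    have x1 : hd 2 1 / q2 1 = 200000 / 13643 := by rw [H1]; norm_num [q2]
    have y1 := logb_le_of (x := 200000 / 13643) 1 399 103 (by norm_num) (by norm_num) (by norm_num)
    rw [x1]
    have z1 : q2 1 = 13643 / 100000 := by norm_num [q2]
    rw [z1]
    refine (mul_le_mul_of_nonneg_left y1 (by norm_num)).trans (by norm_num)
  have f2 : q2 2 * Real.logb 2 (hd 2 2 / q2 2) ≤ 7221 / 425000 := by
    have x2 : hd 2 2 / q2 2 = 100000 / 83 := by rw [H2]; norm_num [q2]
    have y2 := logb_le_of (x := 100000 / 83) 1 174 17 (by norm_num) (by norm_num) (by norm_num)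
    rw [x2]
    have z2 : q2 2 = 83 / 50000 := by norm_num [q2]
    rw [z2]
    refine (mul_le_mul_of_nonneg_left y2 (by norm_num)).trans (by norm_num)
  refine ⟨?_, ?_, ?_, ?_⟩
  · intro k hk
    interval_cases k <;> norm_num [q2]
  · norm_num [sum_range_succ, q2]
  · have s : ∑ k ∈ range 2, √(q2 k * q2 (k + 1) * (aN 2 k * bN 2 (k + 1))) =
        √(q2 0 * q2 1 * (aN 2 0 * bN 2 1)) + √(q2 1 * q2 2 * (aN 2 1 * bN 2 2)) := by
      rw [sum_range_succ, sum_range_succ, sum_range_zero, zero_add]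
    rw [s]
    linarith
  · have s : ∑ k ∈ range (2 + 1), q2 k * Real.logb 2 (hd 2 k / q2 k) =
        q2 0 * Real.logb 2 (hd 2 0 / q2 0) + q2 1 * Real.logb 2 (hd 2 1 / q2 1) + q2 2 * Real.logb 2 (hd 2 2 / q2 2) := by
      rw [sum_range_succ, sum_range_succ, sum_range_succ, sum_range_zero, zero_add]
    rw [s]
    linarith

/-- dimension 3 -/
noncomputable def q3 : ℕ → ℝ
  | 0 => 79177 / 100000
  | 1 => 20101 / 100000
  | 2 => 722 / 100000
  | _ => 0

theorem num3 : NumOK 3 2 q3 (0.37768 * 3) := by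
  have A0 : aN 3 0 * bN 3 1 = 1 / 3 := by norm_num [aN, bN]
  have A1 : aN 3 1 * bN 3 2 = 4 / 15 := by norm_num [aN, bN]
  have H0 : hd 3 0 = 1 := by norm_num [hd]
  have H1 : hd 3 1 = 3 := by norm_num [hd]
  have H2 : hd 3 2 = 5 := by norm_num [hd]
  have e0 : (5758213 / 25000000 : ℝ) ≤ √(q3 0 * q3 1 * (aN 3 0 * bN 3 1)) := by
    rw [A0, Real.le_sqrt' (by norm_num)]
    norm_num [q3]
  have e1 : (98363 / 5000000 : ℝ) ≤ √(q3 1 * q3 2 * (aN 3 1 * bN 3 2)) := by
    rw [A1, Real.le_sqrt' (by norm_num)]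
    norm_num [q3]
  have f0 : q3 0 * Real.logb 2 (hd 3 0 / q3 0) ≤ 554239 / 2050000 := by
    have x0 : hd 3 0 / q3 0 = 100000 / 79177 := by rw [H0]; norm_num [q3]
    have y0 := logb_le_of (x := 100000 / 79177) 1 14 41 (by norm_num) (by norm_num) (by norm_num)
    rw [x0]
    have z0 : q3 0 = 79177 / 100000 := by norm_num [q3]
    rw [z0]
    refine (mul_le_mul_of_nonneg_left y0 (by norm_num)).trans (by norm_num)
  have f1 : q3 1 * Real.logb 2 (hd 3 1 / q3 1) ≤ 783939 / 1000000 := by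
    have x1 : hd 3 1 / q3 1 = 300000 / 20101 := by rw [H1]; norm_num [q3]
    have y1 := logb_le_of (x := 300000 / 20101) 1 39 10 (by norm_num) (by norm_num) (by norm_num)
    rw [x1]
    have z1 : q3 1 = 20101 / 100000 := by norm_num [q3]
    rw [z1]
    refine (mul_le_mul_of_nonneg_left y1 (by norm_num)).trans (by norm_num)
  have f2 : q3 2 * Real.logb 2 (hd 3 2 / q3 2) ≤ 6859 / 100000 := by
    have x2 : hd 3 2 / q3 2 = 250000 / 361 := by rw [H2]; norm_num [q3]
    have y2 := logb_le_of (x := 250000 / 361) 1 19 2 (by norm_num) (by norm_num) (by norm_num)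
    rw [x2]
    have z2 : q3 2 = 361 / 50000 := by norm_num [q3]
    rw [z2]
    refine (mul_le_mul_of_nonneg_left y2 (by norm_num)).trans (by norm_num)
  refine ⟨?_, ?_, ?_, ?_⟩
  · intro k hk
    interval_cases k <;> norm_num [q3]
  · norm_num [sum_range_succ, q3]
  · have s : ∑ k ∈ range 2, √(q3 k * q3 (k + 1) * (aN 3 k * bN 3 (k + 1))) =
        √(q3 0 * q3 1 * (aN 3 0 * bN 3 1)) + √(q3 1 * q3 2 * (aN 3 1 * bN 3 2)) := by
      rw [sum_range_succ, sum_range_succ, sum_range_zero, zero_add]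
    rw [s]
    linarith
  · have s : ∑ k ∈ range (2 + 1), q3 k * Real.logb 2 (hd 3 k / q3 k) =
        q3 0 * Real.logb 2 (hd 3 0 / q3 0) + q3 1 * Real.logb 2 (hd 3 1 / q3 1) + q3 2 * Real.logb 2 (hd 3 2 / q3 2) := by
      rw [sum_range_succ, sum_range_succ, sum_range_succ, sum_range_zero, zero_add]
    rw [s]
    linarith

/-- dimension 4 -/
noncomputable def q4 : ℕ → ℝ
  | 0 => 72816 / 100000
  | 1 => 25331 / 100000
  | 2 => 1807 / 100000
  | 3 => 46 / 100000
  | _ => 0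

theorem num4 : NumOK 4 3 q4 (0.37768 * 4) := by
  have A0 : aN 4 0 * bN 4 1 = 1 / 4 := by norm_num [aN, bN]
  have A1 : aN 4 1 * bN 4 2 = 1 / 4 := by norm_num [aN, bN]
  have A2 : aN 4 2 * bN 4 3 = 1 / 4 := by norm_num [aN, bN]
  have H0 : hd 4 0 = 1 := by norm_num [hd]
  have H1 : hd 4 1 = 4 := by norm_num [hd]
  have H2 : hd 4 2 = 9 := by norm_num [hd]
  have H3 : hd 4 3 = 16 := by norm_num [hd]
  have e0 : (21473833 / 100000000 : ℝ) ≤ √(q4 0 * q4 1 * (aN 4 0 * bN 4 1)) := by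
    rw [A0, Real.le_sqrt' (by norm_num)]
    norm_num [q4]
  have e1 : (3382791 / 100000000 : ℝ) ≤ √(q4 1 * q4 2 * (aN 4 1 * bN 4 2)) := by
    rw [A1, Real.le_sqrt' (by norm_num)]
    norm_num [q4]
  have e2 : (72077 / 50000000 : ℝ) ≤ √(q4 2 * q4 3 * (aN 4 2 * bN 4 3)) := by
    rw [A2, Real.le_sqrt' (by norm_num)]
    norm_num [q4]
  have f0 : q4 0 * Real.logb 2 (hd 4 0 / q4 0) ≤ 69782 / 209375 := by
    have x0 : hd 4 0 / q4 0 = 6250 / 4551 := by rw [H0]; norm_num [q4]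
    have y0 := logb_le_of (x := 6250 / 4551) 1 92 201 (by norm_num) (by norm_num) (by norm_num)
    rw [x0]
    have z0 : q4 0 = 4551 / 6250 := by norm_num [q4]
    rw [z0]
    refine (mul_le_mul_of_nonneg_left y0 (by norm_num)).trans (by norm_num)
  have f1 : q4 1 * Real.logb 2 (hd 4 1 / q4 1) ≤ 5344841 / 5300000 := by
    have x1 : hd 4 1 / q4 1 = 400000 / 25331 := by rw [H1]; norm_num [q4]
    have y1 := logb_le_of (x := 400000 / 25331) 1 211 53 (by norm_num) (by norm_num) (by norm_num)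
    rw [x1]
    have z1 : q4 1 = 25331 / 100000 := by norm_num [q4]
    rw [z1]
    refine (mul_le_mul_of_nonneg_left y1 (by norm_num)).trans (by norm_num)
  have f2 : q4 2 * Real.logb 2 (hd 4 2 / q4 2) ≤ 32387 / 200000 := by
    have x2 : hd 4 2 / q4 2 = 900000 / 1807 := by rw [H2]; norm_num [q4]
    have y2 := logb_le_of (x := 900000 / 1807) 1 233 26 (by norm_num) (by norm_num) (by norm_num)
    rw [x2]
    have z2 : q4 2 = 1807 / 100000 := by norm_num [q4]
    rw [z2]
    refine (mul_le_mul_of_nonneg_left y2 (by norm_num)).trans (by norm_num)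
  have f3 : q4 3 * Real.logb 2 (hd 4 3 / q4 3) ≤ 1219 / 175000 := by
    have x3 : hd 4 3 / q4 3 = 800000 / 23 := by rw [H3]; norm_num [q4]
    have y3 := logb_le_of (x := 800000 / 23) 1 106 7 (by norm_num) (by norm_num) (by norm_num)
    rw [x3]
    have z3 : q4 3 = 23 / 50000 := by norm_num [q4]
    rw [z3]
    refine (mul_le_mul_of_nonneg_left y3 (by norm_num)).trans (by norm_num)
  refine ⟨?_, ?_, ?_, ?_⟩
  · intro k hk
    interval_cases k <;> norm_num [q4]
  · norm_num [sum_range_succ, q4]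
  · have s : ∑ k ∈ range 3, √(q4 k * q4 (k + 1) * (aN 4 k * bN 4 (k + 1))) =
        √(q4 0 * q4 1 * (aN 4 0 * bN 4 1)) + √(q4 1 * q4 2 * (aN 4 1 * bN 4 2)) + √(q4 2 * q4 3 * (aN 4 2 * bN 4 3)) := by
      rw [sum_range_succ, sum_range_succ, sum_range_succ, sum_range_zero, zero_add]
    rw [s]
    linarith
  · have s : ∑ k ∈ range (3 + 1), q4 k * Real.logb 2 (hd 4 k / q4 k) =
        q4 0 * Real.logb 2 (hd 4 0 / q4 0) + q4 1 * Real.logb 2 (hd 4 1 / q4 1) + q4 2 * Real.logb 2 (hd 4 2 / q4 2) + q4 3 * Real.logb 2 (hd 4 3 / q4 3) := by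
      rw [sum_range_succ, sum_range_succ, sum_range_succ, sum_range_succ, sum_range_zero, zero_add]
    rw [s]
    linarith

/-- dimension 5 -/
noncomputable def q5 : ℕ → ℝ
  | 0 => 65620 / 100000
  | 1 => 31191 / 100000
  | 2 => 3189 / 100000
  | _ => 0

theorem num5 : NumOK 5 2 q5 (0.38798 * 5) := by
  have A0 : aN 5 0 * bN 5 1 = 1 / 5 := by norm_num [aN, bN]
  have A1 : aN 5 1 * bN 5 2 = 8 / 35 := by norm_num [aN, bN]
  have H0 : hd 5 0 = 1 := by norm_num [hd]
  have H1 : hd 5 1 = 5 := by norm_num [hd]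
  have H2 : hd 5 2 = 14 := by norm_num [hd]
  have e0 : (632263 / 3125000 : ℝ) ≤ √(q5 0 * q5 1 * (aN 5 0 * bN 5 1)) := by
    rw [A0, Real.le_sqrt' (by norm_num)]
    norm_num [q5]
  have e1 : (2384091 / 50000000 : ℝ) ≤ √(q5 1 * q5 2 * (aN 5 1 * bN 5 2)) := by
    rw [A1, Real.le_sqrt' (by norm_num)]
    norm_num [q5]
  have f0 : q5 0 * Real.logb 2 (hd 5 0 / q5 0) ≤ 36091 / 90000 := by
    have x0 : hd 5 0 / q5 0 = 5000 / 3281 := by rw [H0]; norm_num [q5]
    have y0 := logb_le_of (x := 5000 / 3281) 1 11 18 (by norm_num) (by norm_num) (by norm_num)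
    rw [x0]
    have z0 : q5 0 = 3281 / 5000 := by norm_num [q5]
    rw [z0]
    refine (mul_le_mul_of_nonneg_left y0 (by norm_num)).trans (by norm_num)
  have f1 : q5 1 * Real.logb 2 (hd 5 1 / q5 1) ≤ 250371 / 200000 := by
    have x1 : hd 5 1 / q5 1 = 500000 / 31191 := by rw [H1]; norm_num [q5]
    have y1 := logb_le_of (x := 500000 / 31191) 1 297 74 (by norm_num) (by norm_num) (by norm_num)
    rw [x1]
    have z1 : q5 1 = 31191 / 100000 := by norm_num [q5]
    rw [z1]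
    refine (mul_le_mul_of_nonneg_left y1 (by norm_num)).trans (by norm_num)
  have f2 : q5 2 * Real.logb 2 (hd 5 2 / q5 2) ≤ 35079 / 125000 := by
    have x2 : hd 5 2 / q5 2 = 1400000 / 3189 := by rw [H2]; norm_num [q5]
    have y2 := logb_le_of (x := 1400000 / 3189) 1 44 5 (by norm_num) (by norm_num) (by norm_num)
    rw [x2]
    have z2 : q5 2 = 3189 / 100000 := by norm_num [q5]
    rw [z2]
    refine (mul_le_mul_of_nonneg_left y2 (by norm_num)).trans (by norm_num)
  refine ⟨?_, ?_, ?_, ?_⟩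
  · intro k hk
    interval_cases k <;> norm_num [q5]
  · norm_num [sum_range_succ, q5]
  · have s : ∑ k ∈ range 2, √(q5 k * q5 (k + 1) * (aN 5 k * bN 5 (k + 1))) =
        √(q5 0 * q5 1 * (aN 5 0 * bN 5 1)) + √(q5 1 * q5 2 * (aN 5 1 * bN 5 2)) := by
      rw [sum_range_succ, sum_range_succ, sum_range_zero, zero_add]
    rw [s]
    linarith
  · have s : ∑ k ∈ range (2 + 1), q5 k * Real.logb 2 (hd 5 k / q5 k) =
        q5 0 * Real.logb 2 (hd 5 0 / q5 0) + q5 1 * Real.logb 2 (hd 5 1 / q5 1) + q5 2 * Real.logb 2 (hd 5 2 / q5 2) := by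
      rw [sum_range_succ, sum_range_succ, sum_range_succ, sum_range_zero, zero_add]
    rw [s]
    linarith

/-- dimension 6 -/
noncomputable def q6 : ℕ → ℝ
  | 0 => 61203 / 100000
  | 1 => 33398 / 100000
  | 2 => 5099 / 100000
  | 3 => 300 / 100000
  | _ => 0

theorem num6 : NumOK 6 3 q6 (0.38798 * 6) := by
  have A0 : aN 6 0 * bN 6 1 = 1 / 6 := by norm_num [aN, bN]
  have A1 : aN 6 1 * bN 6 2 = 5 / 24 := by norm_num [aN, bN]
  have A2 : aN 6 2 * bN 6 3 = 9 / 40 := by norm_num [aN, bN]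
  have H0 : hd 6 0 = 1 := by norm_num [hd]
  have H1 : hd 6 1 = 6 := by norm_num [hd]
  have H2 : hd 6 2 = 20 := by norm_num [hd]
  have H3 : hd 6 3 = 50 := by norm_num [hd]
  have e0 : (9228709 / 50000000 : ℝ) ≤ √(q6 0 * q6 1 * (aN 6 0 * bN 6 1)) := by
    rw [A0, Real.le_sqrt' (by norm_num)]
    norm_num [q6]
  have e1 : (744547 / 12500000 : ℝ) ≤ √(q6 1 * q6 2 * (aN 6 1 * bN 6 2)) := by
    rw [A1, Real.le_sqrt' (by norm_num)]
    norm_num [q6]
  have e2 : (58667 / 10000000 : ℝ) ≤ √(q6 2 * q6 3 * (aN 6 2 * bN 6 3)) := by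
    rw [A2, Real.le_sqrt' (by norm_num)]
    norm_num [q6]
  have f0 : q6 0 * Real.logb 2 (hd 6 0 / q6 0) ≤ 61203 / 140000 := by
    have x0 : hd 6 0 / q6 0 = 100000 / 61203 := by rw [H0]; norm_num [q6]
    have y0 := logb_le_of (x := 100000 / 61203) 1 5 7 (by norm_num) (by norm_num) (by norm_num)
    rw [x0]
    have z0 : q6 0 = 61203 / 100000 := by norm_num [q6]
    rw [z0]
    refine (mul_le_mul_of_nonneg_left y0 (by norm_num)).trans (by norm_num)
  have f1 : q6 1 * Real.logb 2 (hd 6 1 / q6 1) ≤ 1185629 / 850000 := by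
    have x1 : hd 6 1 / q6 1 = 300000 / 16699 := by rw [H1]; norm_num [q6]
    have y1 := logb_le_of (x := 300000 / 16699) 1 71 17 (by norm_num) (by norm_num) (by norm_num)
    rw [x1]
    have z1 : q6 1 = 16699 / 50000 := by norm_num [q6]
    rw [z1]
    refine (mul_le_mul_of_nonneg_left y1 (by norm_num)).trans (by norm_num)
  have f2 : q6 2 * Real.logb 2 (hd 6 2 / q6 2) ≤ 66287 / 150000 := by
    have x2 : hd 6 2 / q6 2 = 2000000 / 5099 := by rw [H2]; norm_num [q6]
    have y2 := logb_le_of (x := 2000000 / 5099) 1 26 3 (by norm_num) (by norm_num) (by norm_num)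
    rw [x2]
    have z2 : q6 2 = 5099 / 100000 := by norm_num [q6]
    rw [z2]
    refine (mul_le_mul_of_nonneg_left y2 (by norm_num)).trans (by norm_num)
  have f3 : q6 3 * Real.logb 2 (hd 6 3 / q6 3) ≤ 9 / 200 := by
    have x3 : hd 6 3 / q6 3 = 50000 / 3 := by rw [H3]; norm_num [q6]
    have y3 := logb_le_of (x := 50000 / 3) 1 15 1 (by norm_num) (by norm_num) (by norm_num)
    rw [x3]
    have z3 : q6 3 = 3 / 1000 := by norm_num [q6]
    rw [z3]
    refine (mul_le_mul_of_nonneg_left y3 (by norm_num)).trans (by norm_num)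
  refine ⟨?_, ?_, ?_, ?_⟩
  · intro k hk
    interval_cases k <;> norm_num [q6]
  · norm_num [sum_range_succ, q6]
  · have s : ∑ k ∈ range 3, √(q6 k * q6 (k + 1) * (aN 6 k * bN 6 (k + 1))) =
        √(q6 0 * q6 1 * (aN 6 0 * bN 6 1)) + √(q6 1 * q6 2 * (aN 6 1 * bN 6 2)) + √(q6 2 * q6 3 * (aN 6 2 * bN 6 3)) := by
      rw [sum_range_succ, sum_range_succ, sum_range_succ, sum_range_zero, zero_add]
    rw [s]
    linarith
  · have s : ∑ k ∈ range (3 + 1), q6 k * Real.logb 2 (hd 6 k / q6 k) =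
        q6 0 * Real.logb 2 (hd 6 0 / q6 0) + q6 1 * Real.logb 2 (hd 6 1 / q6 1) + q6 2 * Real.logb 2 (hd 6 2 / q6 2) + q6 3 * Real.logb 2 (hd 6 3 / q6 3) := by
      rw [sum_range_succ, sum_range_succ, sum_range_succ, sum_range_succ, sum_range_zero, zero_add]
    rw [s]
    linarith

/-- dimension 7 -/
noncomputable def q7 : ℕ → ℝ
  | 0 => 55951 / 100000
  | 1 => 36329 / 100000
  | 2 => 7165 / 100000
  | 3 => 555 / 100000
  | _ => 0

theorem num7 : NumOK 7 3 q7 (0.38798 * 7) := by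
  have A0 : aN 7 0 * bN 7 1 = 1 / 7 := by norm_num [aN, bN]
  have A1 : aN 7 1 * bN 7 2 = 4 / 21 := by norm_num [aN, bN]
  have A2 : aN 7 2 * bN 7 3 = 7 / 33 := by norm_num [aN, bN]
  have H0 : hd 7 0 = 1 := by norm_num [hd]
  have H1 : hd 7 1 = 7 := by norm_num [hd]
  have H2 : hd 7 2 = 27 := by norm_num [hd]
  have H3 : hd 7 3 = 77 := by norm_num [hd]
  have e0 : (2130059 / 12500000 : ℝ) ≤ √(q7 0 * q7 1 * (aN 7 0 * bN 7 1)) := by
    rw [A0, Real.le_sqrt' (by norm_num)]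
    norm_num [q7]
  have e1 : (7041337 / 100000000 : ℝ) ≤ √(q7 1 * q7 2 * (aN 7 1 * bN 7 2)) := by
    rw [A1, Real.le_sqrt' (by norm_num)]
    norm_num [q7]
  have e2 : (918431 / 100000000 : ℝ) ≤ √(q7 2 * q7 3 * (aN 7 2 * bN 7 3)) := by
    rw [A2, Real.le_sqrt' (by norm_num)]
    norm_num [q7]
  have f0 : q7 0 * Real.logb 2 (hd 7 0 / q7 0) ≤ 1174971 / 2500000 := by
    have x0 : hd 7 0 / q7 0 = 100000 / 55951 := by rw [H0]; norm_num [q7]
    have y0 := logb_le_of (x := 100000 / 55951) 1 21 25 (by norm_num) (by norm_num) (by norm_num)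
    rw [x0]
    have z0 : q7 0 = 55951 / 100000 := by norm_num [q7]
    rw [z0]
    refine (mul_le_mul_of_nonneg_left y0 (by norm_num)).trans (by norm_num)
  have f1 : q7 1 * Real.logb 2 (hd 7 1 / q7 1) ≤ 4032519 / 2600000 := by
    have x1 : hd 7 1 / q7 1 = 700000 / 36329 := by rw [H1]; norm_num [q7]
    have y1 := logb_le_of (x := 700000 / 36329) 1 111 26 (by norm_num) (by norm_num) (by norm_num)
    rw [x1]
    have z1 : q7 1 = 36329 / 100000 := by norm_num [q7]
    rw [z1]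
    refine (mul_le_mul_of_nonneg_left y1 (by norm_num)).trans (by norm_num)
  have f2 : q7 2 * Real.logb 2 (hd 7 2 / q7 2) ≤ 4299 / 7000 := by
    have x2 : hd 7 2 / q7 2 = 540000 / 1433 := by rw [H2]; norm_num [q7]
    have y2 := logb_le_of (x := 540000 / 1433) 1 60 7 (by norm_num) (by norm_num) (by norm_num)
    rw [x2]
    have z2 : q7 2 = 1433 / 20000 := by norm_num [q7]
    rw [z2]
    refine (mul_le_mul_of_nonneg_left y2 (by norm_num)).trans (by norm_num)
  have f3 : q7 3 * Real.logb 2 (hd 7 3 / q7 3) ≤ 777 / 10000 := by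
    have x3 : hd 7 3 / q7 3 = 1540000 / 111 := by rw [H3]; norm_num [q7]
    have y3 := logb_le_of (x := 1540000 / 111) 1 14 1 (by norm_num) (by norm_num) (by norm_num)
    rw [x3]
    have z3 : q7 3 = 111 / 20000 := by norm_num [q7]
    rw [z3]
    refine (mul_le_mul_of_nonneg_left y3 (by norm_num)).trans (by norm_num)
  refine ⟨?_, ?_, ?_, ?_⟩
  · intro k hk
    interval_cases k <;> norm_num [q7]
  · norm_num [sum_range_succ, q7]
  · have s : ∑ k ∈ range 3, √(q7 k * q7 (k + 1) * (aN 7 k * bN 7 (k + 1))) =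
        √(q7 0 * q7 1 * (aN 7 0 * bN 7 1)) + √(q7 1 * q7 2 * (aN 7 1 * bN 7 2)) + √(q7 2 * q7 3 * (aN 7 2 * bN 7 3)) := by
      rw [sum_range_succ, sum_range_succ, sum_range_succ, sum_range_zero, zero_add]
    rw [s]
    linarith
  · have s : ∑ k ∈ range (3 + 1), q7 k * Real.logb 2 (hd 7 k / q7 k) =
        q7 0 * Real.logb 2 (hd 7 0 / q7 0) + q7 1 * Real.logb 2 (hd 7 1 / q7 1) + q7 2 * Real.logb 2 (hd 7 2 / q7 2) + q7 3 * Real.logb 2 (hd 7 3 / q7 3) := by
      rw [sum_range_succ, sum_range_succ, sum_range_succ, sum_range_succ, sum_range_zero, zero_add]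
    rw [s]
    linarith

/-- dimension 8 -/
noncomputable def q8 : ℕ → ℝ
  | 0 => 51716 / 100000
  | 1 => 37971 / 100000
  | 2 => 9198 / 100000
  | 3 => 1047 / 100000
  | 4 => 66 / 100000
  | 5 => 2 / 100000
  | _ => 0

theorem num8 : NumOK 8 5 q8 (0.38798 * 8) := by
  have A0 : aN 8 0 * bN 8 1 = 1 / 8 := by norm_num [aN, bN]
  have A1 : aN 8 1 * bN 8 2 = 7 / 40 := by norm_num [aN, bN]
  have A2 : aN 8 2 * bN 8 3 = 1 / 5 := by norm_num [aN, bN]
  have A3 : aN 8 3 * bN 8 4 = 3 / 14 := by norm_num [aN, bN]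
  have A4 : aN 8 4 * bN 8 5 = 25 / 112 := by norm_num [aN, bN]
  have H0 : hd 8 0 = 1 := by norm_num [hd]
  have H1 : hd 8 1 = 8 := by norm_num [hd]
  have H2 : hd 8 2 = 35 := by norm_num [hd]
  have H3 : hd 8 3 = 112 := by norm_num [hd]
  have H4 : hd 8 4 = 294 := by norm_num [hd]
  have H5 : hd 8 5 = 672 := by norm_num [hd]
  have e0 : (626691 / 4000000 : ℝ) ≤ √(q8 0 * q8 1 * (aN 8 0 * bN 8 1)) := by
    rw [A0, Real.le_sqrt' (by norm_num)]
    norm_num [q8]
  have e1 : (7817929 / 100000000 : ℝ) ≤ √(q8 1 * q8 2 * (aN 8 1 * bN 8 2)) := by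
    rw [A1, Real.le_sqrt' (by norm_num)]
    norm_num [q8]
  have e2 : (693913 / 50000000 : ℝ) ≤ √(q8 2 * q8 3 * (aN 8 2 * bN 8 3)) := by
    rw [A2, Real.le_sqrt' (by norm_num)]
    norm_num [q8]
  have e3 : (60843 / 50000000 : ℝ) ≤ √(q8 3 * q8 4 * (aN 8 3 * bN 8 4)) := by
    rw [A3, Real.le_sqrt' (by norm_num)]
    norm_num [q8]
  have e4 : (1357 / 25000000 : ℝ) ≤ √(q8 4 * q8 5 * (aN 8 4 * bN 8 5)) := by
    rw [A4, Real.le_sqrt' (by norm_num)]
    norm_num [q8]
  have f0 : q8 0 * Real.logb 2 (hd 8 0 / q8 0) ≤ 633521 / 1287500 := by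
    have x0 : hd 8 0 / q8 0 = 25000 / 12929 := by rw [H0]; norm_num [q8]
    have y0 := logb_le_of (x := 25000 / 12929) 1 98 103 (by norm_num) (by norm_num) (by norm_num)
    rw [x0]
    have z0 : q8 0 = 12929 / 25000 := by norm_num [q8]
    rw [z0]
    refine (mul_le_mul_of_nonneg_left y0 (by norm_num)).trans (by norm_num)
  have f1 : q8 1 * Real.logb 2 (hd 8 1 / q8 1) ≤ 11353329 / 6800000 := by
    have x1 : hd 8 1 / q8 1 = 800000 / 37971 := by rw [H1]; norm_num [q8]
    have y1 := logb_le_of (x := 800000 / 37971) 1 299 68 (by norm_num) (by norm_num) (by norm_num)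
    rw [x1]
    have z1 : q8 1 = 37971 / 100000 := by norm_num [q8]
    rw [z1]
    refine (mul_le_mul_of_nonneg_left y1 (by norm_num)).trans (by norm_num)
  have f2 : q8 2 * Real.logb 2 (hd 8 2 / q8 2) ≤ 1261659 / 1600000 := by
    have x2 : hd 8 2 / q8 2 = 250000 / 657 := by rw [H2]; norm_num [q8]
    have y2 := logb_le_of (x := 250000 / 657) 1 823 96 (by norm_num) (by norm_num) (by norm_num)
    rw [x2]
    have z2 : q8 2 = 4599 / 50000 := by norm_num [q8]
    rw [z2]
    refine (mul_le_mul_of_nonneg_left y2 (by norm_num)).trans (by norm_num)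
  have f3 : q8 3 * Real.logb 2 (hd 8 3 / q8 3) ≤ 84109 / 600000 := by
    have x3 : hd 8 3 / q8 3 = 11200000 / 1047 := by rw [H3]; norm_num [q8]
    have y3 := logb_le_of (x := 11200000 / 1047) 1 241 18 (by norm_num) (by norm_num) (by norm_num)
    rw [x3]
    have z3 : q8 3 = 1047 / 100000 := by norm_num [q8]
    rw [z3]
    refine (mul_le_mul_of_nonneg_left y3 (by norm_num)).trans (by norm_num)
  have f4 : q8 4 * Real.logb 2 (hd 8 4 / q8 4) ≤ 1551 / 125000 := by
    have x4 : hd 8 4 / q8 4 = 4900000 / 11 := by rw [H4]; norm_num [q8]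
    have y4 := logb_le_of (x := 4900000 / 11) 1 94 5 (by norm_num) (by norm_num) (by norm_num)
    rw [x4]
    have z4 : q8 4 = 33 / 50000 := by norm_num [q8]
    rw [z4]
    refine (mul_le_mul_of_nonneg_left y4 (by norm_num)).trans (by norm_num)
  have f5 : q8 5 * Real.logb 2 (hd 8 5 / q8 5) ≤ 13 / 25000 := by
    have x5 : hd 8 5 / q8 5 = 33600000 := by rw [H5]; norm_num [q8]
    have y5 := logb_le_of (x := 33600000) 1 26 1 (by norm_num) (by norm_num) (by norm_num)
    rw [x5]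
    have z5 : q8 5 = 1 / 50000 := by norm_num [q8]
    rw [z5]
    refine (mul_le_mul_of_nonneg_left y5 (by norm_num)).trans (by norm_num)
  refine ⟨?_, ?_, ?_, ?_⟩
  · intro k hk
    interval_cases k <;> norm_num [q8]
  · norm_num [sum_range_succ, q8]
  · have s : ∑ k ∈ range 5, √(q8 k * q8 (k + 1) * (aN 8 k * bN 8 (k + 1))) =
        √(q8 0 * q8 1 * (aN 8 0 * bN 8 1)) + √(q8 1 * q8 2 * (aN 8 1 * bN 8 2)) + √(q8 2 * q8 3 * (aN 8 2 * bN 8 3)) + √(q8 3 * q8 4 * (aN 8 3 * bN 8 4)) + √(q8 4 * q8 5 * (aN 8 4 * bN 8 5)) := by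
      rw [sum_range_succ, sum_range_succ, sum_range_succ, sum_range_succ, sum_range_succ, sum_range_zero, zero_add]
    rw [s]
    linarith
  · have s : ∑ k ∈ range (5 + 1), q8 k * Real.logb 2 (hd 8 k / q8 k) =
        q8 0 * Real.logb 2 (hd 8 0 / q8 0) + q8 1 * Real.logb 2 (hd 8 1 / q8 1) + q8 2 * Real.logb 2 (hd 8 2 / q8 2) + q8 3 * Real.logb 2 (hd 8 3 / q8 3) + q8 4 * Real.logb 2 (hd 8 4 / q8 4) + q8 5 * Real.logb 2 (hd 8 5 / q8 5) := by
      rw [sum_range_succ, sum_range_succ, sum_range_succ, sum_range_succ, sum_range_succ, sum_range_succ, sum_range_zero, zero_add]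
    rw [s]
    linarith

/-- dimension 9 -/
noncomputable def q9 : ℕ → ℝ
  | 0 => 47355 / 100000
  | 1 => 39531 / 100000
  | 2 => 11421 / 100000
  | 3 => 1583 / 100000
  | 4 => 110 / 100000
  | _ => 0

theorem num9 : NumOK 9 4 q9 (0.39478 * 9) := by
  have A0 : aN 9 0 * bN 9 1 = 1 / 9 := by norm_num [aN, bN]
  have A1 : aN 9 1 * bN 9 2 = 16 / 99 := by norm_num [aN, bN]
  have A2 : aN 9 2 * bN 9 3 = 27 / 143 := by norm_num [aN, bN]
  have A3 : aN 9 3 * bN 9 4 = 8 / 39 := by norm_num [aN, bN]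
  have H0 : hd 9 0 = 1 := by norm_num [hd]
  have H1 : hd 9 1 = 9 := by norm_num [hd]
  have H2 : hd 9 2 = 44 := by norm_num [hd]
  have H3 : hd 9 3 = 156 := by norm_num [hd]
  have H4 : hd 9 4 = 450 := by norm_num [hd]
  have e0 : (1802771 / 12500000 : ℝ) ≤ √(q9 0 * q9 1 * (aN 9 0 * bN 9 1)) := by
    rw [A0, Real.le_sqrt' (by norm_num)]
    norm_num [q9]
  have e1 : (4271037 / 50000000 : ℝ) ≤ √(q9 1 * q9 2 * (aN 9 1 * bN 9 2)) := by
    rw [A1, Real.le_sqrt' (by norm_num)]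
    norm_num [q9]
  have e2 : (1847593 / 100000000 : ℝ) ≤ √(q9 2 * q9 3 * (aN 9 2 * bN 9 3)) := by
    rw [A2, Real.le_sqrt' (by norm_num)]
    norm_num [q9]
  have e3 : (94497 / 50000000 : ℝ) ≤ √(q9 3 * q9 4 * (aN 9 3 * bN 9 4)) := by
    rw [A3, Real.le_sqrt' (by norm_num)]
    norm_num [q9]
  have f0 : q9 0 * Real.logb 2 (hd 9 0 / q9 0) ≤ 2583 / 5000 := by
    have x0 : hd 9 0 / q9 0 = 20000 / 9471 := by rw [H0]; norm_num [q9]
    have y0 := logb_le_of (x := 20000 / 9471) 1 12 11 (by norm_num) (by norm_num) (by norm_num)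
    rw [x0]
    have z0 : q9 0 = 9471 / 20000 := by norm_num [q9]
    rw [z0]
    refine (mul_le_mul_of_nonneg_left y0 (by norm_num)).trans (by norm_num)
  have f1 : q9 1 * Real.logb 2 (hd 9 1 / q9 1) ≤ 1699833 / 950000 := by
    have x1 : hd 9 1 / q9 1 = 300000 / 13177 := by rw [H1]; norm_num [q9]
    have y1 := logb_le_of (x := 300000 / 13177) 1 86 19 (by norm_num) (by norm_num) (by norm_num)
    rw [x1]
    have z1 : q9 1 = 39531 / 100000 := by norm_num [q9]
    rw [z1]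
    refine (mul_le_mul_of_nonneg_left y1 (by norm_num)).trans (by norm_num)
  have f2 : q9 2 * Real.logb 2 (hd 9 2 / q9 2) ≤ 491103 / 500000 := by
    have x2 : hd 9 2 / q9 2 = 4400000 / 11421 := by rw [H2]; norm_num [q9]
    have y2 := logb_le_of (x := 4400000 / 11421) 1 43 5 (by norm_num) (by norm_num) (by norm_num)
    rw [x2]
    have z2 : q9 2 = 11421 / 100000 := by norm_num [q9]
    rw [z2]
    refine (mul_le_mul_of_nonneg_left y2 (by norm_num)).trans (by norm_num)
  have f3 : q9 3 * Real.logb 2 (hd 9 3 / q9 3) ≤ 42741 / 200000 := by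
    have x3 : hd 9 3 / q9 3 = 15600000 / 1583 := by rw [H3]; norm_num [q9]
    have y3 := logb_le_of (x := 15600000 / 1583) 1 27 2 (by norm_num) (by norm_num) (by norm_num)
    rw [x3]
    have z3 : q9 3 = 1583 / 100000 := by norm_num [q9]
    rw [z3]
    refine (mul_le_mul_of_nonneg_left y3 (by norm_num)).trans (by norm_num)
  have f4 : q9 4 * Real.logb 2 (hd 9 4 / q9 4) ≤ 209 / 10000 := by
    have x4 : hd 9 4 / q9 4 = 4500000 / 11 := by rw [H4]; norm_num [q9]
    have y4 := logb_le_of (x := 4500000 / 11) 1 19 1 (by norm_num) (by norm_num) (by norm_num)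
    rw [x4]
    have z4 : q9 4 = 11 / 10000 := by norm_num [q9]
    rw [z4]
    refine (mul_le_mul_of_nonneg_left y4 (by norm_num)).trans (by norm_num)
  refine ⟨?_, ?_, ?_, ?_⟩
  · intro k hk
    interval_cases k <;> norm_num [q9]
  · norm_num [sum_range_succ, q9]
  · have s : ∑ k ∈ range 4, √(q9 k * q9 (k + 1) * (aN 9 k * bN 9 (k + 1))) =
        √(q9 0 * q9 1 * (aN 9 0 * bN 9 1)) + √(q9 1 * q9 2 * (aN 9 1 * bN 9 2)) + √(q9 2 * q9 3 * (aN 9 2 * bN 9 3)) + √(q9 3 * q9 4 * (aN 9 3 * bN 9 4)) := by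
      rw [sum_range_succ, sum_range_succ, sum_range_succ, sum_range_succ, sum_range_zero, zero_add]
    rw [s]
    linarith
  · have s : ∑ k ∈ range (4 + 1), q9 k * Real.logb 2 (hd 9 k / q9 k) =
        q9 0 * Real.logb 2 (hd 9 0 / q9 0) + q9 1 * Real.logb 2 (hd 9 1 / q9 1) + q9 2 * Real.logb 2 (hd 9 2 / q9 2) + q9 3 * Real.logb 2 (hd 9 3 / q9 3) + q9 4 * Real.logb 2 (hd 9 4 / q9 4) := by
      rw [sum_range_succ, sum_range_succ, sum_range_succ, sum_range_succ, sum_range_succ, sum_range_zero, zero_add]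
    rw [s]
    linarith

/-- dimension 10 -/
noncomputable def q10 : ℕ → ℝ
  | 0 => 43362 / 100000
  | 1 => 40559 / 100000
  | 2 => 13642 / 100000
  | 3 => 2252 / 100000
  | 4 => 185 / 100000
  | _ => 0

theorem num10 : NumOK 10 4 q10 (0.39478 * 10) := by
  have A0 : aN 10 0 * bN 10 1 = 1 / 10 := by norm_num [aN, bN]
  have A1 : aN 10 1 * bN 10 2 = 3 / 20 := by norm_num [aN, bN]
  have A2 : aN 10 2 * bN 10 3 = 5 / 28 := by norm_num [aN, bN]
  have A3 : aN 10 3 * bN 10 4 = 11 / 56 := by norm_num [aN, bN]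
  have H0 : hd 10 0 = 1 := by norm_num [hd]
  have H1 : hd 10 1 = 10 := by norm_num [hd]
  have H2 : hd 10 2 = 54 := by norm_num [hd]
  have H3 : hd 10 3 = 210 := by norm_num [hd]
  have H4 : hd 10 4 = 660 := by norm_num [hd]
  have e0 : (13261671 / 100000000 : ℝ) ≤ √(q10 0 * q10 1 * (aN 10 0 * bN 10 1)) := by
    rw [A0, Real.le_sqrt' (by norm_num)]
    norm_num [q10]
  have e1 : (9110207 / 100000000 : ℝ) ≤ √(q10 1 * q10 2 * (aN 10 1 * bN 10 2)) := by
    rw [A1, Real.le_sqrt' (by norm_num)]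
    norm_num [q10]
  have e2 : (585557 / 25000000 : ℝ) ≤ √(q10 2 * q10 3 * (aN 10 2 * bN 10 3)) := by
    rw [A2, Real.le_sqrt' (by norm_num)]
    norm_num [q10]
  have e3 : (28607 / 10000000 : ℝ) ≤ √(q10 3 * q10 4 * (aN 10 3 * bN 10 4)) := by
    rw [A3, Real.le_sqrt' (by norm_num)]
    norm_num [q10]
  have f0 : q10 0 * Real.logb 2 (hd 10 0 / q10 0) ≤ 368577 / 700000 := by
    have x0 : hd 10 0 / q10 0 = 50000 / 21681 := by rw [H0]; norm_num [q10]
    have y0 := logb_le_of (x := 50000 / 21681) 1 17 14 (by norm_num) (by norm_num) (by norm_num)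
    rw [x0]
    have z0 : q10 0 = 21681 / 50000 := by norm_num [q10]
    rw [z0]
    refine (mul_le_mul_of_nonneg_left y0 (by norm_num)).trans (by norm_num)
  have f1 : q10 1 * Real.logb 2 (hd 10 1 / q10 1) ≤ 1500683 / 800000 := by
    have x1 : hd 10 1 / q10 1 = 1000000 / 40559 := by rw [H1]; norm_num [q10]
    have y1 := logb_le_of (x := 1000000 / 40559) 1 37 8 (by norm_num) (by norm_num) (by norm_num)
    rw [x1]
    have z1 : q10 1 = 40559 / 100000 := by norm_num [q10]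
    rw [z1]
    refine (mul_le_mul_of_nonneg_left y1 (by norm_num)).trans (by norm_num)
  have f2 : q10 2 * Real.logb 2 (hd 10 2 / q10 2) ≤ 88673 / 75000 := by
    have x2 : hd 10 2 / q10 2 = 2700000 / 6821 := by rw [H2]; norm_num [q10]
    have y2 := logb_le_of (x := 2700000 / 6821) 1 26 3 (by norm_num) (by norm_num) (by norm_num)
    rw [x2]
    have z2 : q10 2 = 6821 / 50000 := by norm_num [q10]
    rw [z2]
    refine (mul_le_mul_of_nonneg_left y2 (by norm_num)).trans (by norm_num)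
  have f3 : q10 3 * Real.logb 2 (hd 10 3 / q10 3) ≤ 563 / 1875 := by
    have x3 : hd 10 3 / q10 3 = 5250000 / 563 := by rw [H3]; norm_num [q10]
    have y3 := logb_le_of (x := 5250000 / 563) 1 40 3 (by norm_num) (by norm_num) (by norm_num)
    rw [x3]
    have z3 : q10 3 = 563 / 25000 := by norm_num [q10]
    rw [z3]
    refine (mul_le_mul_of_nonneg_left y3 (by norm_num)).trans (by norm_num)
  have f4 : q10 4 * Real.logb 2 (hd 10 4 / q10 4) ≤ 703 / 20000 := by
    have x4 : hd 10 4 / q10 4 = 13200000 / 37 := by rw [H4]; norm_num [q10]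
    have y4 := logb_le_of (x := 13200000 / 37) 1 19 1 (by norm_num) (by norm_num) (by norm_num)
    rw [x4]
    have z4 : q10 4 = 37 / 20000 := by norm_num [q10]
    rw [z4]
    refine (mul_le_mul_of_nonneg_left y4 (by norm_num)).trans (by norm_num)
  refine ⟨?_, ?_, ?_, ?_⟩
  · intro k hk
    interval_cases k <;> norm_num [q10]
  · norm_num [sum_range_succ, q10]
  · have s : ∑ k ∈ range 4, √(q10 k * q10 (k + 1) * (aN 10 k * bN 10 (k + 1))) =
        √(q10 0 * q10 1 * (aN 10 0 * bN 10 1)) + √(q10 1 * q10 2 * (aN 10 1 * bN 10 2)) + √(q10 2 * q10 3 * (aN 10 2 * bN 10 3)) + √(q10 3 * q10 4 * (aN 10 3 * bN 10 4)) := by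
      rw [sum_range_succ, sum_range_succ, sum_range_succ, sum_range_succ, sum_range_zero, zero_add]
    rw [s]
    linarith
  · have s : ∑ k ∈ range (4 + 1), q10 k * Real.logb 2 (hd 10 k / q10 k) =
        q10 0 * Real.logb 2 (hd 10 0 / q10 0) + q10 1 * Real.logb 2 (hd 10 1 / q10 1) + q10 2 * Real.logb 2 (hd 10 2 / q10 2) + q10 3 * Real.logb 2 (hd 10 3 / q10 3) + q10 4 * Real.logb 2 (hd 10 4 / q10 4) := by
      rw [sum_range_succ, sum_range_succ, sum_range_succ, sum_range_succ, sum_range_succ, sum_range_zero, zero_add]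
    rw [s]
    linarith

/-- dimension 11 -/
noncomputable def q11 : ℕ → ℝ
  | 0 => 39642 / 100000
  | 1 => 41174 / 100000
  | 2 => 15848 / 100000
  | 3 => 3046 / 100000
  | 4 => 290 / 100000
  | _ => 0

theorem num11 : NumOK 11 4 q11 (0.39478 * 11) := by
  have A0 : aN 11 0 * bN 11 1 = 1 / 11 := by norm_num [aN, bN]
  have A1 : aN 11 1 * bN 11 2 = 20 / 143 := by norm_num [aN, bN]
  have A2 : aN 11 2 * bN 11 3 = 11 / 65 := by norm_num [aN, bN]
  have A3 : aN 11 3 * bN 11 4 = 16 / 85 := by norm_num [aN, bN]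
  have H0 : hd 11 0 = 1 := by norm_num [hd]
  have H1 : hd 11 1 = 11 := by norm_num [hd]
  have H2 : hd 11 2 = 65 := by norm_num [hd]
  have H3 : hd 11 3 = 275 := by norm_num [hd]
  have H4 : hd 11 4 = 935 := by norm_num [hd]
  have e0 : (12181281 / 100000000 : ℝ) ≤ √(q11 0 * q11 1 * (aN 11 0 * bN 11 1)) := by
    rw [A0, Real.le_sqrt' (by norm_num)]
    norm_num [q11]
  have e1 : (9553131 / 100000000 : ℝ) ≤ √(q11 1 * q11 2 * (aN 11 1 * bN 11 2)) := by
    rw [A1, Real.le_sqrt' (by norm_num)]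
    norm_num [q11]
  have e2 : (1429097 / 50000000 : ℝ) ≤ √(q11 2 * q11 3 * (aN 11 2 * bN 11 3)) := by
    rw [A2, Real.le_sqrt' (by norm_num)]
    norm_num [q11]
  have e3 : (407769 / 100000000 : ℝ) ≤ √(q11 3 * q11 4 * (aN 11 3 * bN 11 4)) := by
    rw [A3, Real.le_sqrt' (by norm_num)]
    norm_num [q11]
  have f0 : q11 0 * Real.logb 2 (hd 11 0 / q11 0) ≤ 614451 / 1150000 := by
    have x0 : hd 11 0 / q11 0 = 50000 / 19821 := by rw [H0]; norm_num [q11]
    have y0 := logb_le_of (x := 50000 / 19821) 1 31 23 (by norm_num) (by norm_num) (by norm_num)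
    rw [x0]
    have z0 : q11 0 = 19821 / 50000 := by norm_num [q11]
    rw [z0]
    refine (mul_le_mul_of_nonneg_left y0 (by norm_num)).trans (by norm_num)
  have f1 : q11 1 * Real.logb 2 (hd 11 1 / q11 1) ≤ 391153 / 200000 := by
    have x1 : hd 11 1 / q11 1 = 550000 / 20587 := by rw [H1]; norm_num [q11]
    have y1 := logb_le_of (x := 550000 / 20587) 1 19 4 (by norm_num) (by norm_num) (by norm_num)
    rw [x1]
    have z1 : q11 1 = 20587 / 50000 := by norm_num [q11]
    rw [z1]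
    refine (mul_le_mul_of_nonneg_left y1 (by norm_num)).trans (by norm_num)
  have f2 : q11 2 * Real.logb 2 (hd 11 2 / q11 2) ≤ 172347 / 125000 := by
    have x2 : hd 11 2 / q11 2 = 812500 / 1981 := by rw [H2]; norm_num [q11]
    have y2 := logb_le_of (x := 812500 / 1981) 1 87 10 (by norm_num) (by norm_num) (by norm_num)
    rw [x2]
    have z2 : q11 2 = 1981 / 12500 := by norm_num [q11]
    rw [z2]
    refine (mul_le_mul_of_nonneg_left y2 (by norm_num)).trans (by norm_num)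
  have f3 : q11 3 * Real.logb 2 (hd 11 3 / q11 3) ≤ 80719 / 200000 := by
    have x3 : hd 11 3 / q11 3 = 13750000 / 1523 := by rw [H3]; norm_num [q11]
    have y3 := logb_le_of (x := 13750000 / 1523) 1 53 4 (by norm_num) (by norm_num) (by norm_num)
    rw [x3]
    have z3 : q11 3 = 1523 / 50000 := by norm_num [q11]
    rw [z3]
    refine (mul_le_mul_of_nonneg_left y3 (by norm_num)).trans (by norm_num)
  have f4 : q11 4 * Real.logb 2 (hd 11 4 / q11 4) ≤ 551 / 10000 := by
    have x4 : hd 11 4 / q11 4 = 9350000 / 29 := by rw [H4]; norm_num [q11]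
    have y4 := logb_le_of (x := 9350000 / 29) 1 19 1 (by norm_num) (by norm_num) (by norm_num)
    rw [x4]
    have z4 : q11 4 = 29 / 10000 := by norm_num [q11]
    rw [z4]
    refine (mul_le_mul_of_nonneg_left y4 (by norm_num)).trans (by norm_num)
  refine ⟨?_, ?_, ?_, ?_⟩
  · intro k hk
    interval_cases k <;> norm_num [q11]
  · norm_num [sum_range_succ, q11]
  · have s : ∑ k ∈ range 4, √(q11 k * q11 (k + 1) * (aN 11 k * bN 11 (k + 1))) =
        √(q11 0 * q11 1 * (aN 11 0 * bN 11 1)) + √(q11 1 * q11 2 * (aN 11 1 * bN 11 2)) + √(q11 2 * q11 3 * (aN 11 2 * bN 11 3)) + √(q11 3 * q11 4 * (aN 11 3 * bN 11 4)) := by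
      rw [sum_range_succ, sum_range_succ, sum_range_succ, sum_range_succ, sum_range_zero, zero_add]
    rw [s]
    linarith
  · have s : ∑ k ∈ range (4 + 1), q11 k * Real.logb 2 (hd 11 k / q11 k) =
        q11 0 * Real.logb 2 (hd 11 0 / q11 0) + q11 1 * Real.logb 2 (hd 11 1 / q11 1) + q11 2 * Real.logb 2 (hd 11 2 / q11 2) + q11 3 * Real.logb 2 (hd 11 3 / q11 3) + q11 4 * Real.logb 2 (hd 11 4 / q11 4) := by
      rw [sum_range_succ, sum_range_succ, sum_range_succ, sum_range_succ, sum_range_succ, sum_range_zero, zero_add]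
    rw [s]
    linarith

/-- dimension 12 -/
noncomputable def q12 : ℕ → ℝ
  | 0 => 36167 / 100000
  | 1 => 41428 / 100000
  | 2 => 18014 / 100000
  | 3 => 3963 / 100000
  | 4 => 428 / 100000
  | _ => 0

theorem num12 : NumOK 12 4 q12 (0.39478 * 12) := by
  have A0 : aN 12 0 * bN 12 1 = 1 / 12 := by norm_num [aN, bN]
  have A1 : aN 12 1 * bN 12 2 = 11 / 84 := by norm_num [aN, bN]
  have A2 : aN 12 2 * bN 12 3 = 9 / 56 := by norm_num [aN, bN]
  have A3 : aN 12 3 * bN 12 4 = 13 / 72 := by norm_num [aN, bN]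
  have H0 : hd 12 0 = 1 := by norm_num [hd]
  have H1 : hd 12 1 = 12 := by norm_num [hd]
  have H2 : hd 12 2 = 77 := by norm_num [hd]
  have H3 : hd 12 3 = 352 := by norm_num [hd]
  have H4 : hd 12 4 = 1287 := by norm_num [hd]
  have e0 : (11174101 / 100000000 : ℝ) ≤ √(q12 0 * q12 1 * (aN 12 0 * bN 12 1)) := by
    rw [A0, Real.le_sqrt' (by norm_num)]
    norm_num [q12]
  have e1 : (988573 / 10000000 : ℝ) ≤ √(q12 1 * q12 2 * (aN 12 1 * bN 12 2)) := by
    rw [A1, Real.le_sqrt' (by norm_num)]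
    norm_num [q12]
  have e2 : (3387227 / 100000000 : ℝ) ≤ √(q12 2 * q12 3 * (aN 12 2 * bN 12 3)) := by
    rw [A2, Real.le_sqrt' (by norm_num)]
    norm_num [q12]
  have e3 : (2767 / 500000 : ℝ) ≤ √(q12 3 * q12 4 * (aN 12 3 * bN 12 4)) := by
    rw [A3, Real.le_sqrt' (by norm_num)]
    norm_num [q12]
  have f0 : q12 0 * Real.logb 2 (hd 12 0 / q12 0) ≤ 36167 / 68000 := by
    have x0 : hd 12 0 / q12 0 = 100000 / 36167 := by rw [H0]; norm_num [q12]
    have y0 := logb_le_of (x := 100000 / 36167) 1 25 17 (by norm_num) (by norm_num) (by norm_num)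
    rw [x0]
    have z0 : q12 0 = 36167 / 100000 := by norm_num [q12]
    rw [z0]
    refine (mul_le_mul_of_nonneg_left y0 (by norm_num)).trans (by norm_num)
  have f1 : q12 1 * Real.logb 2 (hd 12 1 / q12 1) ≤ 176069 / 87500 := by
    have x1 : hd 12 1 / q12 1 = 300000 / 10357 := by rw [H1]; norm_num [q12]
    have y1 := logb_le_of (x := 300000 / 10357) 1 34 7 (by norm_num) (by norm_num) (by norm_num)
    rw [x1]
    have z1 : q12 1 = 10357 / 25000 := by norm_num [q12]
    rw [z1]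
    refine (mul_le_mul_of_nonneg_left y1 (by norm_num)).trans (by norm_num)
  have f2 : q12 2 * Real.logb 2 (hd 12 2 / q12 2) ≤ 63049 / 40000 := by
    have x2 : hd 12 2 / q12 2 = 3850000 / 9007 := by rw [H2]; norm_num [q12]
    have y2 := logb_le_of (x := 3850000 / 9007) 1 35 4 (by norm_num) (by norm_num) (by norm_num)
    rw [x2]
    have z2 : q12 2 = 9007 / 50000 := by norm_num [q12]
    rw [z2]
    refine (mul_le_mul_of_nonneg_left y2 (by norm_num)).trans (by norm_num)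
  have f3 : q12 3 * Real.logb 2 (hd 12 3 / q12 3) ≤ 130779 / 250000 := by
    have x3 : hd 12 3 / q12 3 = 35200000 / 3963 := by rw [H3]; norm_num [q12]
    have y3 := logb_le_of (x := 35200000 / 3963) 1 66 5 (by norm_num) (by norm_num) (by norm_num)
    rw [x3]
    have z3 : q12 3 = 3963 / 100000 := by norm_num [q12]
    rw [z3]
    refine (mul_le_mul_of_nonneg_left y3 (by norm_num)).trans (by norm_num)
  have f4 : q12 4 * Real.logb 2 (hd 12 4 / q12 4) ≤ 2033 / 25000 := by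
    have x4 : hd 12 4 / q12 4 = 32175000 / 107 := by rw [H4]; norm_num [q12]
    have y4 := logb_le_of (x := 32175000 / 107) 1 19 1 (by norm_num) (by norm_num) (by norm_num)
    rw [x4]
    have z4 : q12 4 = 107 / 25000 := by norm_num [q12]
    rw [z4]
    refine (mul_le_mul_of_nonneg_left y4 (by norm_num)).trans (by norm_num)
  refine ⟨?_, ?_, ?_, ?_⟩
  · intro k hk
    interval_cases k <;> norm_num [q12]
  · norm_num [sum_range_succ, q12]
  · have s : ∑ k ∈ range 4, √(q12 k * q12 (k + 1) * (aN 12 k * bN 12 (k + 1))) =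
        √(q12 0 * q12 1 * (aN 12 0 * bN 12 1)) + √(q12 1 * q12 2 * (aN 12 1 * bN 12 2)) + √(q12 2 * q12 3 * (aN 12 2 * bN 12 3)) + √(q12 3 * q12 4 * (aN 12 3 * bN 12 4)) := by
      rw [sum_range_succ, sum_range_succ, sum_range_succ, sum_range_succ, sum_range_zero, zero_add]
    rw [s]
    linarith
  · have s : ∑ k ∈ range (4 + 1), q12 k * Real.logb 2 (hd 12 k / q12 k) =
        q12 0 * Real.logb 2 (hd 12 0 / q12 0) + q12 1 * Real.logb 2 (hd 12 1 / q12 1) + q12 2 * Real.logb 2 (hd 12 2 / q12 2) + q12 3 * Real.logb 2 (hd 12 3 / q12 3) + q12 4 * Real.logb 2 (hd 12 4 / q12 4) := by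
      rw [sum_range_succ, sum_range_succ, sum_range_succ, sum_range_succ, sum_range_succ, sum_range_zero, zero_add]
    rw [s]
    linarith

/-- dimension 13 -/
noncomputable def q13 : ℕ → ℝ
  | 0 => 32907 / 100000
  | 1 => 41367 / 100000
  | 2 => 20124 / 100000
  | 3 => 4999 / 100000
  | 4 => 603 / 100000
  | _ => 0

theorem num13 : NumOK 13 4 q13 (0.39478 * 13) := by
  have A0 : aN 13 0 * bN 13 1 = 1 / 13 := by norm_num [aN, bN]
  have A1 : aN 13 1 * bN 13 2 = 8 / 65 := by norm_num [aN, bN]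
  have A2 : aN 13 2 * bN 13 3 = 13 / 85 := by norm_num [aN, bN]
  have A3 : aN 13 3 * bN 13 4 = 56 / 323 := by norm_num [aN, bN]
  have H0 : hd 13 0 = 1 := by norm_num [hd]
  have H1 : hd 13 1 = 13 := by norm_num [hd]
  have H2 : hd 13 2 = 90 := by norm_num [hd]
  have H3 : hd 13 3 = 442 := by norm_num [hd]
  have H4 : hd 13 4 = 1729 := by norm_num [hd]
  have e0 : (10232917 / 100000000 : ℝ) ≤ √(q13 0 * q13 1 * (aN 13 0 * bN 13 1)) := by
    rw [A0, Real.le_sqrt' (by norm_num)]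
    norm_num [q13]
  have e1 : (10122143 / 100000000 : ℝ) ≤ √(q13 1 * q13 2 * (aN 13 1 * bN 13 2)) := by
    rw [A1, Real.le_sqrt' (by norm_num)]
    norm_num [q13]
  have e2 : (3922481 / 100000000 : ℝ) ≤ √(q13 2 * q13 3 * (aN 13 2 * bN 13 3)) := by
    rw [A2, Real.le_sqrt' (by norm_num)]
    norm_num [q13]
  have e3 : (180731 / 25000000 : ℝ) ≤ √(q13 3 * q13 4 * (aN 13 3 * bN 13 4)) := by
    rw [A3, Real.le_sqrt' (by norm_num)]
    norm_num [q13]
  have f0 : q13 0 * Real.logb 2 (hd 13 0 / q13 0) ≤ 42309 / 80000 := by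
    have x0 : hd 13 0 / q13 0 = 100000 / 32907 := by rw [H0]; norm_num [q13]
    have y0 := logb_le_of (x := 100000 / 32907) 1 45 28 (by norm_num) (by norm_num) (by norm_num)
    rw [x0]
    have z0 : q13 0 = 32907 / 100000 := by norm_num [q13]
    rw [z0]
    refine (mul_le_mul_of_nonneg_left y0 (by norm_num)).trans (by norm_num)
  have f1 : q13 1 * Real.logb 2 (hd 13 1 / q13 1) ≤ 1337533 / 650000 := by
    have x1 : hd 13 1 / q13 1 = 1300000 / 41367 := by rw [H1]; norm_num [q13]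
    have y1 := logb_le_of (x := 1300000 / 41367) 1 194 39 (by norm_num) (by norm_num) (by norm_num)
    rw [x1]
    have z1 : q13 1 = 41367 / 100000 := by norm_num [q13]
    rw [z1]
    refine (mul_le_mul_of_nonneg_left y1 (by norm_num)).trans (by norm_num)
  have f2 : q13 2 * Real.logb 2 (hd 13 2 / q13 2) ≤ 709371 / 400000 := by
    have x2 : hd 13 2 / q13 2 = 250000 / 559 := by rw [H2]; norm_num [q13]
    have y2 := logb_le_of (x := 250000 / 559) 1 141 16 (by norm_num) (by norm_num) (by norm_num)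
    rw [x2]
    have z2 : q13 2 = 5031 / 25000 := by norm_num [q13]
    rw [z2]
    refine (mul_le_mul_of_nonneg_left y2 (by norm_num)).trans (by norm_num)
  have f3 : q13 3 * Real.logb 2 (hd 13 3 / q13 3) ≤ 114977 / 175000 := by
    have x3 : hd 13 3 / q13 3 = 44200000 / 4999 := by rw [H3]; norm_num [q13]
    have y3 := logb_le_of (x := 44200000 / 4999) 1 92 7 (by norm_num) (by norm_num) (by norm_num)
    rw [x3]
    have z3 : q13 3 = 4999 / 100000 := by norm_num [q13]
    rw [z3]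
    refine (mul_le_mul_of_nonneg_left y3 (by norm_num)).trans (by norm_num)
  have f4 : q13 4 * Real.logb 2 (hd 13 4 / q13 4) ≤ 2211 / 20000 := by
    have x4 : hd 13 4 / q13 4 = 172900000 / 603 := by rw [H4]; norm_num [q13]
    have y4 := logb_le_of (x := 172900000 / 603) 1 55 3 (by norm_num) (by norm_num) (by norm_num)
    rw [x4]
    have z4 : q13 4 = 603 / 100000 := by norm_num [q13]
    rw [z4]
    refine (mul_le_mul_of_nonneg_left y4 (by norm_num)).trans (by norm_num)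
  refine ⟨?_, ?_, ?_, ?_⟩
  · intro k hk
    interval_cases k <;> norm_num [q13]
  · norm_num [sum_range_succ, q13]
  · have s : ∑ k ∈ range 4, √(q13 k * q13 (k + 1) * (aN 13 k * bN 13 (k + 1))) =
        √(q13 0 * q13 1 * (aN 13 0 * bN 13 1)) + √(q13 1 * q13 2 * (aN 13 1 * bN 13 2)) + √(q13 2 * q13 3 * (aN 13 2 * bN 13 3)) + √(q13 3 * q13 4 * (aN 13 3 * bN 13 4)) := by
      rw [sum_range_succ, sum_range_succ, sum_range_succ, sum_range_succ, sum_range_zero, zero_add]
    rw [s]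
    linarith
  · have s : ∑ k ∈ range (4 + 1), q13 k * Real.logb 2 (hd 13 k / q13 k) =
        q13 0 * Real.logb 2 (hd 13 0 / q13 0) + q13 1 * Real.logb 2 (hd 13 1 / q13 1) + q13 2 * Real.logb 2 (hd 13 2 / q13 2) + q13 3 * Real.logb 2 (hd 13 3 / q13 3) + q13 4 * Real.logb 2 (hd 13 4 / q13 4) := by
      rw [sum_range_succ, sum_range_succ, sum_range_succ, sum_range_succ, sum_range_succ, sum_range_zero, zero_add]
    rw [s]
    linarith

/-- dimension 14 -/
noncomputable def q14 : ℕ → ℝ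
  | 0 => 30777 / 100000
  | 1 => 40656 / 100000
  | 2 => 21381 / 100000
  | 3 => 6055 / 100000
  | 4 => 1033 / 100000
  | 5 => 98 / 100000
  | _ => 0

theorem num14 : NumOK 14 5 q14 (0.39478 * 14) := by
  have A0 : aN 14 0 * bN 14 1 = 1 / 14 := by norm_num [aN, bN]
  have A1 : aN 14 1 * bN 14 2 = 13 / 112 := by norm_num [aN, bN]
  have A2 : aN 14 2 * bN 14 3 = 7 / 48 := by norm_num [aN, bN]
  have A3 : aN 14 3 * bN 14 4 = 1 / 6 := by norm_num [aN, bN]
  have A4 : aN 14 4 * bN 14 5 = 2 / 11 := by norm_num [aN, bN]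
  have H0 : hd 14 0 = 1 := by norm_num [hd]
  have H1 : hd 14 1 = 14 := by norm_num [hd]
  have H2 : hd 14 2 = 104 := by norm_num [hd]
  have H3 : hd 14 3 = 546 := by norm_num [hd]
  have H4 : hd 14 4 = 2275 := by norm_num [hd]
  have H5 : hd 14 5 = 8008 := by norm_num [hd]
  have e0 : (9453909 / 100000000 : ℝ) ≤ √(q14 0 * q14 1 * (aN 14 0 * bN 14 1)) := by
    rw [A0, Real.le_sqrt' (by norm_num)]
    norm_num [q14]
  have e1 : (5022373 / 50000000 : ℝ) ≤ √(q14 1 * q14 2 * (aN 14 1 * bN 14 2)) := by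
    rw [A1, Real.le_sqrt' (by norm_num)]
    norm_num [q14]
  have e2 : (4345097 / 100000000 : ℝ) ≤ √(q14 2 * q14 3 * (aN 14 2 * bN 14 3)) := by
    rw [A2, Real.le_sqrt' (by norm_num)]
    norm_num [q14]
  have e3 : (1021013 / 100000000 : ℝ) ≤ √(q14 3 * q14 4 * (aN 14 3 * bN 14 4)) := by
    rw [A3, Real.le_sqrt' (by norm_num)]
    norm_num [q14]
  have e4 : (135669 / 100000000 : ℝ) ≤ √(q14 4 * q14 5 * (aN 14 4 * bN 14 5)) := by
    rw [A4, Real.le_sqrt' (by norm_num)]
    norm_num [q14]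
  have f0 : q14 0 * Real.logb 2 (hd 14 0 / q14 0) ≤ 892533 / 1700000 := by
    have x0 : hd 14 0 / q14 0 = 100000 / 30777 := by rw [H0]; norm_num [q14]
    have y0 := logb_le_of (x := 100000 / 30777) 1 29 17 (by norm_num) (by norm_num) (by norm_num)
    rw [x0]
    have z0 : q14 0 = 30777 / 100000 := by norm_num [q14]
    rw [z0]
    refine (mul_le_mul_of_nonneg_left y0 (by norm_num)).trans (by norm_num)
  have f1 : q14 1 * Real.logb 2 (hd 14 1 / q14 1) ≤ 19481 / 9375 := by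
    have x1 : hd 14 1 / q14 1 = 12500 / 363 := by rw [H1]; norm_num [q14]
    have y1 := logb_le_of (x := 12500 / 363) 1 46 9 (by norm_num) (by norm_num) (by norm_num)
    rw [x1]
    have z1 : q14 1 = 2541 / 6250 := by norm_num [q14]
    rw [z1]
    refine (mul_le_mul_of_nonneg_left y1 (by norm_num)).trans (by norm_num)
  have f2 : q14 2 * Real.logb 2 (hd 14 2 / q14 2) ≤ 21381 / 11200 := by
    have x2 : hd 14 2 / q14 2 = 10400000 / 21381 := by rw [H2]; norm_num [q14]
    have y2 := logb_le_of (x := 10400000 / 21381) 1 125 14 (by norm_num) (by norm_num) (by norm_num)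
    rw [x2]
    have z2 : q14 2 = 21381 / 100000 := by norm_num [q14]
    rw [z2]
    refine (mul_le_mul_of_nonneg_left y2 (by norm_num)).trans (by norm_num)
  have f3 : q14 3 * Real.logb 2 (hd 14 3 / q14 3) ≤ 95669 / 120000 := by
    have x3 : hd 14 3 / q14 3 = 1560000 / 173 := by rw [H3]; norm_num [q14]
    have y3 := logb_le_of (x := 1560000 / 173) 1 79 6 (by norm_num) (by norm_num) (by norm_num)
    rw [x3]
    have z3 : q14 3 = 1211 / 20000 := by norm_num [q14]
    rw [z3]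
    refine (mul_le_mul_of_nonneg_left y3 (by norm_num)).trans (by norm_num)
  have f4 : q14 4 * Real.logb 2 (hd 14 4 / q14 4) ≤ 73343 / 400000 := by
    have x4 : hd 14 4 / q14 4 = 227500000 / 1033 := by rw [H4]; norm_num [q14]
    have y4 := logb_le_of (x := 227500000 / 1033) 1 71 4 (by norm_num) (by norm_num) (by norm_num)
    rw [x4]
    have z4 : q14 4 = 1033 / 100000 := by norm_num [q14]
    rw [z4]
    refine (mul_le_mul_of_nonneg_left y4 (by norm_num)).trans (by norm_num)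
  have f5 : q14 5 * Real.logb 2 (hd 14 5 / q14 5) ≤ 1127 / 50000 := by
    have x5 : hd 14 5 / q14 5 = 57200000 / 7 := by rw [H5]; norm_num [q14]
    have y5 := logb_le_of (x := 57200000 / 7) 1 23 1 (by norm_num) (by norm_num) (by norm_num)
    rw [x5]
    have z5 : q14 5 = 49 / 50000 := by norm_num [q14]
    rw [z5]
    refine (mul_le_mul_of_nonneg_left y5 (by norm_num)).trans (by norm_num)
  refine ⟨?_, ?_, ?_, ?_⟩
  · intro k hk
    interval_cases k <;> norm_num [q14]
  · norm_num [sum_range_succ, q14]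
  · have s : ∑ k ∈ range 5, √(q14 k * q14 (k + 1) * (aN 14 k * bN 14 (k + 1))) =
        √(q14 0 * q14 1 * (aN 14 0 * bN 14 1)) + √(q14 1 * q14 2 * (aN 14 1 * bN 14 2)) + √(q14 2 * q14 3 * (aN 14 2 * bN 14 3)) + √(q14 3 * q14 4 * (aN 14 3 * bN 14 4)) + √(q14 4 * q14 5 * (aN 14 4 * bN 14 5)) := by
      rw [sum_range_succ, sum_range_succ, sum_range_succ, sum_range_succ, sum_range_succ, sum_range_zero, zero_add]
    rw [s]
    linarith
  · have s : ∑ k ∈ range (5 + 1), q14 k * Real.logb 2 (hd 14 k / q14 k) =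
        q14 0 * Real.logb 2 (hd 14 0 / q14 0) + q14 1 * Real.logb 2 (hd 14 1 / q14 1) + q14 2 * Real.logb 2 (hd 14 2 / q14 2) + q14 3 * Real.logb 2 (hd 14 3 / q14 3) + q14 4 * Real.logb 2 (hd 14 4 / q14 4) + q14 5 * Real.logb 2 (hd 14 5 / q14 5) := by
      rw [sum_range_succ, sum_range_succ, sum_range_succ, sum_range_succ, sum_range_succ, sum_range_succ, sum_range_zero, zero_add]
    rw [s]
    linarith

/-- dimension 15 -/
noncomputable def q15 : ℕ → ℝ
  | 0 => 28162 / 100000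
  | 1 => 40063 / 100000
  | 2 => 23043 / 100000
  | 3 => 7219 / 100000
  | 4 => 1370 / 100000
  | 5 => 143 / 100000
  | _ => 0

theorem num15 : NumOK 15 5 q15 (0.39478 * 15) := by
  have A0 : aN 15 0 * bN 15 1 = 1 / 15 := by norm_num [aN, bN]
  have A1 : aN 15 1 * bN 15 2 = 28 / 255 := by norm_num [aN, bN]
  have A2 : aN 15 2 * bN 15 3 = 45 / 323 := by norm_num [aN, bN]
  have A3 : aN 15 3 * bN 15 4 = 64 / 399 := by norm_num [aN, bN]
  have A4 : aN 15 4 * bN 15 5 = 85 / 483 := by norm_num [aN, bN]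
  have H0 : hd 15 0 = 1 := by norm_num [hd]
  have H1 : hd 15 1 = 15 := by norm_num [hd]
  have H2 : hd 15 2 = 119 := by norm_num [hd]
  have H3 : hd 15 3 = 665 := by norm_num [hd]
  have H4 : hd 15 4 = 2940 := by norm_num [hd]
  have H5 : hd 15 5 = 10948 := by norm_num [hd]
  have e0 : (867277 / 10000000 : ℝ) ≤ √(q15 0 * q15 1 * (aN 15 0 * bN 15 1)) := by
    rw [A0, Real.le_sqrt' (by norm_num)]
    norm_num [q15]
  have e1 : (10068161 / 100000000 : ℝ) ≤ √(q15 1 * q15 2 * (aN 15 1 * bN 15 2)) := by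
    rw [A1, Real.le_sqrt' (by norm_num)]
    norm_num [q15]
  have e2 : (1203519 / 25000000 : ℝ) ≤ √(q15 2 * q15 3 * (aN 15 2 * bN 15 3)) := by
    rw [A2, Real.le_sqrt' (by norm_num)]
    norm_num [q15]
  have e3 : (157439 / 12500000 : ℝ) ≤ √(q15 3 * q15 4 * (aN 15 3 * bN 15 4)) := by
    rw [A3, Real.le_sqrt' (by norm_num)]
    norm_num [q15]
  have e4 : (185679 / 100000000 : ℝ) ≤ √(q15 4 * q15 5 * (aN 15 4 * bN 15 5)) := by
    rw [A4, Real.le_sqrt' (by norm_num)]
    norm_num [q15]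
  have f0 : q15 0 * Real.logb 2 (hd 15 0 / q15 0) ≤ 56324 / 109375 := by
    have x0 : hd 15 0 / q15 0 = 50000 / 14081 := by rw [H0]; norm_num [q15]
    have y0 := logb_le_of (x := 50000 / 14081) 1 64 35 (by norm_num) (by norm_num) (by norm_num)
    rw [x0]
    have z0 : q15 0 = 14081 / 50000 := by norm_num [q15]
    rw [z0]
    refine (mul_le_mul_of_nonneg_left y0 (by norm_num)).trans (by norm_num)
  have f1 : q15 1 * Real.logb 2 (hd 15 1 / q15 1) ≤ 921449 / 440000 := by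
    have x1 : hd 15 1 / q15 1 = 1500000 / 40063 := by rw [H1]; norm_num [q15]
    have y1 := logb_le_of (x := 1500000 / 40063) 1 115 22 (by norm_num) (by norm_num) (by norm_num)
    rw [x1]
    have z1 : q15 1 = 40063 / 100000 := by norm_num [q15]
    rw [z1]
    refine (mul_le_mul_of_nonneg_left y1 (by norm_num)).trans (by norm_num)
  have f2 : q15 2 * Real.logb 2 (hd 15 2 / q15 2) ≤ 714333 / 343750 := by
    have x2 : hd 15 2 / q15 2 = 11900000 / 23043 := by rw [H2]; norm_num [q15]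
    have y2 := logb_le_of (x := 11900000 / 23043) 1 496 55 (by norm_num) (by norm_num) (by norm_num)
    rw [x2]
    have z2 : q15 2 = 23043 / 100000 := by norm_num [q15]
    rw [z2]
    refine (mul_le_mul_of_nonneg_left y2 (by norm_num)).trans (by norm_num)
  have f3 : q15 3 * Real.logb 2 (hd 15 3 / q15 3) ≤ 209351 / 220000 := by
    have x3 : hd 15 3 / q15 3 = 66500000 / 7219 := by rw [H3]; norm_num [q15]
    have y3 := logb_le_of (x := 66500000 / 7219) 1 145 11 (by norm_num) (by norm_num) (by norm_num)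
    rw [x3]
    have z3 : q15 3 = 7219 / 100000 := by norm_num [q15]
    rw [z3]
    refine (mul_le_mul_of_nonneg_left y3 (by norm_num)).trans (by norm_num)
  have f4 : q15 4 * Real.logb 2 (hd 15 4 / q15 4) ≤ 9727 / 40000 := by
    have x4 : hd 15 4 / q15 4 = 29400000 / 137 := by rw [H4]; norm_num [q15]
    have y4 := logb_le_of (x := 29400000 / 137) 1 71 4 (by norm_num) (by norm_num) (by norm_num)
    rw [x4]
    have z4 : q15 4 = 137 / 10000 := by norm_num [q15]
    rw [z4]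
    refine (mul_le_mul_of_nonneg_left y4 (by norm_num)).trans (by norm_num)
  have f5 : q15 5 * Real.logb 2 (hd 15 5 / q15 5) ≤ 3289 / 100000 := by
    have x5 : hd 15 5 / q15 5 = 1094800000 / 143 := by rw [H5]; norm_num [q15]
    have y5 := logb_le_of (x := 1094800000 / 143) 1 23 1 (by norm_num) (by norm_num) (by norm_num)
    rw [x5]
    have z5 : q15 5 = 143 / 100000 := by norm_num [q15]
    rw [z5]
    refine (mul_le_mul_of_nonneg_left y5 (by norm_num)).trans (by norm_num)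
  refine ⟨?_, ?_, ?_, ?_⟩
  · intro k hk
    interval_cases k <;> norm_num [q15]
  · norm_num [sum_range_succ, q15]
  · have s : ∑ k ∈ range 5, √(q15 k * q15 (k + 1) * (aN 15 k * bN 15 (k + 1))) =
        √(q15 0 * q15 1 * (aN 15 0 * bN 15 1)) + √(q15 1 * q15 2 * (aN 15 1 * bN 15 2)) + √(q15 2 * q15 3 * (aN 15 2 * bN 15 3)) + √(q15 3 * q15 4 * (aN 15 3 * bN 15 4)) + √(q15 4 * q15 5 * (aN 15 4 * bN 15 5)) := by
      rw [sum_range_succ, sum_range_succ, sum_range_succ, sum_range_succ, sum_range_succ, sum_range_zero, zero_add]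
    rw [s]
    linarith
  · have s : ∑ k ∈ range (5 + 1), q15 k * Real.logb 2 (hd 15 k / q15 k) =
        q15 0 * Real.logb 2 (hd 15 0 / q15 0) + q15 1 * Real.logb 2 (hd 15 1 / q15 1) + q15 2 * Real.logb 2 (hd 15 2 / q15 2) + q15 3 * Real.logb 2 (hd 15 3 / q15 3) + q15 4 * Real.logb 2 (hd 15 4 / q15 4) + q15 5 * Real.logb 2 (hd 15 5 / q15 5) := by
      rw [sum_range_succ, sum_range_succ, sum_range_succ, sum_range_succ, sum_range_succ, sum_range_succ, sum_range_zero, zero_add]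
    rw [s]
    linarith

/-- dimension 16 -/
noncomputable def q16 : ℕ → ℝ
  | 0 => 25733 / 100000
  | 1 => 39283 / 100000
  | 2 => 24567 / 100000
  | 3 => 8449 / 100000
  | 4 => 1767 / 100000
  | 5 => 201 / 100000
  | _ => 0

theorem num16 : NumOK 16 5 q16 (0.39478 * 16) := by
  have A0 : aN 16 0 * bN 16 1 = 1 / 16 := by norm_num [aN, bN]
  have A1 : aN 16 1 * bN 16 2 = 5 / 48 := by norm_num [aN, bN]
  have A2 : aN 16 2 * bN 16 3 = 2 / 15 := by norm_num [aN, bN]
  have A3 : aN 16 3 * bN 16 4 = 17 / 110 := by norm_num [aN, bN]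
  have A4 : aN 16 4 * bN 16 5 = 15 / 88 := by norm_num [aN, bN]
  have H0 : hd 16 0 = 1 := by norm_num [hd]
  have H1 : hd 16 1 = 16 := by norm_num [hd]
  have H2 : hd 16 2 = 135 := by norm_num [hd]
  have H3 : hd 16 3 = 800 := by norm_num [hd]
  have H4 : hd 16 4 = 3740 := by norm_num [hd]
  have H5 : hd 16 5 = 14688 := by norm_num [hd]
  have e0 : (7948543 / 100000000 : ℝ) ≤ √(q16 0 * q16 1 * (aN 16 0 * bN 16 1)) := by
    rw [A0, Real.le_sqrt' (by norm_num)]
    norm_num [q16]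
  have e1 : (10026347 / 100000000 : ℝ) ≤ √(q16 1 * q16 2 * (aN 16 1 * bN 16 2)) := by
    rw [A1, Real.le_sqrt' (by norm_num)]
    norm_num [q16]
  have e2 : (1052151 / 20000000 : ℝ) ≤ √(q16 2 * q16 3 * (aN 16 2 * bN 16 3)) := by
    rw [A2, Real.le_sqrt' (by norm_num)]
    norm_num [q16]
  have e3 : (1518969 / 100000000 : ℝ) ≤ √(q16 3 * q16 4 * (aN 16 3 * bN 16 4)) := by
    rw [A3, Real.le_sqrt' (by norm_num)]
    norm_num [q16]
  have e4 : (7689 / 3125000 : ℝ) ≤ √(q16 4 * q16 5 * (aN 16 4 * bN 16 5)) := by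
    rw [A4, Real.le_sqrt' (by norm_num)]
    norm_num [q16]
  have f0 : q16 0 * Real.logb 2 (hd 16 0 / q16 0) ≤ 1209451 / 2400000 := by
    have x0 : hd 16 0 / q16 0 = 100000 / 25733 := by rw [H0]; norm_num [q16]
    have y0 := logb_le_of (x := 100000 / 25733) 1 47 24 (by norm_num) (by norm_num) (by norm_num)
    rw [x0]
    have z0 : q16 0 = 25733 / 100000 := by norm_num [q16]
    rw [z0]
    refine (mul_le_mul_of_nonneg_left y0 (by norm_num)).trans (by norm_num)
  have f1 : q16 1 * Real.logb 2 (hd 16 1 / q16 1) ≤ 4674677 / 2225000 := by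
    have x1 : hd 16 1 / q16 1 = 1600000 / 39283 := by rw [H1]; norm_num [q16]
    have y1 := logb_le_of (x := 1600000 / 39283) 1 476 89 (by norm_num) (by norm_num) (by norm_num)
    rw [x1]
    have z1 : q16 1 = 39283 / 100000 := by norm_num [q16]
    rw [z1]
    refine (mul_le_mul_of_nonneg_left y1 (by norm_num)).trans (by norm_num)
  have f2 : q16 2 * Real.logb 2 (hd 16 2 / q16 2) ≤ 581419 / 260000 := by
    have x2 : hd 16 2 / q16 2 = 4500000 / 8189 := by rw [H2]; norm_num [q16]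
    have y2 := logb_le_of (x := 4500000 / 8189) 1 355 39 (by norm_num) (by norm_num) (by norm_num)
    rw [x2]
    have z2 : q16 2 = 24567 / 100000 := by norm_num [q16]
    rw [z2]
    refine (mul_le_mul_of_nonneg_left y2 (by norm_num)).trans (by norm_num)
  have f3 : q16 3 * Real.logb 2 (hd 16 3 / q16 3) ≤ 2120699 / 1900000 := by
    have x3 : hd 16 3 / q16 3 = 80000000 / 8449 := by rw [H3]; norm_num [q16]
    have y3 := logb_le_of (x := 80000000 / 8449) 1 251 19 (by norm_num) (by norm_num) (by norm_num)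
    rw [x3]
    have z3 : q16 3 = 8449 / 100000 := by norm_num [q16]
    rw [z3]
    refine (mul_le_mul_of_nonneg_left y3 (by norm_num)).trans (by norm_num)
  have f4 : q16 4 * Real.logb 2 (hd 16 4 / q16 4) ≤ 40641 / 130000 := by
    have x4 : hd 16 4 / q16 4 = 374000000 / 1767 := by rw [H4]; norm_num [q16]
    have y4 := logb_le_of (x := 374000000 / 1767) 1 230 13 (by norm_num) (by norm_num) (by norm_num)
    rw [x4]
    have z4 : q16 4 = 1767 / 100000 := by norm_num [q16]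
    rw [z4]
    refine (mul_le_mul_of_nonneg_left y4 (by norm_num)).trans (by norm_num)
  have f5 : q16 5 * Real.logb 2 (hd 16 5 / q16 5) ≤ 9179 / 200000 := by
    have x5 : hd 16 5 / q16 5 = 489600000 / 67 := by rw [H5]; norm_num [q16]
    have y5 := logb_le_of (x := 489600000 / 67) 1 137 6 (by norm_num) (by norm_num) (by norm_num)
    rw [x5]
    have z5 : q16 5 = 201 / 100000 := by norm_num [q16]
    rw [z5]
    refine (mul_le_mul_of_nonneg_left y5 (by norm_num)).trans (by norm_num)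
  refine ⟨?_, ?_, ?_, ?_⟩
  · intro k hk
    interval_cases k <;> norm_num [q16]
  · norm_num [sum_range_succ, q16]
  · have s : ∑ k ∈ range 5, √(q16 k * q16 (k + 1) * (aN 16 k * bN 16 (k + 1))) =
        √(q16 0 * q16 1 * (aN 16 0 * bN 16 1)) + √(q16 1 * q16 2 * (aN 16 1 * bN 16 2)) + √(q16 2 * q16 3 * (aN 16 2 * bN 16 3)) + √(q16 3 * q16 4 * (aN 16 3 * bN 16 4)) + √(q16 4 * q16 5 * (aN 16 4 * bN 16 5)) := by
      rw [sum_range_succ, sum_range_succ, sum_range_succ, sum_range_succ, sum_range_succ, sum_range_zero, zero_add]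
    rw [s]
    linarith
  · have s : ∑ k ∈ range (5 + 1), q16 k * Real.logb 2 (hd 16 k / q16 k) =
        q16 0 * Real.logb 2 (hd 16 0 / q16 0) + q16 1 * Real.logb 2 (hd 16 1 / q16 1) + q16 2 * Real.logb 2 (hd 16 2 / q16 2) + q16 3 * Real.logb 2 (hd 16 3 / q16 3) + q16 4 * Real.logb 2 (hd 16 4 / q16 4) + q16 5 * Real.logb 2 (hd 16 5 / q16 5) := by
      rw [sum_range_succ, sum_range_succ, sum_range_succ, sum_range_succ, sum_range_succ, sum_range_succ, sum_range_zero, zero_add]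
    rw [s]
    linarith

end Pool.Agent.H58.BL
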