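import Pool.Agent.H58.BL.Num

/-!
# More numerical data: dimensions 17, ..., 20; dimensions 1, 2 at the angle 0.52 (generated by a script)
-/

set_option autoImplicit false
set_option exponentiation.threshold 4000

open Finset

namespace Pool.Agent.H58.BL


/-- dimension 17 -/
noncomputable def q17 : ℕ → ℝ
  | 0 => 23920 / 100000
  | 1 => 38309 / 100000
  | 2 => 25525 / 100000
  | 3 => 9547 / 100000
  | 4 => 2279 / 100000
  | 5 => 373 / 100000
  | 6 => 44 / 100000
  | 7 => 3 / 100000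
  | _ => 0

theorem num17 : NumOK 17 7 q17 (0.39568 * 17) := by
  have A0 : aN 17 0 * bN 17 1 = 1 / 17 := by norm_num [aN, bN]
  have A1 : aN 17 1 * bN 17 2 = 32 / 323 := by norm_num [aN, bN]
  have A2 : aN 17 2 * bN 17 3 = 17 / 133 := by norm_num [aN, bN]
  have A3 : aN 17 3 * bN 17 4 = 24 / 161 := by norm_num [aN, bN]
  have A4 : aN 17 4 * bN 17 5 = 19 / 115 := by norm_num [aN, bN]
  have A5 : aN 17 5 * bN 17 6 = 8 / 45 := by norm_num [aN, bN]
  have A6 : aN 17 6 * bN 17 7 = 49 / 261 := by norm_num [aN, bN]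
  have H0 : hd 17 0 = 1 := by norm_num [hd]
  have H1 : hd 17 1 = 17 := by norm_num [hd]
  have H2 : hd 17 2 = 152 := by norm_num [hd]
  have H3 : hd 17 3 = 952 := by norm_num [hd]
  have H4 : hd 17 4 = 4692 := by norm_num [hd]
  have H5 : hd 17 5 = 19380 := by norm_num [hd]
  have H6 : hd 17 6 = 69768 := by norm_num [hd]
  have H7 : hd 17 7 = 224808 := by norm_num [hd]
  have e0 : (7341867 / 100000000 : ℝ) ≤ √(q17 0 * q17 1 * (aN 17 0 * bN 17 1)) := by
    rw [A0, Real.le_sqrt' (by norm_num)]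
    norm_num [q17]
  have e1 : (1968507 / 20000000 : ℝ) ≤ √(q17 1 * q17 2 * (aN 17 1 * bN 17 2)) := by
    rw [A1, Real.le_sqrt' (by norm_num)]
    norm_num [q17]
  have e2 : (5581037 / 100000000 : ℝ) ≤ √(q17 2 * q17 3 * (aN 17 2 * bN 17 3)) := by
    rw [A2, Real.le_sqrt' (by norm_num)]
    norm_num [q17]
  have e3 : (225117 / 12500000 : ℝ) ≤ √(q17 3 * q17 4 * (aN 17 3 * bN 17 4)) := by
    rw [A3, Real.le_sqrt' (by norm_num)]
    norm_num [q17]
  have e4 : (374761 / 100000000 : ℝ) ≤ √(q17 4 * q17 5 * (aN 17 4 * bN 17 5)) := by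
    rw [A4, Real.le_sqrt' (by norm_num)]
    norm_num [q17]
  have e5 : (10803 / 20000000 : ℝ) ≤ √(q17 5 * q17 6 * (aN 17 5 * bN 17 6)) := by
    rw [A5, Real.le_sqrt' (by norm_num)]
    norm_num [q17]
  have e6 : (2489 / 50000000 : ℝ) ≤ √(q17 6 * q17 7 * (aN 17 6 * bN 17 7)) := by
    rw [A6, Real.le_sqrt' (by norm_num)]
    norm_num [q17]
  have f0 : q17 0 * Real.logb 2 (hd 17 0 / q17 0) ≤ 9269 / 18750 := by
    have x0 : hd 17 0 / q17 0 = 1250 / 299 := by rw [H0]; norm_num [q17]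
    have y0 := logb_le_of (x := 1250 / 299) 1 31 15 (by norm_num) (by norm_num) (by norm_num)
    rw [x0]
    have z0 : q17 0 = 299 / 1250 := by norm_num [q17]
    rw [z0]
    refine (mul_le_mul_of_nonneg_left y0 (by norm_num)).trans (by norm_num)
  have f1 : q17 1 * Real.logb 2 (hd 17 1 / q17 1) ≤ 498017 / 237500 := by
    have x1 : hd 17 1 / q17 1 = 1700000 / 38309 := by rw [H1]; norm_num [q17]
    have y1 := logb_le_of (x := 1700000 / 38309) 1 104 19 (by norm_num) (by norm_num) (by norm_num)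
    rw [x1]
    have z1 : q17 1 = 38309 / 100000 := by norm_num [q17]
    rw [z1]
    refine (mul_le_mul_of_nonneg_left y1 (by norm_num)).trans (by norm_num)
  have f2 : q17 2 * Real.logb 2 (hd 17 2 / q17 2) ≤ 84743 / 36000 := by
    have x2 : hd 17 2 / q17 2 = 608000 / 1021 := by rw [H2]; norm_num [q17]
    have y2 := logb_le_of (x := 608000 / 1021) 1 83 9 (by norm_num) (by norm_num) (by norm_num)
    rw [x2]
    have z2 : q17 2 = 1021 / 4000 := by norm_num [q17]
    rw [z2]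
    refine (mul_le_mul_of_nonneg_left y2 (by norm_num)).trans (by norm_num)
  have f3 : q17 3 * Real.logb 2 (hd 17 3 / q17 3) ≤ 887871 / 700000 := by
    have x3 : hd 17 3 / q17 3 = 95200000 / 9547 := by rw [H3]; norm_num [q17]
    have y3 := logb_le_of (x := 95200000 / 9547) 1 93 7 (by norm_num) (by norm_num) (by norm_num)
    rw [x3]
    have z3 : q17 3 = 9547 / 100000 := by norm_num [q17]
    rw [z3]
    refine (mul_le_mul_of_nonneg_left y3 (by norm_num)).trans (by norm_num)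
  have f4 : q17 4 * Real.logb 2 (hd 17 4 / q17 4) ≤ 120787 / 300000 := by
    have x4 : hd 17 4 / q17 4 = 469200000 / 2279 := by rw [H4]; norm_num [q17]
    have y4 := logb_le_of (x := 469200000 / 2279) 1 53 3 (by norm_num) (by norm_num) (by norm_num)
    rw [x4]
    have z4 : q17 4 = 2279 / 100000 := by norm_num [q17]
    rw [z4]
    refine (mul_le_mul_of_nonneg_left y4 (by norm_num)).trans (by norm_num)
  have f5 : q17 5 * Real.logb 2 (hd 17 5 / q17 5) ≤ 3357 / 40000 := by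
    have x5 : hd 17 5 / q17 5 = 1938000000 / 373 := by rw [H5]; norm_num [q17]
    have y5 := logb_le_of (x := 1938000000 / 373) 1 45 2 (by norm_num) (by norm_num) (by norm_num)
    rw [x5]
    have z5 : q17 5 = 373 / 100000 := by norm_num [q17]
    rw [z5]
    refine (mul_le_mul_of_nonneg_left y5 (by norm_num)).trans (by norm_num)
  have f6 : q17 6 * Real.logb 2 (hd 17 6 / q17 6) ≤ 77 / 6250 := by
    have x6 : hd 17 6 / q17 6 = 1744200000 / 11 := by rw [H6]; norm_num [q17]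
    have y6 := logb_le_of (x := 1744200000 / 11) 1 28 1 (by norm_num) (by norm_num) (by norm_num)
    rw [x6]
    have z6 : q17 6 = 11 / 25000 := by norm_num [q17]
    rw [z6]
    refine (mul_le_mul_of_nonneg_left y6 (by norm_num)).trans (by norm_num)
  have f7 : q17 7 * Real.logb 2 (hd 17 7 / q17 7) ≤ 99 / 100000 := by
    have x7 : hd 17 7 / q17 7 = 7493600000 := by rw [H7]; norm_num [q17]
    have y7 := logb_le_of (x := 7493600000) 1 33 1 (by norm_num) (by norm_num) (by norm_num)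
    rw [x7]
    have z7 : q17 7 = 3 / 100000 := by norm_num [q17]
    rw [z7]
    refine (mul_le_mul_of_nonneg_left y7 (by norm_num)).trans (by norm_num)
  refine ⟨?_, ?_, ?_, ?_⟩
  · intro k hk
    interval_cases k <;> norm_num [q17]
  · norm_num [sum_range_succ, q17]
  · have s : ∑ k ∈ range 7, √(q17 k * q17 (k + 1) * (aN 17 k * bN 17 (k + 1))) =
        √(q17 0 * q17 1 * (aN 17 0 * bN 17 1)) + √(q17 1 * q17 2 * (aN 17 1 * bN 17 2)) + √(q17 2 * q17 3 * (aN 17 2 * bN 17 3)) + √(q17 3 * q17 4 * (aN 17 3 * bN 17 4)) + √(q17 4 * q17 5 * (aN 17 4 * bN 17 5)) + √(q17 5 * q17 6 * (aN 17 5 * bN 17 6)) + √(q17 6 * q17 7 * (aN 17 6 * bN 17 7)) := by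
      rw [sum_range_succ, sum_range_succ, sum_range_succ, sum_range_succ, sum_range_succ, sum_range_succ, sum_range_succ, sum_range_zero, zero_add]
    rw [s]
    linarith
  · have s : ∑ k ∈ range (7 + 1), q17 k * Real.logb 2 (hd 17 k / q17 k) =
        q17 0 * Real.logb 2 (hd 17 0 / q17 0) + q17 1 * Real.logb 2 (hd 17 1 / q17 1) + q17 2 * Real.logb 2 (hd 17 2 / q17 2) + q17 3 * Real.logb 2 (hd 17 3 / q17 3) + q17 4 * Real.logb 2 (hd 17 4 / q17 4) + q17 5 * Real.logb 2 (hd 17 5 / q17 5) + q17 6 * Real.logb 2 (hd 17 6 / q17 6) + q17 7 * Real.logb 2 (hd 17 7 / q17 7) := by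
      rw [sum_range_succ, sum_range_succ, sum_range_succ, sum_range_succ, sum_range_succ, sum_range_succ, sum_range_succ, sum_range_succ, sum_range_zero, zero_add]
    rw [s]
    linarith

/-- dimension 18 -/
noncomputable def q18 : ℕ → ℝ
  | 0 => 21951 / 100000
  | 1 => 37277 / 100000
  | 2 => 26622 / 100000
  | 3 => 10772 / 100000
  | 4 => 2804 / 100000
  | 5 => 504 / 100000
  | 6 => 65 / 100000
  | 7 => 5 / 100000
  | _ => 0

theorem num18 : NumOK 18 7 q18 (0.39568 * 18) := by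
  have A0 : aN 18 0 * bN 18 1 = 1 / 18 := by norm_num [aN, bN]
  have A1 : aN 18 1 * bN 18 2 = 17 / 180 := by norm_num [aN, bN]
  have A2 : aN 18 2 * bN 18 3 = 27 / 220 := by norm_num [aN, bN]
  have A3 : aN 18 3 * bN 18 4 = 19 / 132 := by norm_num [aN, bN]
  have A4 : aN 18 4 * bN 18 5 = 25 / 156 := by norm_num [aN, bN]
  have A5 : aN 18 5 * bN 18 6 = 9 / 52 := by norm_num [aN, bN]
  have A6 : aN 18 6 * bN 18 7 = 11 / 60 := by norm_num [aN, bN]
  have H0 : hd 18 0 = 1 := by norm_num [hd]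
  have H1 : hd 18 1 = 18 := by norm_num [hd]
  have H2 : hd 18 2 = 170 := by norm_num [hd]
  have H3 : hd 18 3 = 1122 := by norm_num [hd]
  have H4 : hd 18 4 = 5814 := by norm_num [hd]
  have H5 : hd 18 5 = 25194 := by norm_num [hd]
  have H6 : hd 18 6 = 94962 := by norm_num [hd]
  have H7 : hd 18 7 = 319770 := by norm_num [hd]
  have e0 : (6742351 / 100000000 : ℝ) ≤ √(q18 0 * q18 1 * (aN 18 0 * bN 18 1)) := by
    rw [A0, Real.le_sqrt' (by norm_num)]
    norm_num [q18]
  have e1 : (2420299 / 25000000 : ℝ) ≤ √(q18 1 * q18 2 * (aN 18 1 * bN 18 2)) := by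
    rw [A1, Real.le_sqrt' (by norm_num)]
    norm_num [q18]
  have e2 : (5932517 / 100000000 : ℝ) ≤ √(q18 2 * q18 3 * (aN 18 2 * bN 18 3)) := by
    rw [A2, Real.le_sqrt' (by norm_num)]
    norm_num [q18]
  have e3 : (20851 / 1000000 : ℝ) ≤ √(q18 3 * q18 4 * (aN 18 3 * bN 18 4)) := by
    rw [A3, Real.le_sqrt' (by norm_num)]
    norm_num [q18]
  have e4 : (95179 / 20000000 : ℝ) ≤ √(q18 4 * q18 5 * (aN 18 4 * bN 18 5)) := by
    rw [A4, Real.le_sqrt' (by norm_num)]
    norm_num [q18]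
  have e5 : (75299 / 100000000 : ℝ) ≤ √(q18 5 * q18 6 * (aN 18 5 * bN 18 6)) := by
    rw [A5, Real.le_sqrt' (by norm_num)]
    norm_num [q18]
  have e6 : (7719 / 100000000 : ℝ) ≤ √(q18 6 * q18 7 * (aN 18 6 * bN 18 7)) := by
    rw [A6, Real.le_sqrt' (by norm_num)]
    norm_num [q18]
  have f0 : q18 0 * Real.logb 2 (hd 18 0 / q18 0) ≤ 168291 / 350000 := by
    have x0 : hd 18 0 / q18 0 = 100000 / 21951 := by rw [H0]; norm_num [q18]
    have y0 := logb_le_of (x := 100000 / 21951) 1 46 21 (by norm_num) (by norm_num) (by norm_num)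
    rw [x0]
    have z0 : q18 0 = 21951 / 100000 := by norm_num [q18]
    rw [z0]
    refine (mul_le_mul_of_nonneg_left y0 (by norm_num)).trans (by norm_num)
  have f1 : q18 1 * Real.logb 2 (hd 18 1 / q18 1) ≤ 6672583 / 3200000 := by
    have x1 : hd 18 1 / q18 1 = 1800000 / 37277 := by rw [H1]; norm_num [q18]
    have y1 := logb_le_of (x := 1800000 / 37277) 1 179 32 (by norm_num) (by norm_num) (by norm_num)
    rw [x1]
    have z1 : q18 1 = 37277 / 100000 := by norm_num [q18]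
    rw [z1]
    refine (mul_le_mul_of_nonneg_left y1 (by norm_num)).trans (by norm_num)
  have f2 : q18 2 * Real.logb 2 (hd 18 2 / q18 2) ≤ 3101463 / 1250000 := by
    have x2 : hd 18 2 / q18 2 = 500000 / 783 := by rw [H2]; norm_num [q18]
    have y2 := logb_le_of (x := 500000 / 783) 1 233 25 (by norm_num) (by norm_num) (by norm_num)
    rw [x2]
    have z2 : q18 2 = 13311 / 50000 := by norm_num [q18]
    rw [z2]
    refine (mul_le_mul_of_nonneg_left y2 (by norm_num)).trans (by norm_num)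
  have f3 : q18 3 * Real.logb 2 (hd 18 3 / q18 3) ≤ 503591 / 350000 := by
    have x3 : hd 18 3 / q18 3 = 28050000 / 2693 := by rw [H3]; norm_num [q18]
    have y3 := logb_le_of (x := 28050000 / 2693) 1 187 14 (by norm_num) (by norm_num) (by norm_num)
    rw [x3]
    have z3 : q18 3 = 2693 / 25000 := by norm_num [q18]
    rw [z3]
    refine (mul_le_mul_of_nonneg_left y3 (by norm_num)).trans (by norm_num)
  have f4 : q18 4 * Real.logb 2 (hd 18 4 / q18 4) ≤ 37153 / 75000 := by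
    have x4 : hd 18 4 / q18 4 = 145350000 / 701 := by rw [H4]; norm_num [q18]
    have y4 := logb_le_of (x := 145350000 / 701) 1 53 3 (by norm_num) (by norm_num) (by norm_num)
    rw [x4]
    have z4 : q18 4 = 701 / 25000 := by norm_num [q18]
    rw [z4]
    refine (mul_le_mul_of_nonneg_left y4 (by norm_num)).trans (by norm_num)
  have f5 : q18 5 * Real.logb 2 (hd 18 5 / q18 5) ≤ 1407 / 12500 := by
    have x5 : hd 18 5 / q18 5 = 104975000 / 21 := by rw [H5]; norm_num [q18]
    have y5 := logb_le_of (x := 104975000 / 21) 1 67 3 (by norm_num) (by norm_num) (by norm_num)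
    rw [x5]
    have z5 : q18 5 = 63 / 12500 := by norm_num [q18]
    rw [z5]
    refine (mul_le_mul_of_nonneg_left y5 (by norm_num)).trans (by norm_num)
  have f6 : q18 6 * Real.logb 2 (hd 18 6 / q18 6) ≤ 91 / 5000 := by
    have x6 : hd 18 6 / q18 6 = 1899240000 / 13 := by rw [H6]; norm_num [q18]
    have y6 := logb_le_of (x := 1899240000 / 13) 1 28 1 (by norm_num) (by norm_num) (by norm_num)
    rw [x6]
    have z6 : q18 6 = 13 / 20000 := by norm_num [q18]
    rw [z6]
    refine (mul_le_mul_of_nonneg_left y6 (by norm_num)).trans (by norm_num)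
  have f7 : q18 7 * Real.logb 2 (hd 18 7 / q18 7) ≤ 33 / 20000 := by
    have x7 : hd 18 7 / q18 7 = 6395400000 := by rw [H7]; norm_num [q18]
    have y7 := logb_le_of (x := 6395400000) 1 33 1 (by norm_num) (by norm_num) (by norm_num)
    rw [x7]
    have z7 : q18 7 = 1 / 20000 := by norm_num [q18]
    rw [z7]
    refine (mul_le_mul_of_nonneg_left y7 (by norm_num)).trans (by norm_num)
  refine ⟨?_, ?_, ?_, ?_⟩
  · intro k hk
    interval_cases k <;> norm_num [q18]
  · norm_num [sum_range_succ, q18]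
  · have s : ∑ k ∈ range 7, √(q18 k * q18 (k + 1) * (aN 18 k * bN 18 (k + 1))) =
        √(q18 0 * q18 1 * (aN 18 0 * bN 18 1)) + √(q18 1 * q18 2 * (aN 18 1 * bN 18 2)) + √(q18 2 * q18 3 * (aN 18 2 * bN 18 3)) + √(q18 3 * q18 4 * (aN 18 3 * bN 18 4)) + √(q18 4 * q18 5 * (aN 18 4 * bN 18 5)) + √(q18 5 * q18 6 * (aN 18 5 * bN 18 6)) + √(q18 6 * q18 7 * (aN 18 6 * bN 18 7)) := by
      rw [sum_range_succ, sum_range_succ, sum_range_succ, sum_range_succ, sum_range_succ, sum_range_succ, sum_range_succ, sum_range_zero, zero_add]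
    rw [s]
    linarith
  · have s : ∑ k ∈ range (7 + 1), q18 k * Real.logb 2 (hd 18 k / q18 k) =
        q18 0 * Real.logb 2 (hd 18 0 / q18 0) + q18 1 * Real.logb 2 (hd 18 1 / q18 1) + q18 2 * Real.logb 2 (hd 18 2 / q18 2) + q18 3 * Real.logb 2 (hd 18 3 / q18 3) + q18 4 * Real.logb 2 (hd 18 4 / q18 4) + q18 5 * Real.logb 2 (hd 18 5 / q18 5) + q18 6 * Real.logb 2 (hd 18 6 / q18 6) + q18 7 * Real.logb 2 (hd 18 7 / q18 7) := by
      rw [sum_range_succ, sum_range_succ, sum_range_succ, sum_range_succ, sum_range_succ, sum_range_succ, sum_range_succ, sum_range_succ, sum_range_zero, zero_add]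
    rw [s]
    linarith

/-- dimension 19 -/
noncomputable def q19 : ℕ → ℝ
  | 0 => 20140 / 100000
  | 1 => 36155 / 100000
  | 2 => 27556 / 100000
  | 3 => 12000 / 100000
  | 4 => 3385 / 100000
  | 5 => 663 / 100000
  | 6 => 93 / 100000
  | 7 => 8 / 100000
  | _ => 0

theorem num19 : NumOK 19 7 q19 (0.39568 * 19) := by
  have A0 : aN 19 0 * bN 19 1 = 1 / 19 := by norm_num [aN, bN]
  have A1 : aN 19 1 * bN 19 2 = 12 / 133 := by norm_num [aN, bN]
  have A2 : aN 19 2 * bN 19 3 = 19 / 161 := by norm_num [aN, bN]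
  have A3 : aN 19 3 * bN 19 4 = 16 / 115 := by norm_num [aN, bN]
  have A4 : aN 19 4 * bN 19 5 = 7 / 45 := by norm_num [aN, bN]
  have A5 : aN 19 5 * bN 19 6 = 44 / 261 := by norm_num [aN, bN]
  have A6 : aN 19 6 * bN 19 7 = 161 / 899 := by norm_num [aN, bN]
  have H0 : hd 19 0 = 1 := by norm_num [hd]
  have H1 : hd 19 1 = 19 := by norm_num [hd]
  have H2 : hd 19 2 = 189 := by norm_num [hd]
  have H3 : hd 19 3 = 1311 := by norm_num [hd]
  have H4 : hd 19 4 = 7125 := by norm_num [hd]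
  have H5 : hd 19 5 = 32319 := by norm_num [hd]
  have H6 : hd 19 6 = 127281 := by norm_num [hd]
  have H7 : hd 19 7 = 447051 := by norm_num [hd]
  have e0 : (3095331 / 50000000 : ℝ) ≤ √(q19 0 * q19 1 * (aN 19 0 * bN 19 1)) := by
    rw [A0, Real.le_sqrt' (by norm_num)]
    norm_num [q19]
  have e1 : (9481063 / 100000000 : ℝ) ≤ √(q19 1 * q19 2 * (aN 19 1 * bN 19 2)) := by
    rw [A1, Real.le_sqrt' (by norm_num)]
    norm_num [q19]
  have e2 : (6246871 / 100000000 : ℝ) ≤ √(q19 2 * q19 3 * (aN 19 2 * bN 19 3)) := by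
    rw [A2, Real.le_sqrt' (by norm_num)]
    norm_num [q19]
  have e3 : (2377283 / 100000000 : ℝ) ≤ √(q19 3 * q19 4 * (aN 19 3 * bN 19 4)) := by
    rw [A3, Real.le_sqrt' (by norm_num)]
    norm_num [q19]
  have e4 : (147713 / 25000000 : ℝ) ≤ √(q19 4 * q19 5 * (aN 19 4 * bN 19 5)) := by
    rw [A4, Real.le_sqrt' (by norm_num)]
    norm_num [q19]
  have e5 : (50977 / 50000000 : ℝ) ≤ √(q19 5 * q19 6 * (aN 19 5 * bN 19 6)) := by
    rw [A5, Real.le_sqrt' (by norm_num)]
    norm_num [q19]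
  have e6 : (11543 / 100000000 : ℝ) ≤ √(q19 6 * q19 7 * (aN 19 6 * bN 19 7)) := by
    rw [A6, Real.le_sqrt' (by norm_num)]
    norm_num [q19]
  have f0 : q19 0 * Real.logb 2 (hd 19 0 / q19 0) ≤ 37259 / 80000 := by
    have x0 : hd 19 0 / q19 0 = 5000 / 1007 := by rw [H0]; norm_num [q19]
    have y0 := logb_le_of (x := 5000 / 1007) 1 37 16 (by norm_num) (by norm_num) (by norm_num)
    rw [x0]
    have z0 : q19 0 = 1007 / 5000 := by norm_num [q19]
    rw [z0]
    refine (mul_le_mul_of_nonneg_left y0 (by norm_num)).trans (by norm_num)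
  have f1 : q19 1 * Real.logb 2 (hd 19 1 / q19 1) ≤ 2190993 / 1060000 := by
    have x1 : hd 19 1 / q19 1 = 380000 / 7231 := by rw [H1]; norm_num [q19]
    have y1 := logb_le_of (x := 380000 / 7231) 1 303 53 (by norm_num) (by norm_num) (by norm_num)
    rw [x1]
    have z1 : q19 1 = 7231 / 20000 := by norm_num [q19]
    rw [z1]
    refine (mul_le_mul_of_nonneg_left y1 (by norm_num)).trans (by norm_num)
  have f2 : q19 2 * Real.logb 2 (hd 19 2 / q19 2) ≤ 337561 / 130000 := by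
    have x2 : hd 19 2 / q19 2 = 4725000 / 6889 := by rw [H2]; norm_num [q19]
    have y2 := logb_le_of (x := 4725000 / 6889) 1 245 26 (by norm_num) (by norm_num) (by norm_num)
    rw [x2]
    have z2 : q19 2 = 6889 / 25000 := by norm_num [q19]
    rw [z2]
    refine (mul_le_mul_of_nonneg_left y2 (by norm_num)).trans (by norm_num)
  have f3 : q19 3 * Real.logb 2 (hd 19 3 / q19 3) ≤ 161 / 100 := by
    have x3 : hd 19 3 / q19 3 = 10925 := by rw [H3]; norm_num [q19]
    have y3 := logb_le_of (x := 10925) 1 161 12 (by norm_num) (by norm_num) (by norm_num)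
    rw [x3]
    have z3 : q19 3 = 3 / 25 := by norm_num [q19]
    rw [z3]
    refine (mul_le_mul_of_nonneg_left y3 (by norm_num)).trans (by norm_num)
  have f4 : q19 4 * Real.logb 2 (hd 19 4 / q19 4) ≤ 119829 / 200000 := by
    have x4 : hd 19 4 / q19 4 = 142500000 / 677 := by rw [H4]; norm_num [q19]
    have y4 := logb_le_of (x := 142500000 / 677) 1 177 10 (by norm_num) (by norm_num) (by norm_num)
    rw [x4]
    have z4 : q19 4 = 677 / 20000 := by norm_num [q19]
    rw [z4]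
    refine (mul_le_mul_of_nonneg_left y4 (by norm_num)).trans (by norm_num)
  have f5 : q19 5 * Real.logb 2 (hd 19 5 / q19 5) ≤ 59007 / 400000 := by
    have x5 : hd 19 5 / q19 5 = 1077300000 / 221 := by rw [H5]; norm_num [q19]
    have y5 := logb_le_of (x := 1077300000 / 221) 1 89 4 (by norm_num) (by norm_num) (by norm_num)
    rw [x5]
    have z5 : q19 5 = 663 / 100000 := by norm_num [q19]
    rw [z5]
    refine (mul_le_mul_of_nonneg_left y5 (by norm_num)).trans (by norm_num)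
  have f6 : q19 6 * Real.logb 2 (hd 19 6 / q19 6) ≤ 1023 / 40000 := by
    have x6 : hd 19 6 / q19 6 = 4242700000 / 31 := by rw [H6]; norm_num [q19]
    have y6 := logb_le_of (x := 4242700000 / 31) 1 55 2 (by norm_num) (by norm_num) (by norm_num)
    rw [x6]
    have z6 : q19 6 = 93 / 100000 := by norm_num [q19]
    rw [z6]
    refine (mul_le_mul_of_nonneg_left y6 (by norm_num)).trans (by norm_num)
  have f7 : q19 7 * Real.logb 2 (hd 19 7 / q19 7) ≤ 33 / 12500 := by
    have x7 : hd 19 7 / q19 7 = 5588137500 := by rw [H7]; norm_num [q19]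
    have y7 := logb_le_of (x := 5588137500) 1 33 1 (by norm_num) (by norm_num) (by norm_num)
    rw [x7]
    have z7 : q19 7 = 1 / 12500 := by norm_num [q19]
    rw [z7]
    refine (mul_le_mul_of_nonneg_left y7 (by norm_num)).trans (by norm_num)
  refine ⟨?_, ?_, ?_, ?_⟩
  · intro k hk
    interval_cases k <;> norm_num [q19]
  · norm_num [sum_range_succ, q19]
  · have s : ∑ k ∈ range 7, √(q19 k * q19 (k + 1) * (aN 19 k * bN 19 (k + 1))) =
        √(q19 0 * q19 1 * (aN 19 0 * bN 19 1)) + √(q19 1 * q19 2 * (aN 19 1 * bN 19 2)) + √(q19 2 * q19 3 * (aN 19 2 * bN 19 3)) + √(q19 3 * q19 4 * (aN 19 3 * bN 19 4)) + √(q19 4 * q19 5 * (aN 19 4 * bN 19 5)) + √(q19 5 * q19 6 * (aN 19 5 * bN 19 6)) + √(q19 6 * q19 7 * (aN 19 6 * bN 19 7)) := by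
      rw [sum_range_succ, sum_range_succ, sum_range_succ, sum_range_succ, sum_range_succ, sum_range_succ, sum_range_succ, sum_range_zero, zero_add]
    rw [s]
    linarith
  · have s : ∑ k ∈ range (7 + 1), q19 k * Real.logb 2 (hd 19 k / q19 k) =
        q19 0 * Real.logb 2 (hd 19 0 / q19 0) + q19 1 * Real.logb 2 (hd 19 1 / q19 1) + q19 2 * Real.logb 2 (hd 19 2 / q19 2) + q19 3 * Real.logb 2 (hd 19 3 / q19 3) + q19 4 * Real.logb 2 (hd 19 4 / q19 4) + q19 5 * Real.logb 2 (hd 19 5 / q19 5) + q19 6 * Real.logb 2 (hd 19 6 / q19 6) + q19 7 * Real.logb 2 (hd 19 7 / q19 7) := by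
      rw [sum_range_succ, sum_range_succ, sum_range_succ, sum_range_succ, sum_range_succ, sum_range_succ, sum_range_succ, sum_range_succ, sum_range_zero, zero_add]
    rw [s]
    linarith

/-- dimension 20 -/
noncomputable def q20 : ℕ → ℝ
  | 0 => 18478 / 100000
  | 1 => 34963 / 100000
  | 2 => 28330 / 100000
  | 3 => 13215 / 100000
  | 4 => 4019 / 100000
  | 5 => 853 / 100000
  | 6 => 130 / 100000
  | 7 => 12 / 100000
  | _ => 0

theorem num20 : NumOK 20 7 q20 (0.39568 * 20) := by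
  have A0 : aN 20 0 * bN 20 1 = 1 / 20 := by norm_num [aN, bN]
  have A1 : aN 20 1 * bN 20 2 = 19 / 220 := by norm_num [aN, bN]
  have A2 : aN 20 2 * bN 20 3 = 5 / 44 := by norm_num [aN, bN]
  have A3 : aN 20 3 * bN 20 4 = 7 / 52 := by norm_num [aN, bN]
  have A4 : aN 20 4 * bN 20 5 = 55 / 364 := by norm_num [aN, bN]
  have A5 : aN 20 5 * bN 20 6 = 23 / 140 := by norm_num [aN, bN]
  have A6 : aN 20 6 * bN 20 7 = 7 / 40 := by norm_num [aN, bN]
  have H0 : hd 20 0 = 1 := by norm_num [hd]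
  have H1 : hd 20 1 = 20 := by norm_num [hd]
  have H2 : hd 20 2 = 209 := by norm_num [hd]
  have H3 : hd 20 3 = 1520 := by norm_num [hd]
  have H4 : hd 20 4 = 8645 := by norm_num [hd]
  have H5 : hd 20 5 = 40964 := by norm_num [hd]
  have H6 : hd 20 6 = 168245 := by norm_num [hd]
  have H7 : hd 20 7 = 615296 := by norm_num [hd]
  have e0 : (710439 / 12500000 : ℝ) ≤ √(q20 0 * q20 1 * (aN 20 0 * bN 20 1)) := by
    rw [A0, Real.le_sqrt' (by norm_num)]
    norm_num [q20]
  have e1 : (2312241 / 25000000 : ℝ) ≤ √(q20 1 * q20 2 * (aN 20 1 * bN 20 2)) := by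
    rw [A1, Real.le_sqrt' (by norm_num)]
    norm_num [q20]
  have e2 : (6522521 / 100000000 : ℝ) ≤ √(q20 2 * q20 3 * (aN 20 2 * bN 20 3)) := by
    rw [A2, Real.le_sqrt' (by norm_num)]
    norm_num [q20]
  have e3 : (2673867 / 100000000 : ℝ) ≤ √(q20 3 * q20 4 * (aN 20 3 * bN 20 4)) := by
    rw [A3, Real.le_sqrt' (by norm_num)]
    norm_num [q20]
  have e4 : (17993 / 2500000 : ℝ) ≤ √(q20 4 * q20 5 * (aN 20 4 * bN 20 5)) := by
    rw [A4, Real.le_sqrt' (by norm_num)]
    norm_num [q20]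
  have e5 : (33743 / 25000000 : ℝ) ≤ √(q20 5 * q20 6 * (aN 20 5 * bN 20 6)) := by
    rw [A5, Real.le_sqrt' (by norm_num)]
    norm_num [q20]
  have e6 : (8261 / 50000000 : ℝ) ≤ √(q20 6 * q20 7 * (aN 20 6 * bN 20 7)) := by
    rw [A6, Real.le_sqrt' (by norm_num)]
    norm_num [q20]
  have f0 : q20 0 * Real.logb 2 (hd 20 0 / q20 0) ≤ 619013 / 1375000 := by
    have x0 : hd 20 0 / q20 0 = 50000 / 9239 := by rw [H0]; norm_num [q20]
    have y0 := logb_le_of (x := 50000 / 9239) 1 134 55 (by norm_num) (by norm_num) (by norm_num)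
    rw [x0]
    have z0 : q20 0 = 9239 / 50000 := by norm_num [q20]
    rw [z0]
    refine (mul_le_mul_of_nonneg_left y0 (by norm_num)).trans (by norm_num)
  have f1 : q20 1 * Real.logb 2 (hd 20 1 / q20 1) ≤ 21432319 / 10500000 := by
    have x1 : hd 20 1 / q20 1 = 2000000 / 34963 := by rw [H1]; norm_num [q20]
    have y1 := logb_le_of (x := 2000000 / 34963) 1 613 105 (by norm_num) (by norm_num) (by norm_num)
    rw [x1]
    have z1 : q20 1 = 34963 / 100000 := by norm_num [q20]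
    rw [z1]
    refine (mul_le_mul_of_nonneg_left y1 (by norm_num)).trans (by norm_num)
  have f2 : q20 2 * Real.logb 2 (hd 20 2 / q20 2) ≤ 399453 / 148000 := by
    have x2 : hd 20 2 / q20 2 = 2090000 / 2833 := by rw [H2]; norm_num [q20]
    have y2 := logb_le_of (x := 2090000 / 2833) 1 705 74 (by norm_num) (by norm_num) (by norm_num)
    rw [x2]
    have z2 : q20 2 = 2833 / 10000 := by norm_num [q20]
    rw [z2]
    refine (mul_le_mul_of_nonneg_left y2 (by norm_num)).trans (by norm_num)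
  have f3 : q20 3 * Real.logb 2 (hd 20 3 / q20 3) ≤ 1747023 / 980000 := by
    have x3 : hd 20 3 / q20 3 = 30400000 / 2643 := by rw [H3]; norm_num [q20]
    have y3 := logb_le_of (x := 30400000 / 2643) 1 661 49 (by norm_num) (by norm_num) (by norm_num)
    rw [x3]
    have z3 : q20 3 = 2643 / 20000 := by norm_num [q20]
    rw [z3]
    refine (mul_le_mul_of_nonneg_left y3 (by norm_num)).trans (by norm_num)
  have f4 : q20 4 * Real.logb 2 (hd 20 4 / q20 4) ≤ 1659847 / 2331250 := by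
    have x4 : hd 20 4 / q20 4 = 864500000 / 4019 := by rw [H4]; norm_num [q20]
    have y4 := logb_le_of (x := 864500000 / 4019) 8 826 373 (by norm_num) (by norm_num) (by norm_num)
    rw [x4]
    have z4 : q20 4 = 4019 / 100000 := by norm_num [q20]
    rw [z4]
    refine (mul_le_mul_of_nonneg_left y4 (by norm_num)).trans (by norm_num)
  have f5 : q20 5 * Real.logb 2 (hd 20 5 / q20 5) ≤ 94683 / 500000 := by
    have x5 : hd 20 5 / q20 5 = 4096400000 / 853 := by rw [H5]; norm_num [q20]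
    have y5 := logb_le_of (x := 4096400000 / 853) 1 111 5 (by norm_num) (by norm_num) (by norm_num)
    rw [x5]
    have z5 : q20 5 = 853 / 100000 := by norm_num [q20]
    rw [z5]
    refine (mul_le_mul_of_nonneg_left y5 (by norm_num)).trans (by norm_num)
  have f6 : q20 6 * Real.logb 2 (hd 20 6 / q20 6) ≤ 7007 / 200000 := by
    have x6 : hd 20 6 / q20 6 = 1682450000 / 13 := by rw [H6]; norm_num [q20]
    have y6 := logb_le_of (x := 1682450000 / 13) 1 539 20 (by norm_num) (by norm_num) (by norm_num)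
    rw [x6]
    have z6 : q20 6 = 13 / 10000 := by norm_num [q20]
    rw [z6]
    refine (mul_le_mul_of_nonneg_left y6 (by norm_num)).trans (by norm_num)
  have f7 : q20 7 * Real.logb 2 (hd 20 7 / q20 7) ≤ 39 / 10000 := by
    have x7 : hd 20 7 / q20 7 = 15382400000 / 3 := by rw [H7]; norm_num [q20]
    have y7 := logb_le_of (x := 15382400000 / 3) 1 65 2 (by norm_num) (by norm_num) (by norm_num)
    rw [x7]
    have z7 : q20 7 = 3 / 25000 := by norm_num [q20]
    rw [z7]
    refine (mul_le_mul_of_nonneg_left y7 (by norm_num)).trans (by norm_num)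
  refine ⟨?_, ?_, ?_, ?_⟩
  · intro k hk
    interval_cases k <;> norm_num [q20]
  · norm_num [sum_range_succ, q20]
  · have s : ∑ k ∈ range 7, √(q20 k * q20 (k + 1) * (aN 20 k * bN 20 (k + 1))) =
        √(q20 0 * q20 1 * (aN 20 0 * bN 20 1)) + √(q20 1 * q20 2 * (aN 20 1 * bN 20 2)) + √(q20 2 * q20 3 * (aN 20 2 * bN 20 3)) + √(q20 3 * q20 4 * (aN 20 3 * bN 20 4)) + √(q20 4 * q20 5 * (aN 20 4 * bN 20 5)) + √(q20 5 * q20 6 * (aN 20 5 * bN 20 6)) + √(q20 6 * q20 7 * (aN 20 6 * bN 20 7)) := by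
      rw [sum_range_succ, sum_range_succ, sum_range_succ, sum_range_succ, sum_range_succ, sum_range_succ, sum_range_succ, sum_range_zero, zero_add]
    rw [s]
    linarith
  · have s : ∑ k ∈ range (7 + 1), q20 k * Real.logb 2 (hd 20 k / q20 k) =
        q20 0 * Real.logb 2 (hd 20 0 / q20 0) + q20 1 * Real.logb 2 (hd 20 1 / q20 1) + q20 2 * Real.logb 2 (hd 20 2 / q20 2) + q20 3 * Real.logb 2 (hd 20 3 / q20 3) + q20 4 * Real.logb 2 (hd 20 4 / q20 4) + q20 5 * Real.logb 2 (hd 20 5 / q20 5) + q20 6 * Real.logb 2 (hd 20 6 / q20 6) + q20 7 * Real.logb 2 (hd 20 7 / q20 7) := by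
      rw [sum_range_succ, sum_range_succ, sum_range_succ, sum_range_succ, sum_range_succ, sum_range_succ, sum_range_succ, sum_range_succ, sum_range_zero, zero_add]
    rw [s]
    linarith

/-- dimension 1 -/
noncomputable def qn1 : ℕ → ℝ
  | 0 => 92708 / 100000
  | 1 => 7292 / 100000
  | _ => 0

theorem numn1 : NumG 0.520001 1 1 qn1 (0.38908 * 1) := by
  have A0 : aN 1 0 * bN 1 1 = 1 := by norm_num [aN, bN]
  have H0 : hd 1 0 = 1 := by norm_num [hd]
  have H1 : hd 1 1 = 1 := by norm_num [hd]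
  have e0 : (13000257 / 50000000 : ℝ) ≤ √(qn1 0 * qn1 1 * (aN 1 0 * bN 1 1)) := by
    rw [A0, Real.le_sqrt' (by norm_num)]
    norm_num [qn1]
  have f0 : qn1 0 * Real.logb 2 (hd 1 0 / qn1 0) ≤ 23177 / 225000 := by
    have x0 : hd 1 0 / qn1 0 = 25000 / 23177 := by rw [H0]; norm_num [qn1]
    have y0 := logb_le_of (x := 25000 / 23177) 1 1 9 (by norm_num) (by norm_num) (by norm_num)
    rw [x0]
    have z0 : qn1 0 = 23177 / 25000 := by norm_num [qn1]
    rw [z0]
    refine (mul_le_mul_of_nonneg_left y0 (by norm_num)).trans (by norm_num)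
  have f1 : qn1 1 * Real.logb 2 (hd 1 1 / qn1 1) ≤ 34637 / 125000 := by
    have x1 : hd 1 1 / qn1 1 = 25000 / 1823 := by rw [H1]; norm_num [qn1]
    have y1 := logb_le_of (x := 25000 / 1823) 1 19 5 (by norm_num) (by norm_num) (by norm_num)
    rw [x1]
    have z1 : qn1 1 = 1823 / 25000 := by norm_num [qn1]
    rw [z1]
    refine (mul_le_mul_of_nonneg_left y1 (by norm_num)).trans (by norm_num)
  refine ⟨?_, ?_, ?_, ?_⟩
  · intro k hk
    interval_cases k <;> norm_num [qn1]
  · norm_num [sum_range_succ, qn1]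
  · have s : ∑ k ∈ range 1, √(qn1 k * qn1 (k + 1) * (aN 1 k * bN 1 (k + 1))) =
        √(qn1 0 * qn1 1 * (aN 1 0 * bN 1 1)) := by
      rw [sum_range_succ, sum_range_zero, zero_add]
    rw [s]
    linarith
  · have s : ∑ k ∈ range (1 + 1), qn1 k * Real.logb 2 (hd 1 k / qn1 k) =
        qn1 0 * Real.logb 2 (hd 1 0 / qn1 0) + qn1 1 * Real.logb 2 (hd 1 1 / qn1 1) := by
      rw [sum_range_succ, sum_range_succ, sum_range_zero, zero_add]
    rw [s]
    linarith

/-- dimension 2 -/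
noncomputable def qn2 : ℕ → ℝ
  | 0 => 84917 / 100000
  | 1 => 14883 / 100000
  | 2 => 200 / 100000
  | _ => 0

theorem numn2 : NumG 0.520001 2 2 qn2 (0.38908 * 2) := by
  have A0 : aN 2 0 * bN 2 1 = 1 / 2 := by norm_num [aN, bN]
  have A1 : aN 2 1 * bN 2 2 = 1 / 4 := by norm_num [aN, bN]
  have H0 : hd 2 0 = 1 := by norm_num [hd]
  have H1 : hd 2 1 = 2 := by norm_num [hd]
  have H2 : hd 2 2 = 2 := by norm_num [hd]
  have e0 : (25137817 / 100000000 : ℝ) ≤ √(qn2 0 * qn2 1 * (aN 2 0 * bN 2 1)) := by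
    rw [A0, Real.le_sqrt' (by norm_num)]
    norm_num [qn2]
  have e1 : (862641 / 100000000 : ℝ) ≤ √(qn2 1 * qn2 2 * (aN 2 1 * bN 2 2)) := by
    rw [A1, Real.le_sqrt' (by norm_num)]
    norm_num [qn2]
  have f0 : qn2 0 * Real.logb 2 (hd 2 0 / qn2 0) ≤ 1953091 / 9750000 := by
    have x0 : hd 2 0 / qn2 0 = 100000 / 84917 := by rw [H0]; norm_num [qn2]
    have y0 := logb_le_of (x := 100000 / 84917) 1 46 195 (by norm_num) (by norm_num) (by norm_num)
    rw [x0]
    have z0 : qn2 0 = 84917 / 100000 := by norm_num [qn2]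
    rw [z0]
    refine (mul_le_mul_of_nonneg_left y0 (by norm_num)).trans (by norm_num)
  have f1 : qn2 1 * Real.logb 2 (hd 2 1 / qn2 1) ≤ 2733511 / 4900000 := by
    have x1 : hd 2 1 / qn2 1 = 200000 / 14883 := by rw [H1]; norm_num [qn2]
    have y1 := logb_le_of (x := 200000 / 14883) 1 551 147 (by norm_num) (by norm_num) (by norm_num)
    rw [x1]
    have z1 : qn2 1 = 14883 / 100000 := by norm_num [qn2]
    rw [z1]
    refine (mul_le_mul_of_nonneg_left y1 (by norm_num)).trans (by norm_num)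
  have f2 : qn2 2 * Real.logb 2 (hd 2 2 / qn2 2) ≤ 299 / 15000 := by
    have x2 : hd 2 2 / qn2 2 = 1000 := by rw [H2]; norm_num [qn2]
    have y2 := logb_le_of (x := 1000) 1 299 30 (by norm_num) (by norm_num) (by norm_num)
    rw [x2]
    have z2 : qn2 2 = 1 / 500 := by norm_num [qn2]
    rw [z2]
    refine (mul_le_mul_of_nonneg_left y2 (by norm_num)).trans (by norm_num)
  refine ⟨?_, ?_, ?_, ?_⟩
  · intro k hk
    interval_cases k <;> norm_num [qn2]
  · norm_num [sum_range_succ, qn2]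
  · have s : ∑ k ∈ range 2, √(qn2 k * qn2 (k + 1) * (aN 2 k * bN 2 (k + 1))) =
        √(qn2 0 * qn2 1 * (aN 2 0 * bN 2 1)) + √(qn2 1 * qn2 2 * (aN 2 1 * bN 2 2)) := by
      rw [sum_range_succ, sum_range_succ, sum_range_zero, zero_add]
    rw [s]
    linarith
  · have s : ∑ k ∈ range (2 + 1), qn2 k * Real.logb 2 (hd 2 k / qn2 k) =
        qn2 0 * Real.logb 2 (hd 2 0 / qn2 0) + qn2 1 * Real.logb 2 (hd 2 1 / qn2 1) + qn2 2 * Real.logb 2 (hd 2 2 / qn2 2) := by
      rw [sum_range_succ, sum_range_succ, sum_range_succ, sum_range_zero, zero_add]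
    rw [s]
    linarith

end Pool.Agent.H58.BL
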