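import Pool.Agent.H58.AG.Decomp

/-!
# Project BL, second part: nilpotent groups of class at most 2. Statements of the pieces.

`E = EuclideanSpace ℝ (Fin n)`, `G` a group of linear isometries of `E`, `V` a minimal invariant
subspace (`AG.IsMin G V`, see `Pool/Agent/H58/AG/Decomp.lean`; there is also the lemma
`AG.scalar_of_symm`: symmetric operators which commute with `G` and map `V` to `V` are scalar on `V`).
-/

set_option autoImplicit false

open Finset Module

namespace Pool.Agent.H58.BL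

/-- commutators are central: nilpotent of class at most 2 -/
def Class2 {n : ℕ} (G : Subgroup (EuclideanSpace ℝ (Fin n) ≃ₗᵢ[ℝ] EuclideanSpace ℝ (Fin n))) : Prop :=
  ∀ g ∈ G, ∀ h ∈ G, ∀ k ∈ G, (g * h * g⁻¹ * h⁻¹) * k = k * (g * h * g⁻¹ * h⁻¹)

/-- the elements of `G` which commute with `G` on `V` -/
def NV {n : ℕ} (G : Subgroup (EuclideanSpace ℝ (Fin n) ≃ₗᵢ[ℝ] EuclideanSpace ℝ (Fin n)))
    (V : Submodule ℝ (EuclideanSpace ℝ (Fin n))) :
    Set (EuclideanSpace ℝ (Fin n) ≃ₗᵢ[ℝ] EuclideanSpace ℝ (Fin n)) :=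
  {g | g ∈ G ∧ ∀ h ∈ G, ∀ v ∈ V, g (h v) = h (g v)}

/-- the real case: these elements are `1` or `-1` on `V` -/
def RealCase {n : ℕ} (G : Subgroup (EuclideanSpace ℝ (Fin n) ≃ₗᵢ[ℝ] EuclideanSpace ℝ (Fin n)))
    (V : Submodule ℝ (EuclideanSpace ℝ (Fin n))) : Prop :=
  ∀ g ∈ NV G V, (∀ v ∈ V, g v = v) ∨ ∀ v ∈ V, g v = -v

/-- the complex case: these elements are `a + b J` on `V`, `J` a complex structure on `V` that
commutes with `G` -/
def ComplexCase {n : ℕ} (G : Subgroup (EuclideanSpace ℝ (Fin n) ≃ₗᵢ[ℝ] EuclideanSpace ℝ (Fin n)))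
    (V : Submodule ℝ (EuclideanSpace ℝ (Fin n)))
    (J : EuclideanSpace ℝ (Fin n) →ₗ[ℝ] EuclideanSpace ℝ (Fin n)) : Prop :=
  (∀ v ∈ V, J v ∈ V) ∧ (∀ v ∈ V, J (J v) = -v) ∧
  (∀ v ∈ V, ∀ w ∈ V, inner ℝ (J v) w = - inner ℝ v (J w)) ∧
  (∀ h ∈ G, ∀ v ∈ V, J (h v) = h (J v)) ∧
  ∀ g ∈ NV G V, ∃ a b : ℝ, a ^ 2 + b ^ 2 = 1 ∧ ∀ v ∈ V, g v = a • v + b • J v

/-- STR. Proof: for `T` in `NV G V` the operator `T + T⁻¹` is symmetric and commutes with `G` on `V`
(compose with the projection to `V` to apply `AG.scalar_of_symm`; note `T⁻¹` is also in `NV G V`), so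
`T + T⁻¹ = 2 a` on `V`, `|a| ≤ 1`. If always `|a| = 1`, then `T = ±1` on `V` (as
`|T v - a v|² = 0`): real case. Otherwise take one `T₀` with `|a| < 1` and
`J = (T₀ - a) / √(1 - a²)` (on `V`; compose with the projection to `V`). Since `T₀² - 2 a T₀ + 1 = 0` on
`V`, `J² = -1`; `J` is skew since `T₀ᵗ = T₀⁻¹ = 2 a - T₀`. For another `T` in `NV G V`, `T = a' + b' J'`
with `a' ^ 2 + b' ^ 2 = 1` and `J'` of the same kind (or `T = ±1`). `J J' = J' J` (as `T T₀ = T₀ T` on `V`)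
is symmetric and commutes with `G`, so it is a scalar `c` on `V`, `c² = 1`, `J' = -c J`. -/
def S_STR : Prop := ∀ (n : ℕ) (G : Subgroup (EuclideanSpace ℝ (Fin n) ≃ₗᵢ[ℝ] EuclideanSpace ℝ (Fin n)))
  (V : Submodule ℝ (EuclideanSpace ℝ (Fin n))), AG.IsMin G V →
  RealCase G V ∨ ∃ J, ComplexCase G V J

/-- BESR. Number of classes modulo `NV`, real case. Let `d = dim V`. For `u ∈ G` not in `NV G V` there is
`h ∈ G` with `h u h⁻¹ = c u`, `c = h u h⁻¹ u⁻¹` central in `G`, so in `NV G V` and `±1` on `V`; it can be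
chosen with `c = -1` on `V` (else `u` commutes with `G` on `V`). So the trace of `u` on `V` is `0`. Hence
for different `g, h ∈ S` (`u = g⁻¹ h`) the operators `g|V, h|V` are orthogonal for the Hilbert-Schmidt
product `∑_i ⟨g e_i, h e_i⟩` (`e_i` an orthonormal basis of `V`), with squares of norms `d`. So they are
linearly independent in the `d²`-dimensional space of the endomorphisms of `V`: `|S| ≤ d²`. -/
def S_BESR : Prop := ∀ (n : ℕ)
  (G : Subgroup (EuclideanSpace ℝ (Fin n) ≃ₗᵢ[ℝ] EuclideanSpace ℝ (Fin n)))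
  (V : Submodule ℝ (EuclideanSpace ℝ (Fin n))), AG.IsMin G V → Class2 G → RealCase G V →
  ∀ S : Finset (EuclideanSpace ℝ (Fin n) ≃ₗᵢ[ℝ] EuclideanSpace ℝ (Fin n)), (∀ g ∈ S, g ∈ G) →
    (∀ g ∈ S, ∀ h ∈ S, g ≠ h → g⁻¹ * h ∉ NV G V) → S.card ≤ finrank ℝ V ^ 2

/-- BESC. The same in the complex case: `4 |S| ≤ d²`. For `u ∈ G` not in `NV G V` there is `h ∈ G` with
`h u h⁻¹ = (a + b J) u` on `V`, `a + b J ≠ 1`; so `tr u = a tr u + b tr (J u)`,
`tr (J u) = a tr (J u) - b tr u` (traces on `V`; `J` commutes with `h`), so `tr u = tr (J u) = 0`. So the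
operators `g|V, J g|V` (`g ∈ S`) are pairwise orthogonal for the Hilbert-Schmidt product, with squares of
norms `d`. Let `x, y` be unit vectors of `V` and `M = (y xᵗ + (J y)(J x)ᵗ) / 2`. Then `|M|² = 1 / 2`,
`⟨g, M⟩ = ⟨g x, y⟩`, `⟨J g, M⟩ = ⟨J g x, y⟩` since `g` commutes with `J`. Bessel's inequality:
`∑_(g ∈ S) (⟨g x, y⟩² + ⟨J g x, y⟩²) / d ≤ 1 / 2`. The sum over an orthonormal basis of `y`'s gives
`2 |S| / d ≤ d / 2`. (Or: the real dimension of the space of the endomorphisms of `V` which commute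
with `J` is `d² / 2`, and the `2 |S|` operators are linearly independent in it.) -/
def S_BESC : Prop := ∀ (n : ℕ)
  (G : Subgroup (EuclideanSpace ℝ (Fin n) ≃ₗᵢ[ℝ] EuclideanSpace ℝ (Fin n)))
  (V : Submodule ℝ (EuclideanSpace ℝ (Fin n)))
  (J : EuclideanSpace ℝ (Fin n) →ₗ[ℝ] EuclideanSpace ℝ (Fin n)),
  AG.IsMin G V → Class2 G → ComplexCase G V J →
  ∀ S : Finset (EuclideanSpace ℝ (Fin n) ≃ₗᵢ[ℝ] EuclideanSpace ℝ (Fin n)), (∀ g ∈ S, g ∈ G) →
    (∀ g ∈ S, ∀ h ∈ S, g ≠ h → g⁻¹ * h ∉ NV G V) → 4 * S.card ≤ finrank ℝ V ^ 2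

/-- POW. In the real case the dimension of `V` is a power of `2`. For `g ∈ G` the commutators with `g²`
are squares of central elements which are `±1` on `V`, so `g²` is in `NV G V`, and `G / NV` is an
elementary abelian 2-group, finite by `S_BESR`. Statement proved by induction on `s`: if `Z ≤ G` are
groups of isometries, `[G : Z] = 2^s`, `Z` contains all squares of elements of `G` and all commutators
(so that all intermediate groups are normal), every element of `Z` is `±1` on `V`, and `V` is a minimal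
`G`-invariant subspace, then `dim V` is a power of 2. `s = 0`: `G = Z`, so every line of `V` is
invariant, `dim V = 1`. Step: take a subgroup `H` of index 2 in `G` which contains `Z` (a hyperplane
of `G / Z`), and a minimal `H`-invariant subspace `W` of `V` and `g ∈ G`, `g ∉ H`. Then `g W` is
`H`-invariant, `W + g W` is `G`-invariant, so it is `V`, and `W ∩ g W` is `0` or `W`; so
`dim V` is `2 dim W` or `dim W`, and `dim W` is a power of 2 by induction. -/
def S_POW : Prop := S_BESR → ∀ (n : ℕ)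
  (G : Subgroup (EuclideanSpace ℝ (Fin n) ≃ₗᵢ[ℝ] EuclideanSpace ℝ (Fin n)))
  (V : Submodule ℝ (EuclideanSpace ℝ (Fin n))), AG.IsMin G V → Class2 G → RealCase G V →
  ∃ r : ℕ, finrank ℝ V = 2 ^ r

end Pool.Agent.H58.BL
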