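import Pool.Agent.H58.BL.Stm
import Pool.Agent.H58.BL.Stm2

/-!
# Project BL, third part: the coordinates of an orbit in one minimal invariant subspace
-/

set_option autoImplicit false

open Finset Module

namespace Pool.Agent.H58.BL

/-- On the orbit of `x0` the projections to `V` are given, inside each of `N` classes, by unit vectors
of `ℝ^δ`, up to the factor `‖P x0‖` and an isometry. -/
def Loc {n : ℕ} (G : Subgroup (EuclideanSpace ℝ (Fin n) ≃ₗᵢ[ℝ] EuclideanSpace ℝ (Fin n)))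
    (V : Submodule ℝ (EuclideanSpace ℝ (Fin n))) (x0 : EuclideanSpace ℝ (Fin n)) (N δ : ℕ) : Prop :=
  ∃ (l : EuclideanSpace ℝ (Fin n) → Fin N) (v : EuclideanSpace ℝ (Fin n) → Fin δ → ℝ),
    ∀ g ∈ G, ∀ h ∈ G, dt (v (g x0)) (v (g x0)) = 1 ∧
      (l (g x0) = l (h x0) →
        inner ℝ (V.starProjection (g x0)) (V.starProjection (h x0)) =
          ‖V.starProjection x0‖ ^ 2 * dt (v (g x0)) (v (h x0)))

/-- LOCD. Any orbit, `V` minimal invariant of dimension `d ≥ 1`: one class, `δ = d`. If `P x0 = 0`, take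
the constant vector `Pi.single 0 1` (note `d ≥ 1`); otherwise the coordinates of `P x / ‖P x0‖` in an
orthonormal basis of `V` (`‖P (g x0)‖ = ‖g (P x0)‖ = ‖P x0‖`). The projection commutes with `G`:
`Pool.Agent.H695.BL.proj_comm` (in `Pool/Agent/H695/BL/Dec.lean`). -/
def S_LOCD : Prop := ∀ (n : ℕ)
  (G : Subgroup (EuclideanSpace ℝ (Fin n) ≃ₗᵢ[ℝ] EuclideanSpace ℝ (Fin n)))
  (V : Submodule ℝ (EuclideanSpace ℝ (Fin n))), AG.IsMin G V → ∀ x0, Loc G V x0 1 (finrank ℝ V)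

/-- LOCR. Real case. Take a finite set `S ⊆ G` of elements which are pairwise not equivalent modulo
`NV G V` (`g ≠ h → g⁻¹ * h ∉ NV G V`) with the largest cardinality (bounded by `S_BESR`: at most
`d ^ 2`). For each `x` in the orbit choose `g_x ∈ G` with `x = g_x x0`. By maximality there is
`s_x ∈ S` with `s_x⁻¹ g_x ∈ NV G V` (if `g_x ∉ S`; note `NV G V` is closed under inverses, it acts by
`±1` on `V`), and `P x = g_x (P x0) = s_x (s_x⁻¹ g_x) (P x0) = σ_x s_x (P x0)`, `σ_x = ±1`. Class of `x`: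
`s_x` (in `Fin (d ^ 2)` by an injection of `S`), vector `v x = (σ_x)`. If `s_x = s_y = s`, then
`⟨P x, P y⟩ = σ_x σ_y ⟨s P x0, s P x0⟩ = σ_x σ_y ‖P x0‖²`. Here `P (g x) = g (P x)` is
`Pool.Agent.H695.BL.proj_comm`. -/
def S_LOCR : Prop := S_BESR → ∀ (n : ℕ)
  (G : Subgroup (EuclideanSpace ℝ (Fin n) ≃ₗᵢ[ℝ] EuclideanSpace ℝ (Fin n)))
  (V : Submodule ℝ (EuclideanSpace ℝ (Fin n))), AG.IsMin G V → Class2 G → RealCase G V →
  ∀ x0, Loc G V x0 (finrank ℝ V ^ 2) 1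

/-- LOCC. Complex case: the dimension of `V` is even, `2 e` (`J² = -1` on `V`: the determinant of `J` on
`V` has square `(-1)^d`), and there are at most `e ^ 2` classes (by `S_BESC`, `4 |S| ≤ (2 e)²`), with
vectors of dimension `2`: as in LOCR, `P x = s_x ((a_x + b_x J) (P x0))`, `a_x² + b_x² = 1`,
`v x = (a_x, b_x)`. If `s_x = s_y = s`, then `⟨P x, P y⟩ = ⟨a w + b J w, a' w + b' J w⟩` with
`w = P x0`, `= a a' |w|² + b b' |J w|² + (a b' + a' b) ⟨w, J w⟩ = (a a' + b b') |w|²`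
(`⟨w, J w⟩ = 0`, `|J w| = |w|` as `J` is skew and `J² = -1` on `V`). -/
def S_LOCC : Prop := S_BESC → ∀ (n : ℕ)
  (G : Subgroup (EuclideanSpace ℝ (Fin n) ≃ₗᵢ[ℝ] EuclideanSpace ℝ (Fin n)))
  (V : Submodule ℝ (EuclideanSpace ℝ (Fin n)))
  (J : EuclideanSpace ℝ (Fin n) →ₗ[ℝ] EuclideanSpace ℝ (Fin n)),
  AG.IsMin G V → Class2 G → ComplexCase G V J →
  ∃ e : ℕ, finrank ℝ V = 2 * e ∧ ∀ x0, Loc G V x0 (e ^ 2) 2

/-- BITS. For the first: induction on `r` (`10.36518 ≤ 12.632`), the left side grows by `2` and the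
right side doubles. The second: `logb 2 e ≤ logb 2 9 + (e/9 - 1)/log 2` (`Real.log_le_sub_one_of_pos`),
`logb 2 9 ≤ 3.17` (`9^100 ≤ 2^317`), `log 2 ≥ 0.6931471803` (`Real.log_two_gt_d9`); at `e = 9`:
`2 · 3.17 + 0.73036 = 7.07036 ≤ 7.10604`. -/
def S_BITS : Prop :=
  (∀ r : ℕ, 5 ≤ r → Real.logb 2 ((((2 ^ r) ^ 2 : ℕ)) : ℝ) + 0.36518 ≤ 0.39478 * ((2 ^ r : ℕ) : ℝ)) ∧
  ∀ e : ℕ, 9 ≤ e → Real.logb 2 ((e ^ 2 : ℕ) : ℝ) + 0.73036 ≤ 0.39478 * ((2 * e : ℕ) : ℝ)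

end Pool.Agent.H58.BL
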