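import Pool.Agent.H58.BL.Uni
import Pool.Agent.H58.BL.Stm3
import Pool.Agent.H695.BL.Dec

/-!
# Codes in the orbits of groups: general form
-/

set_option autoImplicit false

open Finset Module

namespace Pool.Agent.H58.BL

/-- decomposition in minimal invariant subspaces, inner products -/
lemma dec_inner {n : ℕ} (G : Subgroup (EuclideanSpace ℝ (Fin n) ≃ₗᵢ[ℝ] EuclideanSpace ℝ (Fin n))) :
    ∃ (m : ℕ) (W : Fin m → Submodule ℝ (EuclideanSpace ℝ (Fin n))), (∀ j, AG.IsMin G (W j)) ∧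
      ∑ j, finrank ℝ (W j) = n ∧ (∀ x, ∑ j, ‖(W j).starProjection x‖ ^ 2 = ‖x‖ ^ 2) ∧
      ∀ x y, ∑ j, inner ℝ ((W j).starProjection x) ((W j).starProjection y) = (inner ℝ x y : ℝ) := by
  obtain ⟨m, W, h1, _, h3, h4⟩ := Pool.Agent.H695.BL.exists_dec G n ⊤ (fun _ _ _ _ => trivial) (by
    rw [finrank_top, finrank_euclideanSpace, Fintype.card_fin])
  have h5 : ∀ x, ∑ j, ‖(W j).starProjection x‖ ^ 2 = ‖x‖ ^ 2 := by
    intro x
    exact h4 x trivial
  refine ⟨m, W, h1, h3, h5, ?_⟩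
  intro x y
  have e1 : ∀ j, inner ℝ ((W j).starProjection x) ((W j).starProjection y) =
      (‖(W j).starProjection (x + y)‖ ^ 2 - ‖(W j).starProjection x‖ ^ 2 -
        ‖(W j).starProjection y‖ ^ 2) / 2 := by
    intro j
    rw [map_add, norm_add_sq_real]
    ring
  simp_rw [e1]
  rw [← sum_div, sum_sub_distrib, sum_sub_distrib, h5, h5, h5, norm_add_sq_real]
  ring

lemma IsMin.pos {n : ℕ} {G : Subgroup (EuclideanSpace ℝ (Fin n) ≃ₗᵢ[ℝ] EuclideanSpace ℝ (Fin n))}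
    {V : Submodule ℝ (EuclideanSpace ℝ (Fin n))} (h : AG.IsMin G V) : 1 ≤ finrank ℝ V := by
  rw [Nat.one_le_iff_ne_zero, Ne, Submodule.finrank_eq_zero]
  exact h.2.1

/-- **the bound for one orbit, general form** -/
theorem orbit_bound (per : S_PER) {s σ : ℝ} (hs0 : 0 ≤ s) (hs1 : s ≤ 1) (hσ : s < σ) {D : ℕ}
    (hD : 1 ≤ D) {C : ℕ → ℝ} (data : ∀ d : ℕ, 1 ≤ d → d ≤ D →
      ∃ (L : ℕ) (q : ℕ → ℝ), KernOK d L ∧ NumG σ d L q (C d)) (c : ℝ) {ε : ℝ} (hε : 0 < ε) :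
    ∃ K0 : ℝ, 0 < K0 ∧ ∀ (n : ℕ)
      (G : Subgroup (EuclideanSpace ℝ (Fin n) ≃ₗᵢ[ℝ] EuclideanSpace ℝ (Fin n))),
      (∀ V, AG.IsMin G V → ∀ x0, ∃ N δ : ℕ, 1 ≤ δ ∧ δ ≤ D ∧
        Real.logb 2 N + C δ ≤ c * finrank ℝ V ∧ Loc G V x0 N δ) →
      ∀ (X : Finset (EuclideanSpace ℝ (Fin n))) (x0 : EuclideanSpace ℝ (Fin n)),
      (∀ x ∈ X, ∃ g ∈ G, x = g x0) → (∀ x ∈ X, ‖x‖ = 1) →
      (∀ x ∈ X, ∀ y ∈ X, x ≠ y → inner ℝ x y ≤ s) →
      (X.card : ℝ) ≤ K0 * 2 ^ ((c + ε) * n) := by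
  classical
  obtain ⟨K0, hK0, hbt⟩ := bt_gen per hs0 hs1 hσ hD data hε
  refine ⟨K0, hK0, ?_⟩
  intro n G hloc X x0 hX hX1 hX2
  rcases X.eq_empty_or_nonempty with rfl | ⟨xx, hxx⟩
  · simp only [card_empty, Nat.cast_zero]
    positivity
  have hx0 : ‖x0‖ = 1 := by
    obtain ⟨g, _, hg⟩ := hX xx hxx
    rw [← hX1 xx hxx, hg, LinearIsometryEquiv.norm_map]
  obtain ⟨m, W, hW, hn, hsq, hin⟩ := dec_inner G
  choose N δ h1 h16 hcost l v hlv using fun j => hloc (W j) (hW j) x0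
  have hNpos : ∀ j, 0 < N j := fun j => Fin.pos (l j x0)
  -- the classes
  have hcl : ∀ lam : ∀ j, Fin (N j),
      (((univ : Finset {x // x ∈ X}).filter (fun x => ∀ j, l j x.1 = lam j)).card : ℝ) ≤
        K0 * 2 ^ (∑ j, (C (δ j) + ε)) := by
    intro lam
    refine hbt X _ m δ (fun j => ⟨h1 j, h16 j⟩) (fun j x => v j x.1) ?_
      (fun j => ‖(W j).starProjection x0‖ ^ 2) (fun j => sq_nonneg _) ?_ ?_
    · intro j x
      obtain ⟨g, hg, hgx⟩ := hX x x.2
      rw [hgx]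
      exact (hlv j g hg g hg).1
    · rw [hsq, hx0, one_pow]
    · intro x hx y hy hxy
      rw [mem_filter] at hx hy
      obtain ⟨g, hg, hgx⟩ := hX x x.2
      obtain ⟨h, hh, hhy⟩ := hX y y.2
      have e1 : ∀ j, ‖(W j).starProjection x0‖ ^ 2 * dt (v j x) (v j y) =
          inner ℝ ((W j).starProjection x) ((W j).starProjection y) := by
        intro j
        have h2 : l j (g x0) = l j (h x0) := by
          rw [← hgx, ← hhy, hx.2 j, hy.2 j]
        rw [hgx, hhy]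
        exact ((hlv j g hg h hh).2 h2).symm
      rw [sum_congr rfl (fun j _ => e1 j), hin]
      exact hX2 x x.2 y y.2 (fun h => hxy (Subtype.ext h))
  have hcard : (X.card : ℝ) ≤ (∏ j, (N j : ℝ)) * (K0 * 2 ^ (∑ j, (C (δ j) + ε))) := by
    have e1 : X.card = ∑ lam : (∀ j, Fin (N j)),
        ((univ : Finset {x // x ∈ X}).filter (fun x => ∀ j, l j x.1 = lam j)).card := by
      have e2 := Finset.card_eq_sum_card_fiberwise (f := fun x : {x // x ∈ X} => (fun j => l j x.1))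
        (s := (univ : Finset {x // x ∈ X})) (t := (univ : Finset (∀ j, Fin (N j)))) (fun _ _ => mem_univ _)
      rw [card_univ, Fintype.card_coe] at e2
      rw [e2]
      apply sum_congr rfl
      intro lam _
      congr 1
      ext x
      simp only [mem_filter, mem_univ, true_and]
      exact funext_iff
    rw [e1]
    push_cast
    calc ∑ lam : (∀ j, Fin (N j)),
        (((univ : Finset {x // x ∈ X}).filter (fun x => ∀ j, l j x.1 = lam j)).card : ℝ) ≤
        ∑ _lam : (∀ j, Fin (N j)), K0 * 2 ^ (∑ j, (C (δ j) + ε)) := sum_le_sum fun lam _ => hcl lam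
      _ = (∏ j, (N j : ℝ)) * (K0 * 2 ^ (∑ j, (C (δ j) + ε))) := by
        rw [sum_const, card_univ, Fintype.card_pi, nsmul_eq_mul]
        simp only [Fintype.card_fin]
        push_cast
        rfl
  refine hcard.trans ?_
  have e3 : ∏ j, (N j : ℝ) = 2 ^ (∑ j, Real.logb 2 (N j)) := by
    rw [Real.rpow_sum_of_pos two_pos]
    apply prod_congr rfl
    intro j _
    rw [Real.rpow_logb two_pos (by norm_num) (by exact_mod_cast hNpos j)]
  rw [e3, mul_left_comm, ← Real.rpow_add two_pos]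
  apply mul_le_mul_of_nonneg_left _ hK0.le
  apply Real.rpow_le_rpow_of_exponent_le one_le_two
  rw [← sum_add_distrib]
  calc ∑ j, (Real.logb 2 (N j) + (C (δ j) + ε)) ≤ ∑ j, (c + ε) * (finrank ℝ (W j) : ℝ) := by
        apply sum_le_sum
        intro j _
        have h2 : (1 : ℝ) ≤ finrank ℝ (W j) := by exact_mod_cast IsMin.pos (hW j)
        have h3 := hcost j
        nlinarith
    _ = (c + ε) * n := by
        rw [← mul_sum]
        congr 1
        rw [← Nat.cast_sum, hn]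

end Pool.Agent.H58.BL
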