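import Pool.Agent.H58.AG.Decomp

/-!
# Project BL (helper58, MP_b5f63d_co): kissing configurations on products of spheres of small
dimension, and in the orbits of groups with irreducible constituents of small dimension.
Definitions and statements of the pieces. Each piece has a complete paper proof in its docstring.
-/

set_option autoImplicit false

open Finset Module

namespace Pool.Agent.H58.BL

/-- inner product -/
def dt {d : ℕ} (v w : Fin d → ℝ) : ℝ := ∑ i, v i * w i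

/-- the kernel `K (⟨v, w⟩)` on the unit sphere of `ℝ^d` is given by features -/
def Psd (d : ℕ) (K : ℝ → ℝ) : Prop :=
  ∃ (ι : Type) (_ : Fintype ι) (Ψ : (Fin d → ℝ) → ι → ℝ),
    ∀ v w, dt v v = 1 → dt w w = 1 → K (dt v w) = ∑ i, Ψ v i * Ψ w i

/-- the features lie in the range of a matrix `Q` with sum of squares at most `r` (for orthogonal
projections `Q` the sum of squares is the rank) -/
def Feat (d : ℕ) (K : ℝ → ℝ) (r : ℝ) : Prop :=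
  ∃ (ι : Type) (_ : Fintype ι) (Ψ : (Fin d → ℝ) → ι → ℝ) (Q : ι → ι → ℝ),
    (∀ v w, dt v v = 1 → dt w w = 1 → K (dt v w) = ∑ i, Ψ v i * Ψ w i) ∧
    (∀ v, dt v v = 1 → ∑ i, ∑ j, Q i j * (Ψ v i * Ψ v j) = 1) ∧
    ∑ i, ∑ j, Q i j ^ 2 ≤ r

/-- the Gegenbauer polynomials of the sphere of `ℝ^d` (`d ≥ 2`), normalised by `1` at `1` -/
noncomputable def geg (d : ℕ) : ℕ → ℝ → ℝ
  | 0, _ => 1
  | 1, t => t
  | k + 2, t => ((2 * k + d) * t * geg d (k + 1) t - (k + 1) * geg d k t) / (k + d - 1)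

/-- the dimensions of the spaces of the harmonic polynomials: `1, d, (d+2)(d-1)/2, ...`; in general
`hd d k = C(d+k-1, k) - C(d+k-3, k-2)` (for `d ≥ 2`) -/
noncomputable def hd (d : ℕ) : ℕ → ℝ
  | 0 => 1
  | 1 => d
  | k + 2 => hd d (k + 1) * (((k + d - 1) * (2 * k + 2 + d)) / ((2 * k + d) * (k + 2)))

/-- F2. Features `Ψ v (a, b) = √(d/(d-1)) (v_a v_b - δ_ab / d)`, and the projection to the symmetric
matrices of trace zero `Q (a,b) (a',b') = (δ_aa' δ_bb' + δ_ab' δ_ba') / 2 - δ_ab δ_a'b' / d`. Then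
`∑ Ψ v Ψ w = (d/(d-1)) (t² - 1/d)`; `∑ Q ΨΨ = ∑ Ψ²` since `Ψ v` is symmetric with trace zero;
`∑ Q² = (d² + 2 d + d²)/4 - 2 + 1 = (d+2)(d-1)/2`. -/
def S_F2 : Prop := ∀ d : ℕ, 2 ≤ d →
  Feat d (fun t => (d * t ^ 2 - 1) / (d - 1)) (((d : ℝ) + 2) * (d - 1) / 2)

/-- F3. Features `Ψ v (a, b, c) = √((d+2)/(d-1)) (v_a v_b v_c - (v_a δ_bc + v_b δ_ac + v_c δ_ab)/(d+2))`.
With `t = ⟨v, w⟩`, `|v| = |w| = 1`: the sum of the products is `(d+2)/(d-1)` times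
`t³ - 2 · 3t/(d+2) + (3 d t + 6 t)/(d+2)² = t³ - 3t/(d+2)`. -/
def S_F3 : Prop := ∀ d : ℕ, 2 ≤ d → Psd d (fun t => ((d + 2) * t ^ 3 - 3 * t) / (d - 1))

/-- GEG. The Gegenbauer kernels of all degrees (addition theorem for spherical harmonics).
Proof with the Fischer inner product on the homogeneous polynomials `P_k` of degree `k` in
`x_1, ..., x_d`: `⟨p, q⟩ = ∑_m m! p_m q_m` (`m! = ∏ m_i!`, `p_m` the coefficients), so that
multiplication by `x_i` is adjoint to `∂_i` and multiplication by `R = ∑ x_i²` is adjoint to the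
Laplacian `Δ : P_k → P_(k-2)`. Multiplication by `R` is injective, so `Δ` is surjective and the
space `H_k` of the harmonic polynomials in `P_k` has dimension `C(d+k-1,k) - C(d+k-3,k-2) = hd d k`.
For a fixed vector `y` let `Z_0 = 1, Z_1 = ⟨x,y⟩`,
`Z_(k+2) = ((2k+d) ⟨x,y⟩ Z_(k+1) - (k+1) R |y|² Z_k) / (k+d-1)`. By induction on `k`:
`⟨y,∇⟩ Z_(k+1) = (k+1) |y|² Z_k` and `Δ Z_k = 0` (use `Δ(⟨x,y⟩ p) = ⟨x,y⟩ Δp + 2 ⟨y,∇⟩ p`,
`Δ(R p) = R Δp + (2 d + 4 k) p` for `p` in `P_k`, `⟨y,∇⟩(R p) = 2 ⟨x,y⟩ p + R ⟨y,∇⟩ p`), and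
`Z_k = c_k ⟨x,y⟩^k + R W_k` with `c_k > 0`. For `p` in `H_k`: `⟨p, R W⟩ = ⟨Δ p, W⟩ = 0` and
`⟨p, ⟨x,y⟩^k⟩ = k! p(y)` (multinomial theorem), so `⟨p, Z_k(·,y)⟩ = c_k k! p(y)`. With an orthonormal
basis `e_i` of `H_k` (Fischer product): `Z_k(y',y) = c_k k! ∑_i e_i(y) e_i(y')`, and on the unit sphere
`Z_k(y', y) = geg d k ⟨y, y'⟩`. So take `ι = Fin (dim H_k)`, `Ψ v i = √(c_k k!) e_i(v)`, `Q = 1`
(note `geg d k 1 = 1`). -/
def S_GEG : Prop := ∀ d : ℕ, 2 ≤ d → ∀ k : ℕ, Feat d (geg d k) (hd d k)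

/-- DEC. Decomposition in minimal invariant subspaces (`Inv`, `IsMin` are in
`Pool.Agent.H58.AG.Decomp`, where the case of commutative groups, planes, is done in
`exists_coords`). By strong induction on `finrank V` for an invariant subspace `V` (final case `⊤`):
take a minimal invariant subspace `W ≤ V` (`exists_min`), apply the induction to `V ⊓ Wᗮ`
(`inv_orthogonal`, `inv_inf`), and add the block `x ↦ coordinates of the orthogonal projection of x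
to W in an orthonormal basis of W`; the projection commutes with the elements of `G`. -/
def S_DEC : Prop := ∀ (n D : ℕ)
  (G : Subgroup (EuclideanSpace ℝ (Fin n) ≃ₗᵢ[ℝ] EuclideanSpace ℝ (Fin n))),
  (∀ W : Submodule ℝ (EuclideanSpace ℝ (Fin n)), AG.IsMin G W → finrank ℝ W ≤ D) →
  ∃ (m : ℕ) (δ : Fin m → ℕ), (∀ j, 1 ≤ δ j ∧ δ j ≤ D) ∧ ∑ j, δ j = n ∧
    ∃ Φ : ∀ j, EuclideanSpace ℝ (Fin n) →ₗ[ℝ] (Fin (δ j) → ℝ),
      (∀ x, ∑ j, dt (Φ j x) (Φ j x) = ‖x‖ ^ 2) ∧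
      ∀ g ∈ G, ∀ x j, dt (Φ j (g x)) (Φ j (g x)) = dt (Φ j x) (Φ j x)

/-- PER. Weighted form of `Pool.Agent.H58.AG.perron` (in `Pool/Agent/H58/AG/Perron.lean`, which is the
case `w = 1 / 2`): same proof with the matrix
`M k l = ∑ j, p j * (w j (k j - 1) * [l = k - ev j] + w j (k j) * [l = k + ev j])`, using
`perron_matrix`. (`AG.ev j = Pi.single j 1`.) -/
def S_PER : Prop := ∀ (m : ℕ) (B : Finset (Fin m → ℤ)) (p : Fin m → ℝ) (w : Fin m → ℤ → ℝ)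
  (g : (Fin m → ℤ) → ℝ) (R : ℝ), (∀ j, 0 ≤ p j) → (∀ j i, 0 ≤ w j i) → (∃ k ∈ B, g k ≠ 0) → 0 ≤ R →
  R * ∑ k ∈ B, g k ^ 2 ≤ ∑ j, p j * ∑ k ∈ B,
    (if k + Pi.single j 1 ∈ B then 2 * w j (k j) * (g k * g (k + Pi.single j 1)) else 0) →
  ∃ f : (Fin m → ℤ) → ℝ, (∀ k, 0 ≤ f k) ∧ (∀ k, k ∉ B → f k = 0) ∧ (∃ k, f k ≠ 0) ∧
    ∀ k ∈ B, R * f k ≤ ∑ j, p j * (w j (k j - 1) * f (k - Pi.single j 1) +
      w j (k j) * f (k + Pi.single j 1))

end Pool.Agent.H58.BL
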