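import Pool.Agent.H58.AG.Decomp

/-!
# Project BL, fourth part: products of spheres
-/

set_option autoImplicit false

open Finset Module

namespace Pool.Agent.H58.BL

/-- BLK. `G` is the group of the isometries which preserve the norms of the blocks of coordinates
(`N_j(x) = ∑_(b i = j) x_i²`): `{g | ∀ x j, N_j (g x) = N_j x}` (closed under products and inverses).
(1) Let `V` be minimal invariant, `v ∈ V`, `v_i ≠ 0`, `j = b i`. The isometry `r` with `(r x)_k = - x_k`
if `b k = j` and `x_k` otherwise (e.g. `LinearIsometryEquiv.piLpCongrRight` of the maps `±1`, or a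
linear map with `r ∘ r = 1`) is in `G`, so `v - r v` is in `V`, nonzero, and supported on the block `j`.
The subspace `U_j` of the vectors supported on the block `j` is invariant (`N_k (g x) = N_k x = 0` for
`k ≠ j`), so `V ⊓ U_j` is invariant and nonzero, so it is `V`, `V ≤ U_j`, and `finrank U_j ≤ D` (e.g. the
restriction to the coordinates of the block is injective on `U_j`).
(2) If `N_j x = N_j y` for all `j`: let `u_j` be the part of `x - y` in the block `j`, the linear map
`g z = z - ∑_(j : u_j ≠ 0) 2 ⟨z, u_j⟩ / |u_j|² u_j` (product of the commuting reflections in the mutually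
orthogonal vectors `u_j`) preserves all `N_j` and maps `x` to `y` since `2 ⟨x, u_j⟩ = |u_j|²`. In
coordinates: `(g z)_i = z_i - 2 (∑_(b k = b i) z_k u_k) / (∑_(b k = b i) u_k²) u_i` where `u = x - y` (division
by zero is zero). `N_j (g z) = N_j z` is a computation in each block, so `g` is norm preserving and
injective: an isometry (`LinearIsometry.toLinearIsometryEquiv`); `g ∘ g = 1` is also true. -/
def S_BLK : Prop := ∀ (n D : ℕ) (b : Fin n → Fin n),
  (∀ j, (univ.filter (fun i => b i = j)).card ≤ D) →
  ∃ G : Subgroup (EuclideanSpace ℝ (Fin n) ≃ₗᵢ[ℝ] EuclideanSpace ℝ (Fin n)),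
    (∀ V : Submodule ℝ (EuclideanSpace ℝ (Fin n)), AG.IsMin G V → finrank ℝ V ≤ D) ∧
    ∀ x y : EuclideanSpace ℝ (Fin n),
      (∀ j, ∑ i ∈ univ.filter (fun i => b i = j), x i ^ 2 =
        ∑ i ∈ univ.filter (fun i => b i = j), y i ^ 2) → ∃ g ∈ G, y = g x

end Pool.Agent.H58.BL
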