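import Pool.Agent.H58.BL.Basic
import Pool.Agent.H58.AG.Test

/-!
# The test functions for products of blocks
-/

set_option autoImplicit false

open Finset

namespace Pool.Agent.H58.BL

open Pool.Agent.H58.AG (ev sum_shift_le)

variable {m : ℕ}

/-- the product function -/
noncomputable def pf (φ : Fin m → ℤ → ℝ) (k : Fin m → ℤ) : ℝ := ∏ j, φ j (k j)

open Classical in
/-- the typical set -/
noncomputable def typ (φ h : Fin m → ℤ → ℝ) (S : Fin m → Finset ℤ) (β : Fin m → ℝ) :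
    Finset (Fin m → ℤ) :=
  (Fintype.piFinset S).filter (fun k => (∏ j, β j) * pf h k ≤ pf φ k ^ 2)

lemma pf_zero {φ : Fin m → ℤ → ℝ} {S : Fin m → Finset ℤ} (hS : ∀ j t, t ∉ S j → φ j t = 0)
    {k : Fin m → ℤ} (hk : k ∉ Fintype.piFinset S) : pf φ k = 0 := by
  rw [Fintype.mem_piFinset] at hk
  push Not at hk
  obtain ⟨j, hj⟩ := hk
  exact prod_eq_zero (mem_univ j) (hS _ _ hj)

lemma sum_pf_sq {φ : Fin m → ℤ → ℝ} {S : Fin m → Finset ℤ} (h1 : ∀ j, ∑ t ∈ S j, φ j t ^ 2 = 1) :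
    ∑ k ∈ Fintype.piFinset S, pf φ k ^ 2 = 1 := by
  have h2 := prod_univ_sum S (fun j t => φ j t ^ 2)
  simp only [h1, prod_const_one] at h2
  unfold pf
  rw [h2]
  apply sum_congr rfl
  intro k _
  rw [prod_pow]

lemma sum_pf_shift {φ w : Fin m → ℤ → ℝ} {S : Fin m → Finset ℤ} (h1 : ∀ j, ∑ t ∈ S j, φ j t ^ 2 = 1)
    (j : Fin m) :
    ∑ k ∈ Fintype.piFinset S, 2 * w j (k j) * (pf φ k * pf φ (k + ev j)) =
      2 * ∑ t ∈ S j, w j t * (φ j t * φ j (t + 1)) := by
  have h2 := prod_univ_sum S (fun i t => (if i = j then w j t else 1) * (φ i t * φ i (t + ev j i)))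
  have h3 : ∏ i : Fin m, ∑ t ∈ S i, (if i = j then w j t else 1) * (φ i t * φ i (t + ev j i)) =
      ∑ t ∈ S j, w j t * (φ j t * φ j (t + 1)) := by
    rw [prod_eq_single j]
    · simp [ev]
    · intro i _ hi
      have : ev j i = 0 := by simp [ev, hi]
      rw [this]
      simp only [add_zero, hi, if_false, one_mul]
      rw [← h1 i]
      apply sum_congr rfl
      intro t _
      ring
    · simp
  rw [← h3, h2, mul_sum]
  apply sum_congr rfl
  intro k _
  rw [prod_mul_distrib, prod_mul_distrib]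
  have e1 : ∏ i : Fin m, (if i = j then w j (k i) else 1) = w j (k j) := by
    rw [prod_ite_eq' univ j (fun i => w j (k i))]
    simp
  rw [e1]
  unfold pf
  simp only [Pi.add_apply]
  ring

lemma card_typ {φ h : Fin m → ℤ → ℝ} {S : Fin m → Finset ℤ} (h1 : ∀ j, ∑ t ∈ S j, φ j t ^ 2 = 1)
    {β : Fin m → ℝ} : (∏ j, β j) * ∑ k ∈ typ φ h S β, pf h k ≤ 1 := by
  classical
  rw [← sum_pf_sq h1]
  calc (∏ j, β j) * ∑ k ∈ typ φ h S β, pf h k = ∑ k ∈ typ φ h S β, (∏ j, β j) * pf h k := by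
        rw [mul_sum]
    _ ≤ ∑ k ∈ typ φ h S β, pf φ k ^ 2 := by
        apply sum_le_sum
        intro k hk
        exact (mem_filter.1 hk).2
    _ ≤ ∑ k ∈ Fintype.piFinset S, pf φ k ^ 2 := by
        apply sum_le_sum_of_subset_of_nonneg (filter_subset _ _)
        intro k _ _
        positivity

/-- the mass outside of the typical set -/
lemma tail {φ h : Fin m → ℤ → ℝ} {S : Fin m → Finset ℤ} {β t : Fin m → ℝ} {τ : ℝ}
    (hβ : ∀ j, 0 < β j) (hφ : ∀ j, ∀ u ∈ S j, 0 < φ j u) (hh : ∀ j u, 0 < h j u) (ht : ∀ j, t j = τ)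
    (hτ : 0 ≤ τ) :
    ∑ k ∈ Fintype.piFinset S \ typ φ h S β, pf φ k ^ 2 ≤
      ∏ j, (β j ^ τ * ∑ u ∈ S j, φ j u ^ 2 * (h j u / φ j u ^ 2) ^ τ) := by
  classical
  have h1 : ∀ k ∈ Fintype.piFinset S \ typ φ h S β, pf φ k ^ 2 ≤
      ∏ j, (β j ^ τ * (φ j (k j) ^ 2 * (h j (k j) / φ j (k j) ^ 2) ^ τ)) := by
    intro k hk
    rw [mem_sdiff] at hk
    have hk1 := Fintype.mem_piFinset.1 hk.1
    have h2 : pf φ k ^ 2 < (∏ j, β j) * pf h k := by
      by_contra h'
      push Not at h'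
      exact hk.2 (mem_filter.2 ⟨hk.1, h'⟩)
    have hp : 0 < pf φ k ^ 2 := by
      have : 0 < pf φ k := prod_pos fun j _ => hφ j _ (hk1 j)
      positivity
    have e1 : ∏ j, (β j ^ τ * (φ j (k j) ^ 2 * (h j (k j) / φ j (k j) ^ 2) ^ τ)) =
        pf φ k ^ 2 * ((∏ j, β j) * pf h k / pf φ k ^ 2) ^ τ := by
      rw [prod_mul_distrib, prod_mul_distrib]
      have e2 : ∏ j, β j ^ τ = (∏ j, β j) ^ τ := Real.finsetProd_rpow _ _ (fun j _ => (hβ j).le) _
      have e3 : ∏ j, (h j (k j) / φ j (k j) ^ 2) ^ τ = (∏ j, (h j (k j) / φ j (k j) ^ 2)) ^ τ :=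
        Real.finsetProd_rpow _ _ (fun j _ => div_nonneg (hh _ _).le (sq_nonneg _)) _
      rw [e2, e3, prod_div_distrib]
      have e4 : ∏ j, φ j (k j) ^ 2 = pf φ k ^ 2 := by rw [prod_pow]; rfl
      have e5 : ∏ j, h j (k j) = pf h k := rfl
      have e6 : 0 ≤ pf h k := prod_nonneg fun j _ => (hh _ _).le
      rw [e4, e5, mul_div_assoc, Real.mul_rpow (prod_nonneg fun j _ => (hβ j).le)
        (div_nonneg e6 hp.le)]
      ring
    rw [e1]
    have h3 : 1 ≤ ((∏ j, β j) * pf h k / pf φ k ^ 2) ^ τ := by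
      apply Real.one_le_rpow _ hτ
      rw [one_le_div hp]
      exact h2.le
    nlinarith
  calc ∑ k ∈ Fintype.piFinset S \ typ φ h S β, pf φ k ^ 2
      ≤ ∑ k ∈ Fintype.piFinset S \ typ φ h S β,
        ∏ j, (β j ^ τ * (φ j (k j) ^ 2 * (h j (k j) / φ j (k j) ^ 2) ^ τ)) := sum_le_sum h1
    _ ≤ ∑ k ∈ Fintype.piFinset S,
        ∏ j, (β j ^ τ * (φ j (k j) ^ 2 * (h j (k j) / φ j (k j) ^ 2) ^ τ)) := by
        apply sum_le_sum_of_subset_of_nonneg sdiff_subset
        intro k _ _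
        apply prod_nonneg
        intro j _
        have := (hβ j).le
        have h' := (hh j (k j)).le
        positivity
    _ = ∏ j, (β j ^ τ * ∑ u ∈ S j, φ j u ^ 2 * (h j u / φ j u ^ 2) ^ τ) := by
        rw [← prod_univ_sum S (fun j u => β j ^ τ * (φ j u ^ 2 * (h j u / φ j u ^ 2) ^ τ))]
        apply prod_congr rfl
        intro j _
        rw [mul_sum]

/-- the correlation inside of the typical set -/
lemma corr_typ {φ w h : Fin m → ℤ → ℝ} {S : Fin m → Finset ℤ} (hS : ∀ j t, t ∉ S j → φ j t = 0)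
    (hφ0 : ∀ j t, 0 ≤ φ j t) (hw1 : ∀ j t, w j t ≤ 1)
    (h1 : ∀ j, ∑ t ∈ S j, φ j t ^ 2 = 1) {β : Fin m → ℝ} {P : ℝ}
    (hP : ∑ k ∈ Fintype.piFinset S \ typ φ h S β, pf φ k ^ 2 ≤ P) (j : Fin m) :
    (2 * ∑ t ∈ S j, w j t * (φ j t * φ j (t + 1))) - 4 * √P ≤
      ∑ k ∈ typ φ h S β, if k + ev j ∈ typ φ h S β then
        2 * w j (k j) * (pf φ k * pf φ (k + ev j)) else 0 := by
  classical
  set B := typ φ h S β with hB
  set Q := Fintype.piFinset S with hQ
  have hBQ : B ⊆ Q := filter_subset _ _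
  have hsq : ∀ k : Fin m → ℤ, 0 ≤ pf φ k ^ 2 := fun k => sq_nonneg _
  have hpf : ∀ k : Fin m → ℤ, 0 ≤ pf φ k := fun k => prod_nonneg fun _ _ => hφ0 _ _
  have hsum1 : ∑ k ∈ Q, pf φ k ^ 2 = 1 := sum_pf_sq h1
  have hwle : ∀ k : Fin m → ℤ, 2 * w j (k j) * (pf φ k * pf φ (k + ev j)) ≤
      2 * (pf φ k * pf φ (k + ev j)) := by
    intro k
    have h2 := mul_nonneg (hpf k) (hpf (k + ev j))
    have h3 := hw1 j (k j)
    nlinarith
  -- shifted sums
  have hsh1 : ∑ k ∈ Q \ B, pf φ (k + ev j) ^ 2 ≤ 1 := by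
    rw [← hsum1]
    apply sum_shift_le hsq
    intro k _ hk
    rw [pf_zero hS hk]
    ring
  have hsh2 : ∑ k ∈ B with k + ev j ∉ B, pf φ (k + ev j) ^ 2 ≤ P := by
    refine le_trans ?_ hP
    apply sum_shift_le hsq
    intro k hk hk2
    rw [mem_filter] at hk
    have : k + ev j ∉ Q := by
      intro h
      exact hk2 (mem_sdiff.2 ⟨h, hk.2⟩)
    rw [pf_zero hS this]
    ring
  -- Cauchy-Schwarz
  have hcs1 : ∑ k ∈ Q \ B, pf φ k * pf φ (k + ev j) ≤ √P := by
    have h2 := sum_mul_sq_le_sq_mul_sq (Q \ B) (fun k => pf φ k) (fun k => pf φ (k + ev j))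
    apply Real.le_sqrt_of_sq_le
    refine h2.trans ?_
    calc (∑ k ∈ Q \ B, pf φ k ^ 2) * ∑ k ∈ Q \ B, pf φ (k + ev j) ^ 2
        ≤ P * 1 := mul_le_mul hP hsh1 (sum_nonneg fun k _ => hsq _) ((sum_nonneg fun k _ => hsq k).trans hP)
      _ = P := mul_one P
  have hcs2 : ∑ k ∈ B with k + ev j ∉ B, pf φ k * pf φ (k + ev j) ≤ √P := by
    have h2 := sum_mul_sq_le_sq_mul_sq (B.filter (fun k => k + ev j ∉ B)) (fun k => pf φ k)
      (fun k => pf φ (k + ev j))
    apply Real.le_sqrt_of_sq_le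
    refine h2.trans ?_
    have h3 : ∑ k ∈ B with k + ev j ∉ B, pf φ k ^ 2 ≤ 1 := by
      rw [← hsum1]
      exact sum_le_sum_of_subset_of_nonneg ((filter_subset _ _).trans hBQ) (fun k _ _ => hsq k)
    calc (∑ k ∈ B with k + ev j ∉ B, pf φ k ^ 2) * ∑ k ∈ B with k + ev j ∉ B, pf φ (k + ev j) ^ 2
        ≤ 1 * P := mul_le_mul h3 hsh2 (sum_nonneg fun k _ => hsq _) zero_le_one
      _ = P := one_mul P
  have hb1 : ∑ k ∈ Q \ B, 2 * w j (k j) * (pf φ k * pf φ (k + ev j)) ≤ 2 * √P := by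
    refine (sum_le_sum fun k _ => hwle k).trans ?_
    rw [← mul_sum]
    linarith
  have hb2 : ∑ k ∈ B with k + ev j ∉ B, 2 * w j (k j) * (pf φ k * pf φ (k + ev j)) ≤ 2 * √P := by
    refine (sum_le_sum fun k _ => hwle k).trans ?_
    rw [← mul_sum]
    linarith
  have htot : ∑ k ∈ Q, 2 * w j (k j) * (pf φ k * pf φ (k + ev j)) =
      2 * ∑ t ∈ S j, w j t * (φ j t * φ j (t + 1)) := sum_pf_shift h1 j
  have hsplit : ∑ k ∈ Q, 2 * w j (k j) * (pf φ k * pf φ (k + ev j)) =
      ∑ k ∈ Q \ B, 2 * w j (k j) * (pf φ k * pf φ (k + ev j)) +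
      (∑ k ∈ B with k + ev j ∈ B, 2 * w j (k j) * (pf φ k * pf φ (k + ev j)) +
        ∑ k ∈ B with k + ev j ∉ B, 2 * w j (k j) * (pf φ k * pf φ (k + ev j))) := by
    rw [sum_filter_add_sum_filter_not, sum_sdiff hBQ]
  rw [← sum_filter]
  linarith

/-- the bound for codes on products of blocks -/
theorem block_bound (per : S_PER) {α : Type} {A : Fin m → Blk α} {X : Finset α} {p : Fin m → ℝ}
    (hp : ∀ j, 0 ≤ p j) (hp1 : ∑ j, p j = 1) {s : ℝ} (hs0 : 0 ≤ s) (hs1 : s ≤ 1)
    (hX : ∀ x ∈ X, ∀ y ∈ X, x ≠ y → UU A p x y ≤ s)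
    {φ w : Fin m → ℤ → ℝ} (hS : ∀ j t, t ∉ (A j).S → φ j t = 0)
    (hφ0 : ∀ j t, 0 ≤ φ j t) (hφ : ∀ j, ∀ u ∈ (A j).S, 0 < φ j u)
    (hw0 : ∀ j t, 0 ≤ w j t) (hw1 : ∀ j t, w j t ≤ 1)
    (h1 : ∀ j, ∑ t ∈ (A j).S, φ j t ^ 2 = 1) {c : ℝ}
    (hc : ∀ j, c ≤ 2 * ∑ t ∈ (A j).S, w j t * (φ j t * φ j (t + 1))) (hsc : s < c)
    (hrel : ∀ j, ∀ i ∈ (A j).S, i + 1 ∈ (A j).S →
      (A j).a i * √((A j).h i) = w j i * √((A j).h (i + 1)) ∧
      (A j).b (i + 1) * √((A j).h (i + 1)) = w j i * √((A j).h i))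
    {β : Fin m → ℝ} {τ : ℝ} (hβ : ∀ j, 0 < β j) (hτ : 0 ≤ τ)
    (hm : 8 * √(∏ j, (β j ^ τ * ∑ u ∈ (A j).S, φ j u ^ 2 * ((A j).h u / φ j u ^ 2) ^ τ)) ≤ c - s) :
    (c - s) * X.card ≤ 2 * (1 - s) * ∏ j, (1 / β j) := by
  classical
  set h : Fin m → ℤ → ℝ := fun j => (A j).h with hh
  set S : Fin m → Finset ℤ := fun j => (A j).S with hSdef
  have htail := tail (φ := φ) (h := h) (S := S) (β := β) (t := fun _ => τ) (τ := τ) hβ hφ
    (fun j u => (A j).hh u) (fun _ => rfl) hτ
  set P := ∏ j, (β j ^ τ * ∑ u ∈ S j, φ j u ^ 2 * (h j u / φ j u ^ 2) ^ τ) with hPdef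
  set B := typ φ h S β with hBdef
  set R := c - 4 * √P with hR
  have hRs : (c + s) / 2 ≤ R := by
    rw [hR]
    linarith
  have hR0 : 0 ≤ R := by linarith
  have hBS : ∀ k ∈ B, ∀ j, k j ∈ (A j).S := by
    intro k hk
    exact Fintype.mem_piFinset.1 (mem_filter.1 hk).1
  have hcorr : ∀ j : Fin m, R ≤ ∑ k ∈ B, if k + ev j ∈ B then
        2 * w j (k j) * (pf φ k * pf φ (k + ev j)) else 0 := by
    intro j
    have := corr_typ (h := h) (S := S) (β := β) hS hφ0 hw1 h1 htail j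
    have h2 := hc j
    rw [hR]
    linarith
  have hle1 : ∑ k ∈ B, pf φ k ^ 2 ≤ 1 := by
    rw [← sum_pf_sq (φ := φ) (S := S) h1]
    apply sum_le_sum_of_subset_of_nonneg (filter_subset _ _)
    intro k _ _
    positivity
  have hray : R * ∑ k ∈ B, pf φ k ^ 2 ≤
      ∑ j, p j * ∑ k ∈ B, if k + ev j ∈ B then
        2 * w j (k j) * (pf φ k * pf φ (k + ev j)) else 0 := by
    calc R * ∑ k ∈ B, pf φ k ^ 2 ≤ R * 1 := mul_le_mul_of_nonneg_left hle1 hR0
      _ = ∑ j, p j * R := by rw [← sum_mul, hp1, mul_one, one_mul]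
      _ ≤ _ := by
        apply sum_le_sum
        intro j _
        exact mul_le_mul_of_nonneg_left (hcorr j) (hp j)
  have hne : ∃ k ∈ B, pf φ k ≠ 0 := by
    by_contra h
    push Not at h
    have hz : ∀ j : Fin m, ∑ k ∈ B, (if k + ev j ∈ B then
        2 * w j (k j) * (pf φ k * pf φ (k + ev j)) else 0) = 0 := by
      intro j
      apply sum_eq_zero
      intro k hk
      rw [h k hk]
      simp
    have hm0 : (univ : Finset (Fin m)).Nonempty := by
      rw [univ_nonempty_iff, ← not_isEmpty_iff]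
      intro hem
      rw [univ_eq_empty_iff.2 hem, sum_empty] at hp1
      exact zero_ne_one hp1
    obtain ⟨j, -⟩ := hm0
    have := hcorr j
    rw [hz j] at this
    linarith
  obtain ⟨g, hg0, hgB, hgne, hge⟩ := per m B p w (pf φ) R hp hw0 hne hR0 hray
  -- the change of variables
  have hsh : ∀ (k : Fin m → ℤ) (j : Fin m), √(HH A (k + ev j)) * √((A j).h (k j)) =
      √(HH A k) * √((A j).h (k j + 1)) := by
    intro k j
    rw [← Real.sqrt_mul (HH_pos A _).le, ← Real.sqrt_mul (HH_pos A _).le]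
    congr 1
    unfold HH
    rw [← mul_prod_erase univ _ (mem_univ j), ← mul_prod_erase univ (fun i => (A i).h (k i)) (mem_univ j)]
    have e1 : (k + ev j) j = k j + 1 := by simp [ev]
    have e2 : ∏ i ∈ univ.erase j, (A i).h ((k + ev j) i) = ∏ i ∈ univ.erase j, (A i).h (k i) := by
      apply prod_congr rfl
      intro i hi
      have : i ≠ j := (mem_erase.1 hi).1
      simp [ev, Pi.single_eq_of_ne this]
    rw [e1, e2]
    ring
  have hfin := card_le (A := A) (X := X) (f := fun k => √(HH A k) * g k) hp hp1 hX hBS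
    (fun k => mul_nonneg (Real.sqrt_nonneg _) (hg0 k)) (fun k hk => by simp only [hgB k hk, mul_zero])
    (by
      obtain ⟨k, hk⟩ := hgne
      exact ⟨k, mul_ne_zero (Real.sqrt_pos.2 (HH_pos A k)).ne' hk⟩)
    (lam := R) (by
      intro k hk
      have h2 := mul_le_mul_of_nonneg_left (hge k hk) (Real.sqrt_nonneg (HH A k))
      calc R * (√(HH A k) * g k) = √(HH A k) * (R * g k) := by ring
        _ ≤ √(HH A k) * ∑ j, p j * (w j (k j - 1) * g (k - Pi.single j 1) +
              w j (k j) * g (k + Pi.single j 1)) := h2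
        _ = _ := by
          rw [mul_sum]
          apply sum_congr rfl
          intro j _
          have e1 : √(HH A k) * (w j (k j - 1) * g (k - Pi.single j 1)) =
              (A j).a (k j - 1) * (√(HH A (k - ev j)) * g (k - ev j)) := by
            by_cases hB : k - ev j ∈ B
            · have h3 := hBS _ hB j
              have e4 : (k - ev j) j = k j - 1 := by simp [ev]
              rw [e4] at h3
              have h4 := (hrel j _ h3 (by rw [sub_add_cancel]; exact hBS k hk j)).1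
              have h5 := hsh (k - ev j) j
              rw [sub_add_cancel, e4, sub_add_cancel] at h5
              rw [sub_add_cancel] at h4
              have h6 := Real.sqrt_pos.2 ((A j).hh (k j - 1))
              have h7 : √(HH A k) * w j (k j - 1) = (A j).a (k j - 1) * √(HH A (k - ev j)) := by
                apply mul_right_cancel₀ h6.ne'
                have h8 := Real.sqrt_pos.2 ((A j).hh (k j))
                calc √(HH A k) * w j (k j - 1) * √((A j).h (k j - 1))
                    = (√(HH A k) * √((A j).h (k j - 1))) * w j (k j - 1) := by ring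
                  _ = √(HH A (k - ev j)) * (w j (k j - 1) * √((A j).h (k j))) := by rw [h5]; ring
                  _ = _ := by rw [← h4]; ring
              change √(HH A k) * (w j (k j - 1) * g (k - ev j)) = _
              rw [← mul_assoc, h7]
              ring
            · change √(HH A k) * (w j (k j - 1) * g (k - ev j)) = _
              rw [hgB _ hB]
              ring
          have e2 : √(HH A k) * (w j (k j) * g (k + Pi.single j 1)) =
              (A j).b (k j + 1) * (√(HH A (k + ev j)) * g (k + ev j)) := by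
            by_cases hB : k + ev j ∈ B
            · have h3 := hBS _ hB j
              have e4 : (k + ev j) j = k j + 1 := by simp [ev]
              rw [e4] at h3
              have h4 := (hrel j _ (hBS k hk j) h3).2
              have h5 := hsh k j
              have h7 : √(HH A k) * w j (k j) = (A j).b (k j + 1) * √(HH A (k + ev j)) := by
                have h6 := Real.sqrt_pos.2 ((A j).hh (k j))
                apply mul_right_cancel₀ h6.ne'
                calc √(HH A k) * w j (k j) * √((A j).h (k j))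
                    = √(HH A k) * (w j (k j) * √((A j).h (k j))) := by ring
                  _ = (A j).b (k j + 1) * (√(HH A k) * √((A j).h (k j + 1))) := by rw [← h4]; ring
                  _ = _ := by rw [← h5]; ring
              change √(HH A k) * (w j (k j) * g (k + ev j)) = _
              rw [← mul_assoc, h7]
              ring
            · change √(HH A k) * (w j (k j) * g (k + ev j)) = _
              rw [hgB _ hB]
              ring
          calc √(HH A k) * (p j * (w j (k j - 1) * g (k - Pi.single j 1) +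
                w j (k j) * g (k + Pi.single j 1)))
              = p j * (√(HH A k) * (w j (k j - 1) * g (k - Pi.single j 1)) +
                √(HH A k) * (w j (k j) * g (k + Pi.single j 1))) := by ring
            _ = _ := by rw [e1, e2])
    (by linarith) hs1
  have hcard := card_typ (φ := φ) (h := h) (S := S) (β := β) h1
  have hβp : 0 < ∏ j, β j := prod_pos fun j _ => hβ j
  have hcard' : ∑ k ∈ B, HH A k ≤ ∏ j, (1 / β j) := by
    rw [prod_div_distrib, prod_const_one, le_div_iff₀ hβp, mul_comm]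
    exact hcard
  have h4 : (c - s) / 2 * X.card ≤ (1 - s) * ∏ j, (1 / β j) := by
    calc (c - s) / 2 * X.card ≤ (R - s) * X.card := by
          apply mul_le_mul_of_nonneg_right _ (Nat.cast_nonneg _)
          linarith
      _ ≤ (1 - s) * ∑ k ∈ B, HH A k := hfin
      _ ≤ _ := mul_le_mul_of_nonneg_left hcard' (by linarith)
  linarith

end Pool.Agent.H58.BL
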