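import Pool.Agent.H58.BL.Item
import Pool.Agent.H58.BL.Num2

/-!
# The bound for products of spheres of dimensions at most 16, uniform form
-/

set_option autoImplicit false

open Finset Filter Topology

namespace Pool.Agent.H58.BL

/-- the exponent of a block of dimension `d` -/
noncomputable def Cd (d : ℕ) : ℝ :=
  (if d ≤ 2 then 0.36518 else if d ≤ 4 then 0.37768 else if d ≤ 8 then 0.38798 else
    if d ≤ 16 then 0.39478 else 0.39568) * d

lemma data (geg : S_GEG) (d : ℕ) (h1 : 1 ≤ d) (h2 : d ≤ 20) :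
    ∃ (L : ℕ) (q : ℕ → ℝ), KernOK d L ∧ NumOK d L q (Cd d) := by
  have hc : ∀ (L : ℕ) (q : ℕ → ℝ) (c : ℝ), KernOK d L → NumOK d L q (c * d) → c * d = Cd d →
      ∃ (L : ℕ) (q : ℕ → ℝ), KernOK d L ∧ NumOK d L q (Cd d) :=
    fun L q c hK hN h => ⟨L, q, hK, h ▸ hN⟩
  interval_cases d
  · exact hc 1 q1 0.36518 kern_dim_one (by exact_mod_cast num1) (by norm_num [Cd])
  · exact hc 2 q2 0.36518 (kern_of_geg geg (by norm_num) _) (by exact_mod_cast num2) (by norm_num [Cd])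
  · exact hc 2 q3 0.37768 (kern_of_geg geg (by norm_num) _) (by exact_mod_cast num3) (by norm_num [Cd])
  · exact hc 3 q4 0.37768 (kern_of_geg geg (by norm_num) _) (by exact_mod_cast num4) (by norm_num [Cd])
  · exact hc 2 q5 0.38798 (kern_of_geg geg (by norm_num) _) (by exact_mod_cast num5) (by norm_num [Cd])
  · exact hc 3 q6 0.38798 (kern_of_geg geg (by norm_num) _) (by exact_mod_cast num6) (by norm_num [Cd])
  · exact hc 3 q7 0.38798 (kern_of_geg geg (by norm_num) _) (by exact_mod_cast num7) (by norm_num [Cd])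
  · exact hc 5 q8 0.38798 (kern_of_geg geg (by norm_num) _) (by exact_mod_cast num8) (by norm_num [Cd])
  · exact hc 4 q9 0.39478 (kern_of_geg geg (by norm_num) _) (by exact_mod_cast num9) (by norm_num [Cd])
  · exact hc 4 q10 0.39478 (kern_of_geg geg (by norm_num) _) (by exact_mod_cast num10) (by norm_num [Cd])
  · exact hc 4 q11 0.39478 (kern_of_geg geg (by norm_num) _) (by exact_mod_cast num11) (by norm_num [Cd])
  · exact hc 4 q12 0.39478 (kern_of_geg geg (by norm_num) _) (by exact_mod_cast num12) (by norm_num [Cd])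
  · exact hc 4 q13 0.39478 (kern_of_geg geg (by norm_num) _) (by exact_mod_cast num13) (by norm_num [Cd])
  · exact hc 5 q14 0.39478 (kern_of_geg geg (by norm_num) _) (by exact_mod_cast num14) (by norm_num [Cd])
  · exact hc 5 q15 0.39478 (kern_of_geg geg (by norm_num) _) (by exact_mod_cast num15) (by norm_num [Cd])
  · exact hc 5 q16 0.39478 (kern_of_geg geg (by norm_num) _) (by exact_mod_cast num16) (by norm_num [Cd])
  · exact hc 7 q17 0.39568 (kern_of_geg geg (by norm_num) _) (by exact_mod_cast num17) (by norm_num [Cd])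
  · exact hc 7 q18 0.39568 (kern_of_geg geg (by norm_num) _) (by exact_mod_cast num18) (by norm_num [Cd])
  · exact hc 7 q19 0.39568 (kern_of_geg geg (by norm_num) _) (by exact_mod_cast num19) (by norm_num [Cd])
  · exact hc 7 q20 0.39568 (kern_of_geg geg (by norm_num) _) (by exact_mod_cast num20) (by norm_num [Cd])

/-- the bound for blocks of dimensions at most `D` -/
theorem bt_gen (per : S_PER) {s σ : ℝ} (hs0 : 0 ≤ s) (hs1 : s ≤ 1) (hσ : s < σ) {D : ℕ}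
    (hD : 1 ≤ D) {C : ℕ → ℝ} (data : ∀ d : ℕ, 1 ≤ d → d ≤ D →
      ∃ (L : ℕ) (q : ℕ → ℝ), KernOK d L ∧ NumG σ d L q (C d)) {ε : ℝ} (hε : 0 < ε) :
    ∃ K0 : ℝ, 0 < K0 ∧ ∀ (α : Type) (X : Finset α) (m : ℕ) (δ : Fin m → ℕ),
      (∀ j, 1 ≤ δ j ∧ δ j ≤ D) → ∀ (v : ∀ j, α → Fin (δ j) → ℝ),
      (∀ j x, dt (v j x) (v j x) = 1) → ∀ (p : Fin m → ℝ), (∀ j, 0 ≤ p j) → ∑ j, p j = 1 →
      (∀ x ∈ X, ∀ y ∈ X, x ≠ y → ∑ j, p j * dt (v j x) (v j y) ≤ s) →
      (X.card : ℝ) ≤ K0 * 2 ^ (∑ j, (C (δ j) + ε)) := by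
  choose Lf qf hK hN using data
  set F : ℕ → ℝ → ℝ := fun d τ => if h : 1 ≤ d ∧ d ≤ D then
    ((2 : ℝ) ^ (-(C d + ε))) ^ τ * ∑ k ∈ range (Lf d h.1 h.2 + 1),
      qf d h.1 h.2 k * (hd d k / qf d h.1 h.2 k) ^ τ else 0 with hF
  have hFd : ∀ (d : ℕ) (h1 : 1 ≤ d) (h2 : d ≤ D) (τ : ℝ), F d τ =
      ((2 : ℝ) ^ (-(C d + ε))) ^ τ * ∑ k ∈ range (Lf d h1 h2 + 1),
      qf d h1 h2 k * (hd d k / qf d h1 h2 k) ^ τ := by
    intro d h1 h2 τ
    simp only [hF]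
    rw [dif_pos ⟨h1, h2⟩]
  have hpos : ∀ (d : ℕ) (h1 : 1 ≤ d) (h2 : d ≤ D), ∀ k ≤ Lf d h1 h2, 0 < hd d k := by
    intro d h1 h2 k hk
    rcases (hK d h1 h2).2.2.1 k with h | h
    · exact h
    · omega
  have hF0 : ∀ d τ, 0 ≤ F d τ := by
    intro d τ
    by_cases h : 1 ≤ d ∧ d ≤ D
    · rw [hFd d h.1 h.2]
      apply mul_nonneg (by positivity)
      apply sum_nonneg
      intro k hk
      have hk' : k ≤ Lf d h.1 h.2 := by
        have := mem_range.1 hk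
        omega
      have h1 := hpos d h.1 h.2 k hk'
      have h2 := (hN d h.1 h.2).pos k hk'
      positivity
    · simp only [hF]
      rw [dif_neg h]
  have hev : ∀ᶠ τ in 𝓝[>] (0 : ℝ), ∀ d ∈ Icc 1 D, F d τ < 1 := by
    rw [Filter.eventually_all_finset]
    intro d hd'
    rw [mem_Icc] at hd'
    filter_upwards [eventually_tau (hN d hd'.1 hd'.2) (hpos d hd'.1 hd'.2) hε] with τ hτ
    rw [hFd d hd'.1 hd'.2]
    exact hτ
  obtain ⟨τ, hτ, hτ0⟩ := (hev.and (eventually_mem_nhdsWithin : ∀ᶠ τ in 𝓝[>] (0 : ℝ), τ ∈ Set.Ioi 0)).exists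
  rw [Set.mem_Ioi] at hτ0
  obtain ⟨d0, hd0, hmax⟩ := Finset.exists_max_image (Icc 1 D) (fun d => F d τ)
    ⟨1, by rw [mem_Icc]; exact ⟨le_rfl, hD⟩⟩
  obtain ⟨m0, hm0⟩ := bt_items per (ε := ε) (τ := τ) (ρ := F d0 τ) hs0 hs1 hσ hτ0.le (hF0 _ _)
    (hτ d0 hd0)
  refine ⟨2 / (σ - s) * (2 ^ (C 1 + ε)) ^ m0, ?_, ?_⟩
  · have : 0 < σ - s := by linarith
    positivity
  intro α X m δ hδ v hv p hp hp1 hX
  have ht : ∀ (d : ℕ) (h1 : 1 ≤ d) (h2 : d ≤ D), ((2 : ℝ) ^ (-(C d + ε))) ^ τ *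
      ∑ k ∈ range (Lf d h1 h2 + 1), qf d h1 h2 k * (hd d k / qf d h1 h2 k) ^ τ ≤ F d0 τ := by
    intro d h1 h2
    rw [← hFd d h1 h2]
    exact hmax d (by rw [mem_Icc]; exact ⟨h1, h2⟩)
  exact hm0 α X m
    (fun j => mkItem (hδ j).1 (hK _ (hδ j).1 (hδ j).2) (hN _ (hδ j).1 (hδ j).2) (v j) (hv j)
      (ht _ (hδ j).1 (hδ j).2))
    (mkItem le_rfl (hK 1 le_rfl hD) (hN 1 le_rfl hD) (fun _ _ => 1)
      (fun _ => by simp [dt]) (ht 1 le_rfl hD)) p hp hp1 hX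

end Pool.Agent.H58.BL
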